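import Mathlib

open MeasureTheory

namespace Pool.Agent.Helper187.HBV

variable {X : Type*} [MeasurableSpace X] {ν : Measure X} [IsProbabilityMeasure ν]

theorem integrable_of_abs_le {Y : Type*} [MeasurableSpace Y] {μ : Measure Y} [IsFiniteMeasure μ]
    {f : Y → ℝ} (hf : Measurable f) {C : ℝ} (hC : ∀ x, |f x| ≤ C) : Integrable f μ :=
  Integrable.of_bound hf.aestronglyMeasurable C (Filter.Eventually.of_forall (fun x => by
    simpa [Real.norm_eq_abs] using hC x))

/-- TT* lemma for a single kernel. -/
theorem tts (D : X → X → ℝ) (hD : Measurable (Function.uncurry D)) (C : ℝ)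
    (hC : ∀ x t, |D x t| ≤ C)
    (K : X → X → ℝ) (hK : Measurable (Function.uncurry K)) (hKs : ∀ x y, K x y = K y x)
    (C' : ℝ) (hK' : ∀ x y, |K x y| ≤ C')
    (hDK : ∀ x x', |∫ t, D x t * D x' t ∂ν| ≤ K x x')
    (Λ : ℝ) (hΛ0 : 0 < Λ) (hΛ : ∀ x, ∫ x', K x x' ∂ν ≤ Λ)
    (w : X → ℝ) (hwm : Measurable w) (hw : Integrable (fun x => w x ^ 2) ν) :
    Integrable (fun x => (∫ t, D x t * w t ∂ν) ^ 2) ν ∧
    ∫ x, (∫ t, D x t * w t ∂ν) ^ 2 ∂ν ≤ Λ * ∫ x, w x ^ 2 ∂ν := by
  have hne : Nonempty X := by
    by_contra h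
    rw [not_nonempty_iff] at h
    have := measure_univ (μ := ν)
    rw [Set.eq_empty_of_isEmpty Set.univ] at this
    simp at this
  have hC0 : 0 ≤ C := le_trans (abs_nonneg _) (hC hne.some hne.some)
  -- w is integrable
  have hw1 : Integrable w ν := by
    refine Integrable.mono' (g := fun x => (1 + w x ^ 2)) ((integrable_const 1).add hw) hwm.aestronglyMeasurable ?_
    refine Filter.Eventually.of_forall (fun x => ?_)
    rw [Real.norm_eq_abs]
    nlinarith [sq_nonneg (|w x| - 1), sq_abs (w x), abs_nonneg (w x)]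
  set G : X → ℝ := fun x => ∫ t, D x t * w t ∂ν with hG
  have hGm : Measurable G := by
    have : StronglyMeasurable (Function.uncurry (fun x t => D x t * w t)) := by
      apply Measurable.stronglyMeasurable
      exact hD.mul (hwm.comp measurable_snd)
    exact (StronglyMeasurable.integral_prod_right this).measurable
  set B : ℝ := C * ∫ t, |w t| ∂ν with hB
  have hB0 : 0 ≤ B := mul_nonneg hC0 (integral_nonneg (fun _ => abs_nonneg _))
  have hGb : ∀ x, |G x| ≤ B := by
    intro x
    rw [hG, hB, ← integral_const_mul]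
    refine le_trans (abs_integral_le_integral_abs) ?_
    refine integral_mono_of_nonneg (Filter.Eventually.of_forall (fun _ => abs_nonneg _)) (hw1.abs.const_mul C) ?_
    refine Filter.Eventually.of_forall (fun t => ?_)
    simp only [abs_mul]
    exact mul_le_mul_of_nonneg_right (hC x t) (abs_nonneg _)
  have hGint : Integrable (fun x => (G x) ^ 2) ν := by
    refine integrable_of_abs_le (hGm.pow_const 2) (C := B ^ 2) (fun x => ?_)
    rw [abs_pow]
    exact pow_le_pow_left₀ (abs_nonneg _) (hGb x) 2
  refine ⟨hGint, ?_⟩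
  set P : X → ℝ := fun t => ∫ x, G x * D x t ∂ν with hP
  have hPm : Measurable P := by
    have : StronglyMeasurable (Function.uncurry (fun t x => G x * D x t)) := by
      apply Measurable.stronglyMeasurable
      exact (hGm.comp measurable_snd).mul (hD.comp measurable_swap)
    exact (StronglyMeasurable.integral_prod_right this).measurable
  have hPb : ∀ t, |P t| ≤ B * C := by
    intro t
    rw [hP]
    refine le_trans (abs_integral_le_integral_abs) ?_
    have : ∫ x, |G x * D x t| ∂ν ≤ ∫ x, B * C ∂ν := by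
      refine integral_mono_of_nonneg (Filter.Eventually.of_forall (fun _ => abs_nonneg _)) (integrable_const _) ?_
      refine Filter.Eventually.of_forall (fun x => ?_)
      simp only [abs_mul]
      exact mul_le_mul (hGb x) (hC x t) (abs_nonneg _) hB0
    simpa using this
  have hBC : 0 ≤ B * C := mul_nonneg hB0 hC0
  -- integrability on the product
  have hprod1 : Integrable (Function.uncurry (fun x t => G x * D x t * w t)) (ν.prod ν) := by
    have h1 : Integrable (fun z : X × X => w z.2) (ν.prod ν) := hw1.comp_snd ν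
    refine Integrable.mono' (g := fun z : X × X => B * C * |w z.2|) (h1.abs.const_mul _) ?_ ?_
    · exact (((hGm.comp measurable_fst).mul hD).mul (hwm.comp measurable_snd)).aestronglyMeasurable
    · refine Filter.Eventually.of_forall (fun z => ?_)
      simp only [Function.uncurry, Real.norm_eq_abs, abs_mul]
      refine mul_le_mul_of_nonneg_right ?_ (abs_nonneg _)
      exact mul_le_mul (hGb _) (hC _ _) (abs_nonneg _) hB0
  have e1 : ∫ x, G x ^ 2 ∂ν = ∫ t, P t * w t ∂ν := by
    have : ∫ x, G x ^ 2 ∂ν = ∫ x, ∫ t, G x * D x t * w t ∂ν ∂ν := by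
      refine integral_congr_ae (Filter.Eventually.of_forall (fun x => ?_))
      simp only [mul_assoc]
      rw [integral_const_mul, sq]
    rw [this, integral_integral_swap hprod1]
    refine integral_congr_ae (Filter.Eventually.of_forall (fun t => ?_))
    simp only [hP]
    rw [integral_mul_const]
  -- P^2
  have hPint : Integrable (fun t => P t ^ 2) ν := by
    refine integrable_of_abs_le (hPm.pow_const 2) (C := (B * C) ^ 2) (fun x => ?_)
    rw [abs_pow]
    exact pow_le_pow_left₀ (abs_nonneg _) (hPb x) 2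
  set Q : X → ℝ := fun x => ∫ t, P t * D x t ∂ν with hQ
  have e2 : ∫ t, P t ^ 2 ∂ν = ∫ x, G x * Q x ∂ν := by
    have h1 : ∫ t, P t ^ 2 ∂ν = ∫ t, ∫ x, P t * (G x * D x t) ∂ν ∂ν := by
      refine integral_congr_ae (Filter.Eventually.of_forall (fun t => ?_))
      simp only
      rw [integral_const_mul, sq]
    rw [h1, integral_integral_swap]
    · refine integral_congr_ae (Filter.Eventually.of_forall (fun x => ?_))
      simp only [hQ]
      rw [← integral_const_mul]
      refine integral_congr_ae (Filter.Eventually.of_forall (fun t => ?_))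
      simp only
      ring
    · refine integrable_of_abs_le (C := B * C * (B * C)) ?_ ?_
      · exact (hPm.comp measurable_fst).mul ((hGm.comp measurable_snd).mul (hD.comp measurable_swap))
      · intro z
        simp only [Function.uncurry, abs_mul]
        exact mul_le_mul (hPb _) (mul_le_mul (hGb _) (hC _ _) (abs_nonneg _) hB0) (by positivity) hBC
  have hKint : ∀ x, Integrable (fun x' => K x' x) ν := by
    intro x
    refine integrable_of_abs_le (C := C') ?_ (fun x' => hK' x' x)
    exact hK.comp (measurable_id.prodMk measurable_const)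
  have e3 : ∀ x, |Q x| ≤ ∫ x', |G x'| * K x' x ∂ν := by
    intro x
    have h1 : Q x = ∫ x', G x' * (∫ t, D x' t * D x t ∂ν) ∂ν := by
      have h2 : Q x = ∫ t, ∫ x', G x' * D x' t * D x t ∂ν ∂ν := by
        rw [hQ]
        refine integral_congr_ae (Filter.Eventually.of_forall (fun t => ?_))
        simp only [hP]
        rw [integral_mul_const]
      rw [h2, integral_integral_swap]
      · refine integral_congr_ae (Filter.Eventually.of_forall (fun x' => ?_))
        simp only
        rw [← integral_const_mul]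
        refine integral_congr_ae (Filter.Eventually.of_forall (fun t => ?_))
        simp only
        ring
      · refine integrable_of_abs_le (C := B * C * C) ?_ ?_
        · refine ((hGm.comp measurable_snd).mul (hD.comp measurable_swap)).mul ?_
          exact hD.comp (measurable_const.prodMk measurable_fst)
        · intro z
          simp only [Function.uncurry, abs_mul]
          exact mul_le_mul (mul_le_mul (hGb _) (hC _ _) (abs_nonneg _) hB0) (hC _ _) (abs_nonneg _) hBC
    rw [h1]
    refine le_trans (abs_integral_le_integral_abs) ?_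
    refine integral_mono_of_nonneg (Filter.Eventually.of_forall (fun _ => abs_nonneg _)) ?_ ?_
    · refine Integrable.mono' ((hKint x).abs.const_mul B) ?_ ?_
      · exact (hGm.abs.mul (hK.comp (measurable_id.prodMk measurable_const))).aestronglyMeasurable
      · refine Filter.Eventually.of_forall (fun x' => ?_)
        simp only [Real.norm_eq_abs, abs_mul, abs_abs]
        exact mul_le_mul_of_nonneg_right (hGb _) (abs_nonneg _)
    · refine Filter.Eventually.of_forall (fun x' => ?_)
      simp only [abs_mul]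
      exact mul_le_mul_of_nonneg_left (hDK x' x) (abs_nonneg _)
  have hK0 : ∀ x x', 0 ≤ K x x' := fun x x' => le_trans (abs_nonneg _) (hDK x x')
  have hQm : Measurable Q := by
    have : StronglyMeasurable (Function.uncurry (fun x t => P t * D x t)) := by
      apply Measurable.stronglyMeasurable
      exact (hPm.comp measurable_snd).mul hD
    exact (StronglyMeasurable.integral_prod_right this).measurable
  have hI1 : Integrable (Function.uncurry (fun x x' => G x ^ 2 * K x' x)) (ν.prod ν) := by
    refine integrable_of_abs_le (C := B ^ 2 * C') ?_ ?_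
    · exact ((hGm.comp measurable_fst).pow_const 2).mul (hK.comp measurable_swap)
    · intro z
      simp only [Function.uncurry, abs_mul, abs_pow]
      exact mul_le_mul (pow_le_pow_left₀ (abs_nonneg _) (hGb _) 2) (hK' _ _) (abs_nonneg _) (by positivity)
  have hI2 : Integrable (Function.uncurry (fun x x' => G x' ^ 2 * K x' x)) (ν.prod ν) := by
    refine integrable_of_abs_le (C := B ^ 2 * C') ?_ ?_
    · exact ((hGm.comp measurable_snd).pow_const 2).mul (hK.comp measurable_swap)
    · intro z
      simp only [Function.uncurry, abs_mul, abs_pow]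
      exact mul_le_mul (pow_le_pow_left₀ (abs_nonneg _) (hGb _) 2) (hK' _ _) (abs_nonneg _) (by positivity)
  have e4 : ∫ t, P t ^ 2 ∂ν ≤ Λ * ∫ x, G x ^ 2 ∂ν := by
    rw [e2]
    have s1 : ∫ x, G x * Q x ∂ν ≤ ∫ x, (∫ x', (G x ^ 2 * K x' x + G x' ^ 2 * K x' x) / 2 ∂ν) ∂ν := by
      refine integral_mono ?_ ?_ ?_
      · refine integrable_of_abs_le (C := B * (B * C * C)) (hGm.mul hQm) (fun x => ?_)
        rw [abs_mul]
        refine mul_le_mul (hGb x) ?_ (abs_nonneg _) hB0
        rw [hQ]
        refine le_trans (abs_integral_le_integral_abs) ?_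
        have : ∫ t, |P t * D x t| ∂ν ≤ ∫ t, B * C * C ∂ν := by
          refine integral_mono_of_nonneg (Filter.Eventually.of_forall (fun _ => abs_nonneg _)) (integrable_const _) ?_
          refine Filter.Eventually.of_forall (fun t => ?_)
          simp only [abs_mul]
          exact mul_le_mul (hPb t) (hC x t) (abs_nonneg _) hBC
        simpa using this
      · have := ((hI1.add hI2).div_const 2).integral_prod_left
        exact this
      · intro x
        have s2 : G x * Q x ≤ |G x| * ∫ x', |G x'| * K x' x ∂ν := by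
          calc G x * Q x ≤ |G x * Q x| := le_abs_self _
            _ = |G x| * |Q x| := abs_mul _ _
            _ ≤ _ := mul_le_mul_of_nonneg_left (e3 x) (abs_nonneg _)
        refine le_trans s2 ?_
        rw [← integral_const_mul]
        refine integral_mono_of_nonneg (Filter.Eventually.of_forall (fun x' => ?_)) ?_ (Filter.Eventually.of_forall (fun x' => ?_))
        · have := hK0 x' x
          simp only [Pi.zero_apply]
          positivity
        · have m1 : Measurable (fun x' => K x' x) := hK.comp (measurable_id.prodMk measurable_const)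
          refine integrable_of_abs_le (C := (B ^ 2 * C' + B ^ 2 * C') / 2) ?_ (fun x' => ?_)
          · exact ((measurable_const.mul m1).add ((hGm.pow_const 2).mul m1)).div_const 2
          · rw [abs_div, abs_two]
            refine div_le_div_of_nonneg_right ?_ (by norm_num)
            refine le_trans (abs_add_le _ _) ?_
            rw [abs_mul, abs_mul, abs_pow, abs_pow]
            exact add_le_add (mul_le_mul (pow_le_pow_left₀ (abs_nonneg _) (hGb _) 2) (hK' _ _) (abs_nonneg _) (by positivity))
              (mul_le_mul (pow_le_pow_left₀ (abs_nonneg _) (hGb _) 2) (hK' _ _) (abs_nonneg _) (by positivity))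
        · simp only
          have h0 := hK0 x' x
          have : |G x| * |G x'| ≤ (G x ^ 2 + G x' ^ 2) / 2 := by
            nlinarith [sq_nonneg (|G x| - |G x'|), sq_abs (G x), sq_abs (G x')]
          calc |G x| * (|G x'| * K x' x) = (|G x| * |G x'|) * K x' x := by ring
            _ ≤ ((G x ^ 2 + G x' ^ 2) / 2) * K x' x := mul_le_mul_of_nonneg_right this h0
            _ = _ := by ring
    refine le_trans s1 ?_
    have s3 : ∫ x, (∫ x', (G x ^ 2 * K x' x + G x' ^ 2 * K x' x) / 2 ∂ν) ∂ν
        = (∫ x, (∫ x', G x ^ 2 * K x' x ∂ν) ∂ν) / 2 + (∫ x, (∫ x', G x' ^ 2 * K x' x ∂ν) ∂ν) / 2 := by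
      have h1 := integral_integral_add (f := fun z : X × X => G z.1 ^ 2 * K z.2 z.1 / 2) (g := fun z : X × X => G z.2 ^ 2 * K z.2 z.1 / 2)
        (μ := ν) (ν := ν) (hI1.div_const 2) (hI2.div_const 2)
      have h2 : ∀ x, ∫ x', (G x ^ 2 * K x' x + G x' ^ 2 * K x' x) / 2 ∂ν
          = ∫ x', (G x ^ 2 * K x' x / 2 + G x' ^ 2 * K x' x / 2) ∂ν := by
        intro x
        refine integral_congr_ae (Filter.Eventually.of_forall (fun x' => ?_))
        simp only
        ring
      rw [integral_congr_ae (Filter.Eventually.of_forall h2), h1]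
      congr 1
      · rw [← integral_div]
        refine integral_congr_ae (Filter.Eventually.of_forall (fun x => ?_))
        simp only
        rw [integral_div]
      · rw [← integral_div]
        refine integral_congr_ae (Filter.Eventually.of_forall (fun x => ?_))
        simp only
        rw [integral_div]
    rw [s3]
    have hΛ' : ∀ x, ∫ x', K x' x ∂ν ≤ Λ := by
      intro x
      have : (fun x' => K x' x) = (fun x' => K x x') := by ext x'; exact hKs x' x
      rw [this]; exact hΛ x
    have s4 : ∫ x, (∫ x', G x ^ 2 * K x' x ∂ν) ∂ν ≤ Λ * ∫ x, G x ^ 2 ∂ν := by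
      rw [← integral_const_mul]
      refine integral_mono hI1.integral_prod_left (hGint.const_mul Λ) (fun x => ?_)
      simp only
      rw [integral_const_mul, mul_comm]
      exact mul_le_mul_of_nonneg_right (hΛ' x) (sq_nonneg _)
    have s5 : ∫ x, (∫ x', G x' ^ 2 * K x' x ∂ν) ∂ν ≤ Λ * ∫ x, G x ^ 2 ∂ν := by
      rw [integral_integral_swap hI2, ← integral_const_mul]
      refine integral_mono hI2.integral_prod_right (hGint.const_mul Λ) (fun x => ?_)
      simp only
      rw [integral_const_mul, mul_comm]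
      exact mul_le_mul_of_nonneg_right (hΛ x) (sq_nonneg _)
    linarith
  have e5 : ∫ t, P t * w t ∂ν ≤ ∫ t, (Λ / 2 * w t ^ 2 + 1 / (2 * Λ) * P t ^ 2) ∂ν := by
    refine integral_mono ?_ ((hw.const_mul _).add (hPint.const_mul _)) (fun t => ?_)
    · have := hprod1.integral_prod_right
      refine this.congr (Filter.Eventually.of_forall (fun t => ?_))
      simp only [Function.uncurry, hP]
      rw [integral_mul_const]
    · simp only
      have h0 : 0 ≤ (Λ * w t - P t) ^ 2 / (2 * Λ) := by positivity
      have h1 : (Λ * w t - P t) ^ 2 / (2 * Λ) = Λ / 2 * w t ^ 2 + 1 / (2 * Λ) * P t ^ 2 - P t * w t := by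
        field_simp
        ring
      linarith
  rw [integral_add (hw.const_mul _) (hPint.const_mul _), integral_const_mul, integral_const_mul] at e5
  have e6 : 1 / (2 * Λ) * ∫ t, P t ^ 2 ∂ν ≤ 1 / 2 * ∫ x, G x ^ 2 ∂ν := by
    calc 1 / (2 * Λ) * ∫ t, P t ^ 2 ∂ν ≤ 1 / (2 * Λ) * (Λ * ∫ x, G x ^ 2 ∂ν) :=
          mul_le_mul_of_nonneg_left e4 (by positivity)
      _ = 1 / 2 * ∫ x, G x ^ 2 ∂ν := by field_simp
  linarith

/-- measurable choice of a maximiser in a finite set. -/
theorem exists_sel {ι : Type*} [MeasurableSpace ι] [DiscreteMeasurableSpace ι] [Countable ι]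
    (v : ι → X → ℝ) (hv : ∀ i, Measurable (v i)) (s : Finset ι) (hs : s.Nonempty) :
    ∃ sel : X → ι, Measurable sel ∧ (∀ x, sel x ∈ s) ∧ ∀ x, ∀ i ∈ s, v i x ≤ v (sel x) x := by
  classical
  have hcomp : ∀ sel : X → ι, Measurable sel → Measurable (fun x => v (sel x) x) := by
    intro sel hsel
    have h1 : Measurable (fun z : ι × X => v z.1 z.2) := measurable_from_prod_countable_right (fun i => hv i)
    exact h1.comp (hsel.prodMk measurable_id)
  induction hs using Finset.Nonempty.cons_induction with
  | singleton a =>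
    refine ⟨fun _ => a, measurable_const, fun x => by simp, fun x i hi => ?_⟩
    rw [Finset.mem_singleton] at hi
    rw [hi]
  | cons a s ha hs ih =>
    obtain ⟨sel, hm, hmem, hmax⟩ := ih
    refine ⟨fun x => if v (sel x) x ≤ v a x then a else sel x, ?_, ?_, ?_⟩
    · exact Measurable.ite (measurableSet_le (hcomp sel hm) (hv a)) measurable_const hm
    · intro x
      by_cases h : v (sel x) x ≤ v a x
      · simp [h]
      · simp [h, hmem x]
    · intro x i hi
      rw [Finset.mem_cons] at hi
      by_cases h : v (sel x) x ≤ v a x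
      · simp only [h, if_true]
        rcases hi with rfl | hi
        · exact le_refl _
        · exact le_trans (hmax x i hi) h
      · simp only [h, if_false]
        rcases hi with rfl | hi
        · exact le_of_lt (not_le.mp h)
        · exact hmax x i hi

/-- maximal TT* lemma (Kolmogorov, Seliverstov, Plessner). -/
theorem ksp {ι : Type*} [MeasurableSpace ι] [DiscreteMeasurableSpace ι] [Countable ι]
    (s : Finset ι) (D : ι → X → X → ℝ) (hD : ∀ i, Measurable (Function.uncurry (D i))) (C : ℝ)
    (hC : ∀ i ∈ s, ∀ x t, |D i x t| ≤ C)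
    (K : X → X → ℝ) (hK : Measurable (Function.uncurry K)) (hKs : ∀ x y, K x y = K y x)
    (C' : ℝ) (hK' : ∀ x y, |K x y| ≤ C')
    (hDK : ∀ i ∈ s, ∀ j ∈ s, ∀ x x', |∫ t, D i x t * D j x' t ∂ν| ≤ K x x')
    (Λ : ℝ) (hΛ0 : 0 < Λ) (hΛ : ∀ x, ∫ x', K x x' ∂ν ≤ Λ)
    (w : X → ℝ) (hwm : Measurable w) :
    ∫⁻ x, (⨆ i ∈ s, ‖∫ t, D i x t * w t ∂ν‖ₑ) ^ 2 ∂ν
      ≤ ENNReal.ofReal Λ * ∫⁻ x, ‖w x‖ₑ ^ 2 ∂ν := by
  classical
  by_cases hfin : ∫⁻ x, ‖w x‖ₑ ^ 2 ∂ν = ⊤
  · rw [hfin, ENNReal.mul_top]
    · exact le_top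
    · simpa using hΛ0
  rcases s.eq_empty_or_nonempty with rfl | hs
  · simp
  have hw : Integrable (fun x => w x ^ 2) ν := by
    refine ⟨(hwm.pow_const 2).aestronglyMeasurable, ?_⟩
    unfold HasFiniteIntegral
    have : (fun x => ‖w x ^ 2‖ₑ) = fun x => ‖w x‖ₑ ^ 2 := by
      ext x; rw [enorm_pow]
    rw [this]
    exact lt_top_iff_ne_top.mpr hfin
  set v : ι → X → ℝ := fun i x => |∫ t, D i x t * w t ∂ν| with hv
  have hvm : ∀ i, Measurable (v i) := by
    intro i
    have : StronglyMeasurable (Function.uncurry (fun x t => D i x t * w t)) := by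
      apply Measurable.stronglyMeasurable
      exact (hD i).mul (hwm.comp measurable_snd)
    exact (StronglyMeasurable.integral_prod_right this).measurable.abs
  obtain ⟨sel, hm, hmem, hmax⟩ := exists_sel v hvm s hs
  have hDm : Measurable (Function.uncurry (fun x t => D (sel x) x t)) := by
    have h1 : Measurable (fun z : ι × (X × X) => D z.1 z.2.1 z.2.2) :=
      measurable_from_prod_countable_right (fun i => hD i)
    exact h1.comp ((hm.comp measurable_fst).prodMk measurable_id)
  have key := tts (ν := ν) (fun x t => D (sel x) x t) hDm C (fun x t => hC _ (hmem x) x t) K hK hKs C' hK'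
    (fun x x' => hDK _ (hmem x) _ (hmem x') x x') Λ hΛ0 hΛ w hwm hw
  obtain ⟨hint, hle⟩ := key
  have hpt : ∀ x, (⨆ i ∈ s, ‖∫ t, D i x t * w t ∂ν‖ₑ) ^ 2
      ≤ ENNReal.ofReal ((∫ t, D (sel x) x t * w t ∂ν) ^ 2) := by
    intro x
    have h1 : (⨆ i ∈ s, ‖∫ t, D i x t * w t ∂ν‖ₑ) ≤ ‖∫ t, D (sel x) x t * w t ∂ν‖ₑ := by
      refine iSup₂_le (fun i hi => ?_)
      rw [Real.enorm_eq_ofReal_abs, Real.enorm_eq_ofReal_abs]
      exact ENNReal.ofReal_le_ofReal (hmax x i hi)
    calc (⨆ i ∈ s, ‖∫ t, D i x t * w t ∂ν‖ₑ) ^ 2 ≤ ‖∫ t, D (sel x) x t * w t ∂ν‖ₑ ^ 2 := by gcongr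
      _ = _ := by
        rw [Real.enorm_eq_ofReal_abs, ← ENNReal.ofReal_pow (abs_nonneg _), sq_abs]
  calc ∫⁻ x, (⨆ i ∈ s, ‖∫ t, D i x t * w t ∂ν‖ₑ) ^ 2 ∂ν
      ≤ ∫⁻ x, ENNReal.ofReal ((∫ t, D (sel x) x t * w t ∂ν) ^ 2) ∂ν := lintegral_mono hpt
    _ = ENNReal.ofReal (∫ x, (∫ t, D (sel x) x t * w t ∂ν) ^ 2 ∂ν) := by
        rw [ofReal_integral_eq_lintegral_ofReal hint (Filter.Eventually.of_forall (fun x => sq_nonneg _))]
    _ ≤ ENNReal.ofReal (Λ * ∫ x, w x ^ 2 ∂ν) := ENNReal.ofReal_le_ofReal hle
    _ = ENNReal.ofReal Λ * ∫⁻ x, ‖w x‖ₑ ^ 2 ∂ν := by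
        rw [ENNReal.ofReal_mul hΛ0.le, ofReal_integral_eq_lintegral_ofReal hw (Filter.Eventually.of_forall (fun x => sq_nonneg _))]
        congr 1
        refine lintegral_congr (fun x => ?_)
        rw [Real.enorm_eq_ofReal_abs, ← ENNReal.ofReal_pow (abs_nonneg _), sq_abs]

theorem lintegral_le_of_sq_le {G : X → ENNReal} (hG : Measurable G) {B : ENNReal}
    (h : ∫⁻ x, G x ^ 2 ∂ν ≤ B ^ 2) : ∫⁻ x, G x ∂ν ≤ B := by
  have h1 := ENNReal.lintegral_mul_le_Lp_mul_Lq ν (p := 2) (q := 2) (by constructor <;> norm_num) hG.aemeasurable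
    (aemeasurable_const (b := (1 : ENNReal)))
  simp only [Pi.mul_apply, mul_one, one_pow, ENNReal.one_rpow, lintegral_const, measure_univ, ENNReal.rpow_ofNat] at h1
  refine le_trans h1 ?_
  calc (∫⁻ x, G x ^ 2 ∂ν) ^ ((1 : ℝ) / 2) ≤ (B ^ 2) ^ ((1 : ℝ) / 2) := by gcongr
    _ = B := by
      rw [← ENNReal.rpow_natCast B 2, ← ENNReal.rpow_mul]
      norm_num

end Pool.Agent.Helper187.HBV
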