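import Mathlib
import Pool.Agent.Helper187.HBV.KSP

open MeasureTheory

set_option linter.unusedSectionVars false
set_option linter.unusedVariables false

namespace Pool.Agent.Helper187.HBV

variable {X : Type*} [MeasurableSpace X] {ν : Measure X} [IsProbabilityMeasure ν]

/-- good functions of two variables. -/
structure Good (ν : Measure X) (f : X × X → ℝ) : Prop where
  meas : Measurable f
  int : Integrable f (ν.prod ν)
  row : ∀ y, Integrable (fun x => f (x, y)) ν
  col : ∀ x, Integrable (fun y => f (x, y)) ν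

/-- bounded measurable kernels. -/
structure BK (k : X → X → ℝ) : Prop where
  meas : Measurable (Function.uncurry k)
  bdd : ∃ C, 0 ≤ C ∧ ∀ x t, |k x t| ≤ C

noncomputable def op1 (ν : Measure X) (k : X → X → ℝ) (f : X × X → ℝ) : X × X → ℝ :=
  fun p => ∫ t, k p.1 t * f (t, p.2) ∂ν

noncomputable def op2 (ν : Measure X) (k : X → X → ℝ) (f : X × X → ℝ) : X × X → ℝ :=
  fun p => ∫ t, k p.2 t * f (p.1, t) ∂ν

def sw {Y : Type*} (f : X × X → Y) : X × X → Y := fun p => f (p.2, p.1)

noncomputable def lop1 (ν : Measure X) (k : X → X → ENNReal) (f : X × X → ENNReal) : X × X → ENNReal :=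
  fun p => ∫⁻ t, k p.1 t * f (t, p.2) ∂ν

noncomputable def lop2 (ν : Measure X) (k : X → X → ENNReal) (f : X × X → ENNReal) : X × X → ENNReal :=
  fun p => ∫⁻ t, k p.2 t * f (p.1, t) ∂ν

theorem sw_sw {Y : Type*} (f : X × X → Y) : sw (sw f) = f := rfl

theorem op2_eq (k : X → X → ℝ) (f : X × X → ℝ) : op2 ν k f = sw (op1 ν k (sw f)) := rfl

theorem lop2_eq (k : X → X → ENNReal) (f : X × X → ENNReal) : lop2 ν k f = sw (lop1 ν k (sw f)) := rfl

theorem Good.sw {f : X × X → ℝ} (h : Good ν f) : Good ν (sw f) :=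
  ⟨h.meas.comp measurable_swap, h.int.swap, h.col, h.row⟩

theorem lintegral_sw {f : X × X → ENNReal} (hf : Measurable f) :
    ∫⁻ p, sw f p ∂(ν.prod ν) = ∫⁻ p, f p ∂(ν.prod ν) := by
  have := lintegral_prod_swap (μ := ν) (ν := ν) f
  exact this

theorem Measurable.sw {Y : Type*} [MeasurableSpace Y] {f : X × X → Y} (hf : Measurable f) : Measurable (sw f) :=
  hf.comp measurable_swap

theorem lop1_meas {k : X → X → ENNReal} (hk : Measurable (Function.uncurry k)) {f : X × X → ENNReal}
    (hf : Measurable f) : Measurable (lop1 ν k f) := by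
  unfold lop1
  apply Measurable.lintegral_prod_right'
    (f := fun z : (X × X) × X => k z.1.1 z.2 * f (z.2, z.1.2))
  exact (hk.comp ((measurable_fst.comp measurable_fst).prodMk measurable_snd)).mul
    (hf.comp (measurable_snd.prodMk (measurable_snd.comp measurable_fst)))

theorem lop2_meas {k : X → X → ENNReal} (hk : Measurable (Function.uncurry k)) {f : X × X → ENNReal}
    (hf : Measurable f) : Measurable (lop2 ν k f) := by
  rw [lop2_eq]; exact Measurable.sw (lop1_meas hk (Measurable.sw hf))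

theorem lop1_lint {k : X → X → ENNReal} (hk : Measurable (Function.uncurry k)) {f : X × X → ENNReal}
    (hf : Measurable f) {Λ : ENNReal} (hΛ : ∀ t, ∫⁻ x, k x t ∂ν ≤ Λ) :
    ∫⁻ p, lop1 ν k f p ∂(ν.prod ν) ≤ Λ * ∫⁻ p, f p ∂(ν.prod ν) := by
  rw [lintegral_prod_symm _ (lop1_meas hk hf).aemeasurable, lintegral_prod_symm _ hf.aemeasurable,
    ← lintegral_const_mul _ (Measurable.lintegral_prod_left' hf)]
  refine lintegral_mono (fun y => ?_)
  simp only [lop1]
  rw [lintegral_lintegral_swap]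
  · have m1 : Measurable (fun x => f (x, y)) := hf.comp (measurable_id.prodMk measurable_const)
    rw [← lintegral_const_mul _ m1]
    refine lintegral_mono (fun t => ?_)
    simp only
    have m2 : Measurable (fun x => k x t) := hk.comp (measurable_id.prodMk measurable_const)
    rw [lintegral_mul_const _ m2]
    gcongr
    exact hΛ t
  · refine Measurable.aemeasurable ?_
    exact hk.mul (hf.comp (measurable_snd.prodMk measurable_const))

theorem lop2_lint {k : X → X → ENNReal} (hk : Measurable (Function.uncurry k)) {f : X × X → ENNReal}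
    (hf : Measurable f) {Λ : ENNReal} (hΛ : ∀ t, ∫⁻ x, k x t ∂ν ≤ Λ) :
    ∫⁻ p, lop2 ν k f p ∂(ν.prod ν) ≤ Λ * ∫⁻ p, f p ∂(ν.prod ν) := by
  rw [lop2_eq, lintegral_sw (lop1_meas hk (Measurable.sw hf)), ← lintegral_sw hf]
  exact lop1_lint hk (Measurable.sw hf) hΛ

theorem lop1_mono {k k' : X → X → ENNReal} {f f' : X × X → ENNReal} (hk : ∀ x t, k x t ≤ k' x t)
    (hf : ∀ p, f p ≤ f' p) (p : X × X) : lop1 ν k f p ≤ lop1 ν k' f' p :=
  lintegral_mono (fun _ => mul_le_mul' (hk _ _) (hf _))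

theorem lop2_mono {k k' : X → X → ENNReal} {f f' : X × X → ENNReal} (hk : ∀ x t, k x t ≤ k' x t)
    (hf : ∀ p, f p ≤ f' p) (p : X × X) : lop2 ν k f p ≤ lop2 ν k' f' p :=
  lintegral_mono (fun _ => mul_le_mul' (hk _ _) (hf _))

theorem op1_enorm_le (k : X → X → ℝ) (f : X × X → ℝ) (p : X × X) :
    ‖op1 ν k f p‖ₑ ≤ lop1 ν (fun x t => ‖k x t‖ₑ) (fun q => ‖f q‖ₑ) p := by
  refine le_trans (enorm_integral_le_lintegral_enorm _) ?_
  refine lintegral_mono (fun t => ?_)
  simp only [enorm_mul]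
  exact le_refl _

theorem op2_enorm_le (k : X → X → ℝ) (f : X × X → ℝ) (p : X × X) :
    ‖op2 ν k f p‖ₑ ≤ lop2 ν (fun x t => ‖k x t‖ₑ) (fun q => ‖f q‖ₑ) p := by
  refine le_trans (enorm_integral_le_lintegral_enorm _) ?_
  refine lintegral_mono (fun t => ?_)
  simp only [enorm_mul]
  exact le_refl _

theorem BK.left {k : X → X → ℝ} (hk : BK k) (x : X) : Measurable (fun t => k x t) :=
  hk.meas.comp (measurable_const.prodMk measurable_id)

theorem BK.mul_int {k : X → X → ℝ} (hk : BK k) (x : X) {g : X → ℝ} (hg : Integrable g ν) :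
    Integrable (fun t => k x t * g t) ν := by
  obtain ⟨C, hC0, hC⟩ := hk.bdd
  exact hg.bdd_mul (hk.left x).aestronglyMeasurable
    (Filter.Eventually.of_forall (fun t => by rw [Real.norm_eq_abs]; exact hC x t))

theorem good_op1 {k : X → X → ℝ} (hk : BK k) {f : X × X → ℝ} (hf : Good ν f) : Good ν (op1 ν k f) := by
  obtain ⟨C, hC0, hC⟩ := hk.bdd
  have hm : Measurable (op1 ν k f) := by
    have : StronglyMeasurable (fun z : (X × X) × X => k z.1.1 z.2 * f (z.2, z.1.2)) := by
      apply Measurable.stronglyMeasurable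
      exact (hk.meas.comp ((measurable_fst.comp measurable_fst).prodMk measurable_snd)).mul
        (hf.meas.comp (measurable_snd.prodMk (measurable_snd.comp measurable_fst)))
    exact (StronglyMeasurable.integral_prod_right' this).measurable
  have hprod : ∀ x, Integrable (fun z : X × X => k x z.1 * f (z.1, z.2)) (ν.prod ν) := by
    intro x
    refine hf.int.bdd_mul (c := C) (hk.left x |>.comp measurable_fst).aestronglyMeasurable ?_
    exact (Filter.Eventually.of_forall (fun t => by rw [Real.norm_eq_abs]; exact hC x _))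
  refine ⟨hm, ?_, ?_, ?_⟩
  · refine ⟨hm.aestronglyMeasurable, ?_⟩
    unfold HasFiniteIntegral
    have h1 : ∫⁻ p, ‖op1 ν k f p‖ₑ ∂(ν.prod ν) ≤ ENNReal.ofReal C * ∫⁻ p, ‖f p‖ₑ ∂(ν.prod ν) := by
      refine le_trans (lintegral_mono (op1_enorm_le k f)) ?_
      refine lop1_lint ?_ hf.meas.enorm ?_
      · exact hk.meas.enorm
      · intro t
        have : ∫⁻ x, ‖k x t‖ₑ ∂ν ≤ ∫⁻ x, ENNReal.ofReal C ∂ν := by
          refine lintegral_mono (fun x => ?_)
          simp only
          rw [Real.enorm_eq_ofReal_abs]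
          exact ENNReal.ofReal_le_ofReal (hC x t)
        simpa using this
    refine lt_of_le_of_lt h1 (ENNReal.mul_lt_top ENNReal.ofReal_lt_top hf.int.2)
  · intro y
    refine integrable_of_abs_le (C := ∫ t, C * |f (t, y)| ∂ν) (hm.comp (measurable_id.prodMk measurable_const)) (fun x => ?_)
    unfold op1
    refine le_trans (abs_integral_le_integral_abs) ?_
    refine integral_mono_of_nonneg (Filter.Eventually.of_forall (fun _ => abs_nonneg _)) ((hf.row y).abs.const_mul C) ?_
    refine Filter.Eventually.of_forall (fun t => ?_)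
    simp only [abs_mul]
    exact mul_le_mul_of_nonneg_right (hC _ _) (abs_nonneg _)
  · intro x
    exact (hprod x).integral_prod_right

theorem good_op2 {k : X → X → ℝ} (hk : BK k) {f : X × X → ℝ} (hf : Good ν f) : Good ν (op2 ν k f) := by
  rw [op2_eq]; exact (good_op1 hk hf.sw).sw

theorem Good.sub {f g : X × X → ℝ} (hf : Good ν f) (hg : Good ν g) : Good ν (f - g) :=
  ⟨hf.meas.sub hg.meas, hf.int.sub hg.int, fun y => (hf.row y).sub (hg.row y), fun x => (hf.col x).sub (hg.col x)⟩

theorem Good.add {f g : X × X → ℝ} (hf : Good ν f) (hg : Good ν g) : Good ν (f + g) :=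
  ⟨hf.meas.add hg.meas, hf.int.add hg.int, fun y => (hf.row y).add (hg.row y), fun x => (hf.col x).add (hg.col x)⟩

theorem Good.indicator {f : X × X → ℝ} (hf : Good ν f) {s : Set (X × X)} (hs : MeasurableSet s) :
    Good ν (s.indicator f) := by
  refine ⟨hf.meas.indicator hs, hf.int.indicator hs, fun y => ?_, fun x => ?_⟩
  · have : (fun x => s.indicator f (x, y)) = ({x | (x, y) ∈ s} : Set X).indicator (fun x => f (x, y)) := by
      ext x; by_cases h : (x, y) ∈ s <;> simp [h]
    rw [this]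
    exact (hf.row y).indicator ((measurable_id.prodMk measurable_const) hs)
  · have : (fun y => s.indicator f (x, y)) = ({y | (x, y) ∈ s} : Set X).indicator (fun y => f (x, y)) := by
      ext y; by_cases h : (x, y) ∈ s <;> simp [h]
    rw [this]
    exact (hf.col x).indicator ((measurable_const.prodMk measurable_id) hs)

theorem op1_sub {k : X → X → ℝ} (hk : BK k) {f g : X × X → ℝ} (hf : Good ν f) (hg : Good ν g) :
    op1 ν k (f - g) = op1 ν k f - op1 ν k g := by
  ext p
  simp only [op1, Pi.sub_apply]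
  rw [← integral_sub (hk.mul_int _ (hf.row _)) (hk.mul_int _ (hg.row _))]
  congr 1; ext t; ring

theorem op1_add {k : X → X → ℝ} (hk : BK k) {f g : X × X → ℝ} (hf : Good ν f) (hg : Good ν g) :
    op1 ν k (f + g) = op1 ν k f + op1 ν k g := by
  ext p
  simp only [op1, Pi.add_apply]
  rw [← integral_add (hk.mul_int _ (hf.row _)) (hk.mul_int _ (hg.row _))]
  congr 1; ext t; ring

theorem op2_sub {k : X → X → ℝ} (hk : BK k) {f g : X × X → ℝ} (hf : Good ν f) (hg : Good ν g) :
    op2 ν k (f - g) = op2 ν k f - op2 ν k g := by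
  rw [op2_eq, op2_eq, op2_eq]
  have : sw (f - g) = sw f - sw g := rfl
  rw [this, op1_sub hk hf.sw hg.sw]
  rfl

theorem op2_add {k : X → X → ℝ} (hk : BK k) {f g : X × X → ℝ} (hf : Good ν f) (hg : Good ν g) :
    op2 ν k (f + g) = op2 ν k f + op2 ν k g := by
  rw [op2_eq, op2_eq, op2_eq]
  have : sw (f + g) = sw f + sw g := rfl
  rw [this, op1_add hk hf.sw hg.sw]
  rfl

theorem op1_comp {k l m : X → X → ℝ} (hk : BK k) (hl : BK l)
    (hm : ∀ x y, ∫ t, k x t * l t y ∂ν = m x y) {f : X × X → ℝ} (hf : Good ν f) :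
    op1 ν k (op1 ν l f) = op1 ν m f := by
  obtain ⟨C, hC0, hC⟩ := hk.bdd
  obtain ⟨C', hC0', hC'⟩ := hl.bdd
  ext p
  simp only [op1]
  have h1 : ∫ t, k p.1 t * ∫ s, l t s * f (s, p.2) ∂ν ∂ν = ∫ t, ∫ s, k p.1 t * (l t s * f (s, p.2)) ∂ν ∂ν := by
    congr 1; ext t; rw [integral_const_mul]
  rw [h1, integral_integral_swap]
  · congr 1; ext s
    rw [← hm, ← integral_mul_const]
    congr 1; ext t; ring
  · have hi : Integrable (fun z : X × X => f (z.2, p.2)) (ν.prod ν) := (hf.row p.2).comp_snd ν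
    have h2 : Integrable (fun z : X × X => l z.1 z.2 * f (z.2, p.2)) (ν.prod ν) :=
      hi.bdd_mul (c := C') hl.meas.aestronglyMeasurable
        (Filter.Eventually.of_forall (fun t => by rw [Real.norm_eq_abs]; exact hC' _ _))
    exact h2.bdd_mul (c := C) ((hk.left p.1).comp measurable_fst).aestronglyMeasurable
        (Filter.Eventually.of_forall (fun t => by rw [Real.norm_eq_abs]; exact hC _ _))

theorem op2_comp {k l m : X → X → ℝ} (hk : BK k) (hl : BK l)
    (hm : ∀ x y, ∫ t, k x t * l t y ∂ν = m x y) {f : X × X → ℝ} (hf : Good ν f) :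
    op2 ν k (op2 ν l f) = op2 ν m f := by
  rw [op2_eq, op2_eq, op2_eq, sw_sw, op1_comp hk hl hm hf.sw]

theorem op12_int {k l : X → X → ℝ} (hk : BK k) (hl : BK l) {f : X × X → ℝ} (hf : Good ν f) (p : X × X) :
    Integrable (fun z : X × X => (k p.1 z.1 * l p.2 z.2) * f z) (ν.prod ν) := by
  obtain ⟨C, hC0, hC⟩ := hk.bdd
  obtain ⟨C', hC0', hC'⟩ := hl.bdd
  refine hf.int.bdd_mul (c := C * C') ?_ ?_
  · exact (((hk.left p.1).comp measurable_fst).mul ((hl.left p.2).comp measurable_snd)).aestronglyMeasurable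
  · refine Filter.Eventually.of_forall (fun z => ?_)
    rw [Real.norm_eq_abs, abs_mul]
    exact mul_le_mul (hC _ _) (hC' _ _) (abs_nonneg _) hC0

theorem op12_eq {k l : X → X → ℝ} (hk : BK k) (hl : BK l) {f : X × X → ℝ} (hf : Good ν f) (p : X × X) :
    op1 ν k (op2 ν l f) p = ∫ z, (k p.1 z.1 * l p.2 z.2) * f z ∂(ν.prod ν) := by
  rw [integral_prod _ (op12_int hk hl hf p)]
  simp only [op1, op2]
  congr 1; ext t
  rw [← integral_const_mul]
  congr 1; ext s
  ring

theorem op21_eq {k l : X → X → ℝ} (hk : BK k) (hl : BK l) {f : X × X → ℝ} (hf : Good ν f) (p : X × X) :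
    op2 ν l (op1 ν k f) p = ∫ z, (k p.1 z.1 * l p.2 z.2) * f z ∂(ν.prod ν) := by
  rw [integral_prod_symm _ (op12_int hk hl hf p)]
  simp only [op1, op2]
  congr 1; ext t
  rw [← integral_const_mul]
  congr 1; ext s
  ring

theorem op_comm {k l : X → X → ℝ} (hk : BK k) (hl : BK l) {f : X × X → ℝ} (hf : Good ν f) :
    op1 ν k (op2 ν l f) = op2 ν l (op1 ν k f) := by
  ext p
  rw [op12_eq hk hl hf, op21_eq hk hl hf]

end Pool.Agent.Helper187.HBV
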