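import Mathlib
import Pool.Agent.Helper187.HBV.KSP
import Pool.Agent.Helper187.HBV.Ops

open MeasureTheory

set_option linter.unusedSectionVars false
set_option linter.unusedVariables false

namespace Pool.Agent.Helper187.HBV

variable {X : Type*} [MeasurableSpace X] {ν : Measure X} [IsProbabilityMeasure ν]

structure FS (X : Type*) [MeasurableSpace X] (ν : Measure X) where
  m : ℕ → ℕ
  D : ℕ → X → X → ℝ
  F : ℕ → X → X → ℝ
  K : ℕ → X → X → ℝ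
  D_bk : ∀ M, BK (D M)
  F_bk : ∀ r, BK (F r)
  K_bk : ∀ r, BK (K r)
  D_bdd : ∀ M x t, |D M x t| ≤ 2 * M + 1
  D_symm : ∀ M x t, D M x t = D M t x
  F_symm : ∀ r x t, F r x t = F r t x
  K_symm : ∀ r x t, K r x t = K r t x
  F_nonneg : ∀ r x t, 0 ≤ F r x t
  F_int : ∀ r x, ∫ t, F r x t ∂ν = 1
  DF : ∀ r M, m r ≤ M → ∀ x y, ∫ t, D M x t * F r t y ∂ν = F r x y
  D_le : ∀ r M, m r ≤ M → M < m (r + 1) → ∀ x t, |D M x t| ≤ K r x t
  DD_le : ∀ r M N, m r ≤ M → M < m (r + 1) → m r ≤ N → N < m (r + 1) →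
    ∀ x y, |∫ t, D M x t * D N y t ∂ν| ≤ K r x y
  K_int : ∀ r x, ∫ t, K r x t ∂ν ≤ 16 * 2 ^ r

namespace FS

variable (S : FS X ν)

/-- block of indices -/
def blk (r : ℕ) : Finset ℕ := Finset.Ico (S.m r) (S.m (r + 1))

theorem mem_blk {r M : ℕ} : M ∈ S.blk r ↔ S.m r ≤ M ∧ M < S.m (r + 1) := by
  unfold blk; rw [Finset.mem_Ico]

noncomputable def Ke (r : ℕ) (x t : X) : ENNReal := ENNReal.ofReal (S.K r x t)
noncomputable def Fe (r : ℕ) (x t : X) : ENNReal := ENNReal.ofReal (S.F r x t)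

theorem Ke_meas (r : ℕ) : Measurable (Function.uncurry (S.Ke r)) :=
  (S.K_bk r).meas.ennreal_ofReal

theorem Fe_meas (r : ℕ) : Measurable (Function.uncurry (S.Fe r)) :=
  (S.F_bk r).meas.ennreal_ofReal

theorem BK.integrable {k : X → X → ℝ} (hk : BK k) (x : X) : Integrable (fun t => k x t) ν := by
  obtain ⟨C, hC0, hC⟩ := hk.bdd
  exact integrable_of_abs_le (hk.left x) (fun t => hC x t)

theorem Fe_int (r : ℕ) (x : X) : ∫⁻ t, S.Fe r x t ∂ν = 1 := by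
  unfold Fe
  rw [← ofReal_integral_eq_lintegral_ofReal (BK.integrable (S.F_bk r) x) (Filter.Eventually.of_forall (fun t => S.F_nonneg r x t)),
    S.F_int]
  simp

theorem Fe_symm (r : ℕ) (x t : X) : S.Fe r x t = S.Fe r t x := by unfold Fe; rw [S.F_symm]

theorem Ke_symm (r : ℕ) (x t : X) : S.Ke r x t = S.Ke r t x := by unfold Ke; rw [S.K_symm]

theorem Fe_int' (r : ℕ) (t : X) : ∫⁻ x, S.Fe r x t ∂ν ≤ 1 := by
  rw [← S.Fe_int r t]
  exact le_of_eq (lintegral_congr (fun x => S.Fe_symm r x t))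

theorem one_block (r : ℕ) (h : S.m r < S.m (r + 1)) (x t : X) : 0 ≤ S.K r x t :=
  le_trans (abs_nonneg _) (S.D_le r (S.m r) le_rfl h x t)

theorem K_nonneg' (r : ℕ) {M : ℕ} (h : M ∈ S.blk r) (x t : X) : 0 ≤ S.K r x t :=
  le_trans (abs_nonneg _) (S.D_le r M (S.mem_blk.mp h).1 (S.mem_blk.mp h).2 x t)

variable (hinc : ∀ r, S.m r < S.m (r + 1))

include hinc in
theorem Ke_int' (r : ℕ) (t : X) : ∫⁻ x, S.Ke r x t ∂ν ≤ 16 * 2 ^ r := by
  have h1 : ∫⁻ x, S.Ke r x t ∂ν = ∫⁻ x, ENNReal.ofReal (S.K r t x) ∂ν := by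
    refine lintegral_congr (fun x => ?_)
    rw [S.Ke_symm]; rfl
  rw [h1, ← ofReal_integral_eq_lintegral_ofReal (BK.integrable (S.K_bk r) t)
    (Filter.Eventually.of_forall (fun x => S.one_block r (hinc r) t x))]
  calc ENNReal.ofReal (∫ x, S.K r t x ∂ν) ≤ ENNReal.ofReal (16 * 2 ^ r) := ENNReal.ofReal_le_ofReal (S.K_int r t)
    _ = 16 * 2 ^ r := by
      rw [ENNReal.ofReal_mul (by norm_num), ENNReal.ofReal_pow (by norm_num)]
      norm_num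

theorem D_enorm_le {r M : ℕ} (h : M ∈ S.blk r) (x t : X) : ‖S.D M x t‖ₑ ≤ S.Ke r x t := by
  rw [Real.enorm_eq_ofReal_abs]
  exact ENNReal.ofReal_le_ofReal (S.D_le r M (S.mem_blk.mp h).1 (S.mem_blk.mp h).2 x t)

theorem F_enorm (r : ℕ) (x t : X) : ‖S.F r x t‖ₑ = S.Fe r x t := by
  rw [Real.enorm_eq_ofReal_abs, abs_of_nonneg (S.F_nonneg r x t)]; rfl

/-- remainder in direction 1 -/
noncomputable def gr (r : ℕ) (f : X × X → ℝ) : X × X → ℝ := f - op1 ν (S.F r) f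

noncomputable def hr (r : ℕ) (f : X × X → ℝ) : X × X → ℝ := f - op2 ν (S.F r) f

theorem hr_eq (r : ℕ) (f : X × X → ℝ) : S.hr r f = sw (S.gr r (sw f)) := rfl

theorem good_gr (r : ℕ) {f : X × X → ℝ} (hf : Good ν f) : Good ν (S.gr r f) :=
  hf.sub (good_op1 (S.F_bk r) hf)

theorem good_hr (r : ℕ) {f : X × X → ℝ} (hf : Good ν f) : Good ν (S.hr r f) :=
  hf.sub (good_op2 (S.F_bk r) hf)

theorem op1_DF {r M : ℕ} (h : S.m r ≤ M) {f : X × X → ℝ} (hf : Good ν f) :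
    op1 ν (S.D M) (op1 ν (S.F r) f) = op1 ν (S.F r) f :=
  op1_comp (S.D_bk M) (S.F_bk r) (S.DF r M h) hf

theorem op2_DF {r M : ℕ} (h : S.m r ≤ M) {f : X × X → ℝ} (hf : Good ν f) :
    op2 ν (S.D M) (op2 ν (S.F r) f) = op2 ν (S.F r) f :=
  op2_comp (S.D_bk M) (S.F_bk r) (S.DF r M h) hf

/-- `S_M f - f = S_M g_r - g_r`. -/
theorem op1_D_sub {r M : ℕ} (h : S.m r ≤ M) {f : X × X → ℝ} (hf : Good ν f) :
    op1 ν (S.D M) f - f = op1 ν (S.D M) (S.gr r f) - S.gr r f := by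
  unfold gr
  rw [op1_sub (S.D_bk M) hf (good_op1 (S.F_bk r) hf), S.op1_DF h hf]
  abel

/-- `S_N^{(2)} f = f - h + S_N^{(2)} h`. -/
theorem op2_D_eq {r N : ℕ} (h : S.m r ≤ N) {f : X × X → ℝ} (hf : Good ν f) :
    op2 ν (S.D N) f = f - S.hr r f + op2 ν (S.D N) (S.hr r f) := by
  unfold hr
  rw [op2_sub (S.D_bk N) hf (good_op2 (S.F_bk r) hf), S.op2_DF h hf]
  abel

noncomputable def SMN (M N : ℕ) (f : X × X → ℝ) : X × X → ℝ := op1 ν (S.D M) (op2 ν (S.D N) f)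

theorem caseA {r' M N : ℕ} (h : S.m r' ≤ N) {f : X × X → ℝ} (hf : Good ν f) :
    S.SMN M N f - f = (op1 ν (S.D M) f - f) - op1 ν (S.D M) (S.hr r' f)
      + op1 ν (S.D M) (op2 ν (S.D N) (S.hr r' f)) := by
  unfold SMN
  have hg := S.good_hr r' hf
  rw [S.op2_D_eq h hf, op1_add (S.D_bk M) (hf.sub hg) (good_op2 (S.D_bk N) hg), op1_sub (S.D_bk M) hf hg]
  abel

theorem caseB {r r' M N : ℕ} (h : S.m r ≤ M) (h' : S.m r' ≤ N) {f : X × X → ℝ} (hf : Good ν f) :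
    S.SMN M N f - f = op2 ν (S.F r') (op1 ν (S.D M) f - f) - S.hr r' f
      + op1 ν (S.F r) (op2 ν (S.D N) (S.hr r' f)) + S.SMN M N (S.gr r (S.hr r' f)) := by
  have hg := S.good_hr r' hf
  have hu := S.good_gr r hg
  have hDf := good_op1 (S.D_bk M) hf
  have e1 : op2 ν (S.F r') (op1 ν (S.D M) f - f) = op1 ν (S.D M) (op2 ν (S.F r') f) - op2 ν (S.F r') f := by
    rw [op2_sub (S.F_bk r') hDf hf, ← op_comm (S.D_bk M) (S.F_bk r') hf]
  have e2 : op2 ν (S.D N) f = op2 ν (S.F r') f + op2 ν (S.D N) (S.hr r' f) := by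
    rw [S.op2_D_eq h' hf]; unfold hr; abel
  have e3 : S.SMN M N f = op1 ν (S.D M) (op2 ν (S.F r') f) + S.SMN M N (S.hr r' f) := by
    unfold SMN
    rw [e2, op1_add (S.D_bk M) (good_op2 (S.F_bk r') hf) (good_op2 (S.D_bk N) hg)]
  have e4 : S.SMN M N (S.hr r' f) = op1 ν (S.F r) (op2 ν (S.D N) (S.hr r' f)) + S.SMN M N (S.gr r (S.hr r' f)) := by
    have k1 : op1 ν (S.F r) (op2 ν (S.D N) (S.hr r' f)) = S.SMN M N (op1 ν (S.F r) (S.hr r' f)) := by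
      unfold SMN
      rw [← op_comm (S.F_bk r) (S.D_bk N) hg, S.op1_DF h (good_op2 (S.D_bk N) hg)]
    rw [k1]
    unfold SMN
    rw [← op1_add (S.D_bk M) (good_op2 (S.D_bk N) (good_op1 (S.F_bk r) hg)) (good_op2 (S.D_bk N) hu),
      ← op2_add (S.D_bk N) (good_op1 (S.F_bk r) hg) hu]
    congr 2
    unfold gr; abel
  rw [e3, e4, e1]
  unfold hr
  abel

/-- maximal function in direction 1 applied to the remainder. -/
noncomputable def Gm (r : ℕ) (g : X × X → ℝ) (p : X × X) : ENNReal := ⨆ M ∈ S.blk r, ‖op1 ν (S.D M) g p‖ₑ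

theorem Gm_meas (r : ℕ) {g : X × X → ℝ} (hg : Good ν g) : Measurable (S.Gm r g) := by
  unfold Gm
  refine Measurable.biSup _ (Set.to_countable _) (fun M _ => ?_)
  exact (good_op1 (S.D_bk M) hg).meas.enorm

include hinc in
theorem Gm_sq (r : ℕ) {g : X × X → ℝ} (hg : Good ν g) (y : X) :
    ∫⁻ x, S.Gm r g (x, y) ^ 2 ∂ν ≤ 16 * 2 ^ r * ∫⁻ x, ‖g (x, y)‖ₑ ^ 2 ∂ν := by
  obtain ⟨C, hC0, hC⟩ := (S.K_bk r).bdd
  have h := ksp (ν := ν) (S.blk r) S.D (fun M => (S.D_bk M).meas) C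
    (fun M hM x t => le_trans (S.D_le r M (S.mem_blk.mp hM).1 (S.mem_blk.mp hM).2 x t) (le_trans (le_abs_self _) (hC x t)))
    (S.K r) (S.K_bk r).meas (S.K_symm r) C hC
    (fun M hM N hN x y => S.DD_le r M N (S.mem_blk.mp hM).1 (S.mem_blk.mp hM).2 (S.mem_blk.mp hN).1 (S.mem_blk.mp hN).2 x y)
    (16 * 2 ^ r) (by positivity) (S.K_int r) (fun x => g (x, y)) (hg.meas.comp (measurable_id.prodMk measurable_const))
  have e : ENNReal.ofReal (16 * 2 ^ r) = 16 * 2 ^ r := by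
    rw [ENNReal.ofReal_mul (by norm_num), ENNReal.ofReal_pow (by norm_num)]
    norm_num
  rw [e] at h
  exact h

/-- integer square-root type constant -/
def lam (r : ℕ) : ℕ := 4 * 2 ^ ((r + 1) / 2)

theorem lam_sq (r : ℕ) : 16 * 2 ^ r ≤ (lam r) ^ 2 := by
  unfold lam
  rw [mul_pow, ← pow_mul]
  have : r ≤ (r + 1) / 2 * 2 := by omega
  have := Nat.pow_le_pow_right (n := 2) (by norm_num) this
  omega

structure Dir (f : X × X → ℝ) (A : ℕ → X → ENNReal) : Prop where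
  meas : ∀ r, Measurable (A r)
  l2 : ∀ r, ∀ᵐ y ∂ν, ∫⁻ x, ‖S.gr r f (x, y)‖ₑ ^ 2 ∂ν ≤ (A r y) ^ 2
  exc : ∀ r, ∀ᵐ y ∂ν, ∫⁻ x, (‖S.gr r f (x, y)‖ₑ - A r y) ∂ν ≤ (1 / 16) ^ r * A r y
  sum : ∑' r, 2 ^ r * ∫⁻ y, A r y ∂ν ≠ ⊤

variable {S}

include hinc in
theorem Dir.Gm_int {f : X × X → ℝ} {A : ℕ → X → ENNReal} (hf : Good ν f) (h : S.Dir f A) (r : ℕ) :
    ∫⁻ p, S.Gm r (S.gr r f) p ∂(ν.prod ν) ≤ lam r * ∫⁻ y, A r y ∂ν := by
  have hg := S.good_gr r hf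
  have hm := S.Gm_meas r hg
  rw [lintegral_prod_symm _ hm.aemeasurable, ← lintegral_const_mul _ (h.meas r)]
  refine lintegral_mono_ae ?_
  filter_upwards [h.l2 r] with y hy
  refine lintegral_le_of_sq_le (hm.comp (measurable_id.prodMk measurable_const)) ?_
  refine le_trans (S.Gm_sq hinc r hg y) ?_
  rw [mul_pow]
  refine mul_le_mul' ?_ hy
  exact_mod_cast lam_sq r

theorem Dir.gr_int {f : X × X → ℝ} {A : ℕ → X → ENNReal} (hf : Good ν f) (h : S.Dir f A) (r : ℕ) :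
    ∫⁻ p, ‖S.gr r f p‖ₑ ∂(ν.prod ν) ≤ ∫⁻ y, A r y ∂ν := by
  have hg := S.good_gr r hf
  have hm : Measurable (fun p => ‖S.gr r f p‖ₑ) := hg.meas.enorm
  rw [lintegral_prod_symm _ hm.aemeasurable]
  refine lintegral_mono_ae ?_
  filter_upwards [h.l2 r] with y hy
  exact lintegral_le_of_sq_le (hm.comp (measurable_id.prodMk measurable_const)) hy

/-- error in direction one. -/
noncomputable def Er (S : FS X ν) (r : ℕ) (f : X × X → ℝ) (p : X × X) : ENNReal :=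
  S.Gm r (S.gr r f) p + ‖S.gr r f p‖ₑ

theorem Er_meas (r : ℕ) {f : X × X → ℝ} (hf : Good ν f) : Measurable (S.Er r f) :=
  (S.Gm_meas r (S.good_gr r hf)).add (S.good_gr r hf).meas.enorm

theorem le_Er {r M : ℕ} (h : M ∈ S.blk r) {f : X × X → ℝ} (hf : Good ν f) (p : X × X) :
    ‖(op1 ν (S.D M) f - f) p‖ₑ ≤ S.Er r f p := by
  rw [S.op1_D_sub (S.mem_blk.mp h).1 hf]
  unfold Er Gm
  refine le_trans (enorm_sub_le) ?_
  gcongr
  exact le_iSup₂ (f := fun M (_ : M ∈ S.blk r) => ‖op1 ν (S.D M) (S.gr r f) p‖ₑ) M h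

include hinc in
theorem Dir.Er_int {f : X × X → ℝ} {A : ℕ → X → ENNReal} (hf : Good ν f) (h : S.Dir f A) (r : ℕ) :
    ∫⁻ p, S.Er r f p ∂(ν.prod ν) ≤ (lam r + 1) * ∫⁻ y, A r y ∂ν := by
  unfold Er
  rw [lintegral_add_left (S.Gm_meas r (S.good_gr r hf)), add_mul, one_mul]
  exact add_le_add (h.Gm_int hinc hf r) (h.gr_int hf r)

end FS

end Pool.Agent.Helper187.HBV
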