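import Mathlib
import Pool.Agent.Helper187.HBV.Asm

open MeasureTheory Filter Topology

set_option linter.unusedSectionVars false
set_option linter.unusedVariables false

namespace Pool.Agent.Helper187.HBV

variable {X : Type*} [MeasurableSpace X] {ν : Measure X} [IsProbabilityMeasure ν]

theorem ae_tendsto_of_tsum {Y ι : Type*} [MeasurableSpace Y] {μ : Measure Y} [Countable ι] (Q : ι → Y → ENNReal)
    (hQ : ∀ i, Measurable (Q i)) (h : ∑' i, ∫⁻ p, Q i p ∂μ ≠ ⊤) :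
    ∀ᵐ p ∂μ, Tendsto (fun i => Q i p) cofinite (𝓝 0) := by
  rw [← lintegral_tsum (fun i => (hQ i).aemeasurable)] at h
  have hm : Measurable (fun p => ∑' i, Q i p) := Measurable.tsum hQ
  filter_upwards [ae_lt_top hm h] with p hp
  exact ENNReal.tendsto_cofinite_zero_of_tsum_ne_top hp.ne

theorem tsum_ite_lt (n : ℕ) (g : ℕ → ENNReal) :
    ∑' k, (if k < n then g k else 0) = ∑ k ∈ Finset.range n, g k := by
  rw [tsum_eq_sum (s := Finset.range n)]
  · refine Finset.sum_congr rfl (fun k hk => ?_)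
    rw [if_pos (Finset.mem_range.mp hk)]
  · intro k hk
    rw [if_neg (fun h => hk (Finset.mem_range.mpr h))]

theorem sum_two_pow_le (n : ℕ) : ∑ k ∈ Finset.range n, (2 : ENNReal) ^ k ≤ 2 ^ n := by
  induction n with
  | zero => simp
  | succ n ih =>
    rw [Finset.sum_range_succ, pow_succ, mul_two]
    gcongr

namespace FS

variable {S : FS X ν} (hinc : ∀ r, S.m r < S.m (r + 1))

noncomputable def Hm (S : FS X ν) (r : ℕ) (f : X × X → ℝ) : X × X → ENNReal := sw (S.Gm r (S.gr r (sw f)))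

theorem Hm_meas (r : ℕ) {f : X × X → ℝ} (hf : Good ν f) : Measurable (S.Hm r f) :=
  Measurable.sw (S.Gm_meas r (S.good_gr r hf.sw))

theorem le_Hm {r N : ℕ} (h : N ∈ S.blk r) (f : X × X → ℝ) (p : X × X) :
    ‖op2 ν (S.D N) (S.hr r f) p‖ₑ ≤ S.Hm r f p := by
  unfold Hm Gm sw
  exact le_iSup₂ (f := fun M (_ : M ∈ S.blk r) => ‖op1 ν (S.D M) (S.gr r (sw f)) (p.2, p.1)‖ₑ) N h

include hinc in
theorem Hm_int {f : X × X → ℝ} {B : ℕ → X → ENNReal} (hf : Good ν f) (h : S.Dir (sw f) B) (r : ℕ) :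
    ∫⁻ p, S.Hm r f p ∂(ν.prod ν) ≤ lam r * ∫⁻ y, B r y ∂ν := by
  unfold Hm
  rw [lintegral_sw (S.Gm_meas r (S.good_gr r hf.sw))]
  exact h.Gm_int hinc hf.sw r

theorem hr_int {f : X × X → ℝ} {B : ℕ → X → ENNReal} (hf : Good ν f) (h : S.Dir (sw f) B) (r : ℕ) :
    ∫⁻ p, ‖S.hr r f p‖ₑ ∂(ν.prod ν) ≤ ∫⁻ y, B r y ∂ν := by
  have := h.gr_int hf.sw r
  rw [← lintegral_sw (S.good_gr r hf.sw).meas.enorm] at this
  exact this

/-! ### Case A -/

noncomputable def QA (S : FS X ν) (r r' : ℕ) (f : X × X → ℝ) : X × X → ENNReal :=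
  lop1 ν (S.Ke r) (fun q => ‖S.hr r' f q‖ₑ + S.Hm r' f q)

theorem QA_meas (r r' : ℕ) {f : X × X → ℝ} (hf : Good ν f) : Measurable (S.QA r r' f) :=
  lop1_meas (S.Ke_meas r) ((S.good_hr r' hf).meas.enorm.add (Hm_meas r' hf))

theorem caseA_bound {r r' M N : ℕ} (hM : M ∈ S.blk r) (hN : N ∈ S.blk r') {f : X × X → ℝ} (hf : Good ν f)
    (p : X × X) : ‖(S.SMN M N f - f) p‖ₑ ≤ S.Er r f p + S.QA r r' f p := by
  rw [S.caseA (S.mem_blk.mp hN).1 hf]
  have h1 := le_Er hM hf p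
  have h2 : ‖op1 ν (S.D M) (S.hr r' f) p‖ₑ ≤ lop1 ν (S.Ke r) (fun q => ‖S.hr r' f q‖ₑ) p := by
    refine le_trans (op1_enorm_le _ _ _) ?_
    exact lop1_mono (S.D_enorm_le hM) (fun q => le_rfl) p
  have h3 : ‖op1 ν (S.D M) (op2 ν (S.D N) (S.hr r' f)) p‖ₑ ≤ lop1 ν (S.Ke r) (S.Hm r' f) p := by
    refine le_trans (op1_enorm_le _ _ _) ?_
    exact lop1_mono (S.D_enorm_le hM) (fun q => le_Hm hN f q) p
  have h4 : S.QA r r' f p = lop1 ν (S.Ke r) (fun q => ‖S.hr r' f q‖ₑ) p + lop1 ν (S.Ke r) (S.Hm r' f) p := by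
    unfold QA lop1
    rw [← lintegral_add_left]
    · refine lintegral_congr (fun t => ?_)
      rw [mul_add]
    · have m1 : Measurable (fun t => S.Ke r p.1 t) := (S.Ke_meas r).comp (measurable_const.prodMk measurable_id)
      have m2 : Measurable (fun t => ‖S.hr r' f (t, p.2)‖ₑ) :=
        (S.good_hr r' hf).meas.enorm.comp (measurable_id.prodMk measurable_const)
      exact m1.mul m2
  rw [h4, ← add_assoc]
  simp only [Pi.add_apply, Pi.sub_apply]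
  refine le_trans (enorm_add_le _ _) ?_
  refine add_le_add ?_ h3
  refine le_trans enorm_sub_le ?_
  exact add_le_add h1 h2

include hinc in
theorem QA_int {f : X × X → ℝ} {B : ℕ → X → ENNReal} (hf : Good ν f) (h : S.Dir (sw f) B) (r r' : ℕ) :
    ∫⁻ p, S.QA r r' f p ∂(ν.prod ν) ≤ 16 * 2 ^ r * ((1 + lam r') * ∫⁻ y, B r' y ∂ν) := by
  unfold QA
  refine le_trans (lop1_lint (S.Ke_meas r) ((S.good_hr r' hf).meas.enorm.add (Hm_meas r' hf)) (S.Ke_int' hinc r)) ?_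
  gcongr
  have m1 : Measurable (fun p => ‖S.hr r' f p‖ₑ) := (S.good_hr r' hf).meas.enorm
  simp only [Pi.add_apply]
  rw [lintegral_add_left m1, add_mul, one_mul]
  exact add_le_add (hr_int hf h r') (Hm_int hinc hf h r')

theorem one_add_lam (r : ℕ) : 1 + lam r ≤ 5 * 2 ^ ((r + 1) / 2) := by
  unfold lam
  have : 1 ≤ 2 ^ ((r + 1) / 2) := Nat.one_le_two_pow
  omega

theorem one_add_lam_e (r : ℕ) : (1 : ENNReal) + lam r ≤ 5 * 2 ^ ((r + 1) / 2) := by
  exact_mod_cast one_add_lam r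

include hinc in
theorem caseA_tendsto {f : X × X → ℝ} {B : ℕ → X → ENNReal} (hf : Good ν f) (h : S.Dir (sw f) B) :
    ∀ᵐ p ∂(ν.prod ν), Tendsto (fun rr : ℕ × ℕ => if 2 * rr.1 ≤ rr.2 then S.QA rr.1 rr.2 f p else 0) cofinite (𝓝 0) := by
  refine ae_tendsto_of_tsum (fun (rr : ℕ × ℕ) p => if 2 * rr.1 ≤ rr.2 then S.QA rr.1 rr.2 f p else 0) ?_ ?_
  · intro rr
    by_cases hc : 2 * rr.1 ≤ rr.2
    · simp only [hc, if_true]; exact QA_meas _ _ hf
    · simp only [hc, if_false]; exact measurable_const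
  · have h1 : ∀ rr : ℕ × ℕ, ∫⁻ p, (if 2 * rr.1 ≤ rr.2 then S.QA rr.1 rr.2 f p else 0) ∂(ν.prod ν)
        ≤ (if rr.1 < rr.2 / 2 + 1 then 2 ^ rr.1 * (16 * (1 + lam rr.2) * ∫⁻ y, B rr.2 y ∂ν) else 0) := by
      intro rr
      by_cases hc : 2 * rr.1 ≤ rr.2
      · have hc' : rr.1 < rr.2 / 2 + 1 := by omega
        simp only [hc, hc', if_true]
        refine le_trans (QA_int hinc hf h _ _) (le_of_eq ?_)
        ring
      · simp [hc]
    refine ne_top_of_le_ne_top ?_ (ENNReal.tsum_le_tsum h1)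
    rw [ENNReal.tsum_prod (f := fun a b => if a < b / 2 + 1 then 2 ^ a * (16 * (1 + lam b) * ∫⁻ y, B b y ∂ν) else 0),
      ENNReal.tsum_comm]
    have h2 : ∀ b : ℕ, ∑' a : ℕ, (if a < b / 2 + 1 then 2 ^ a * (16 * (1 + (lam b : ENNReal)) * ∫⁻ y, B b y ∂ν) else 0)
        ≤ 160 * (2 ^ b * ∫⁻ y, B b y ∂ν) := by
      intro b
      rw [tsum_ite_lt, ← Finset.sum_mul]
      calc (∑ i ∈ Finset.range (b / 2 + 1), (2 : ENNReal) ^ i) * (16 * (1 + (lam b : ENNReal)) * ∫⁻ y, B b y ∂ν)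
          ≤ 2 ^ (b / 2 + 1) * (16 * (5 * 2 ^ ((b + 1) / 2)) * ∫⁻ y, B b y ∂ν) := by
            gcongr
            · exact sum_two_pow_le _
            · exact one_add_lam_e b
        _ = 160 * ((2 ^ (b / 2) * 2 ^ ((b + 1) / 2)) * ∫⁻ y, B b y ∂ν) := by ring
        _ = 160 * (2 ^ b * ∫⁻ y, B b y ∂ν) := by
            rw [← pow_add]
            congr 4
            omega
    refine ne_top_of_le_ne_top ?_ (ENNReal.tsum_le_tsum h2)
    rw [ENNReal.tsum_mul_left]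
    exact ENNReal.mul_ne_top (by norm_num) h.sum

/-! ### Case B -/

noncomputable def QB (S : FS X ν) (r r' : ℕ) (f : X × X → ℝ) (p : X × X) : ENNReal :=
  lop2 ν (S.Fe r') (S.Er r f) p + ‖S.hr r' f p‖ₑ + lop1 ν (S.Fe r) (S.Hm r' f) p

theorem QB_meas (r r' : ℕ) {f : X × X → ℝ} (hf : Good ν f) : Measurable (S.QB r r' f) :=
  ((lop2_meas (S.Fe_meas r') (Er_meas r hf)).add (S.good_hr r' hf).meas.enorm).add
    (lop1_meas (S.Fe_meas r) (Hm_meas r' hf))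

theorem caseB_bound {r r' M N : ℕ} (hM : M ∈ S.blk r) (hN : N ∈ S.blk r') {f : X × X → ℝ} (hf : Good ν f)
    (p : X × X) : ‖(S.SMN M N f - f) p‖ₑ ≤ S.QB r r' f p + ‖S.SMN M N (S.gr r (S.hr r' f)) p‖ₑ := by
  rw [S.caseB (S.mem_blk.mp hM).1 (S.mem_blk.mp hN).1 hf]
  have h1 : ‖op2 ν (S.F r') (op1 ν (S.D M) f - f) p‖ₑ ≤ lop2 ν (S.Fe r') (S.Er r f) p := by
    refine le_trans (op2_enorm_le _ _ _) ?_
    exact lop2_mono (fun x t => le_of_eq (S.F_enorm r' x t)) (fun q => le_Er hM hf q) p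
  have h3 : ‖op1 ν (S.F r) (op2 ν (S.D N) (S.hr r' f)) p‖ₑ ≤ lop1 ν (S.Fe r) (S.Hm r' f) p := by
    refine le_trans (op1_enorm_le _ _ _) ?_
    exact lop1_mono (fun x t => le_of_eq (S.F_enorm r x t)) (fun q => le_Hm hN f q) p
  unfold QB
  simp only [Pi.add_apply, Pi.sub_apply]
  refine le_trans (enorm_add_le _ _) (add_le_add ?_ le_rfl)
  refine le_trans (enorm_add_le _ _) (add_le_add ?_ h3)
  exact le_trans enorm_sub_le (add_le_add h1 le_rfl)

include hinc in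
theorem QB_int {f : X × X → ℝ} {A B : ℕ → X → ENNReal} (hf : Good ν f) (hA : S.Dir f A) (h : S.Dir (sw f) B) (r r' : ℕ) :
    ∫⁻ p, S.QB r r' f p ∂(ν.prod ν) ≤ (1 + lam r) * (∫⁻ y, A r y ∂ν) + (1 + lam r') * ∫⁻ y, B r' y ∂ν := by
  unfold QB
  have m1 : Measurable (fun p => lop2 ν (S.Fe r') (S.Er r f) p) := lop2_meas (S.Fe_meas r') (Er_meas r hf)
  have m2 : Measurable (fun p => lop2 ν (S.Fe r') (S.Er r f) p + ‖S.hr r' f p‖ₑ) := m1.add (S.good_hr r' hf).meas.enorm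
  rw [lintegral_add_left m2, lintegral_add_left m1, add_assoc]
  refine add_le_add ?_ ?_
  · refine le_trans (lop2_lint (S.Fe_meas r') (Er_meas r hf) (S.Fe_int' r')) ?_
    rw [one_mul, add_comm (1 : ENNReal)]
    exact hA.Er_int hinc hf r
  · rw [add_mul, one_mul]
    refine add_le_add (hr_int hf h r') ?_
    refine le_trans (lop1_lint (S.Fe_meas r) (Hm_meas r' hf) (S.Fe_int' r)) ?_
    rw [one_mul]
    exact Hm_int hinc hf h r'

theorem two_mul_le_pow (r : ℕ) : 2 * r ≤ 4 * 2 ^ (r / 2) := by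
  have h : r / 2 < 2 ^ (r / 2) := Nat.lt_two_pow_self
  omega

theorem count_lam (r : ℕ) : (2 * r) * (1 + lam r) ≤ 20 * 2 ^ r := by
  calc (2 * r) * (1 + lam r) ≤ (4 * 2 ^ (r / 2)) * (5 * 2 ^ ((r + 1) / 2)) :=
        Nat.mul_le_mul (two_mul_le_pow r) (one_add_lam r)
    _ = 20 * 2 ^ (r / 2 + (r + 1) / 2) := by rw [pow_add]; ring
    _ = 20 * 2 ^ r := by congr 2; omega

theorem tsum_dir {a : ℕ → ENNReal} (ha : ∑' r, 2 ^ r * a r ≠ ⊤) :
    ∑' r : ℕ, ∑' r' : ℕ, (if r' < 2 * r then (1 + (lam r : ENNReal)) * a r else 0) ≠ ⊤ := by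
  have h2 : ∀ r : ℕ, ∑' r' : ℕ, (if r' < 2 * r then (1 + (lam r : ENNReal)) * a r else 0) ≤ 20 * (2 ^ r * a r) := by
    intro r
    rw [tsum_ite_lt, Finset.sum_const, Finset.card_range, nsmul_eq_mul, ← mul_assoc, ← mul_assoc]
    refine mul_le_mul' ?_ le_rfl
    exact_mod_cast count_lam r
  refine ne_top_of_le_ne_top ?_ (ENNReal.tsum_le_tsum h2)
  rw [ENNReal.tsum_mul_left]
  exact ENNReal.mul_ne_top (by norm_num) ha

include hinc in
theorem caseB_tendsto {f : X × X → ℝ} {A B : ℕ → X → ENNReal} (hf : Good ν f) (hA : S.Dir f A) (h : S.Dir (sw f) B) :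
    ∀ᵐ p ∂(ν.prod ν), Tendsto (fun rr : ℕ × ℕ => if rr.2 < 2 * rr.1 ∧ rr.1 < 2 * rr.2 then S.QB rr.1 rr.2 f p else 0) cofinite (𝓝 0) := by
  refine ae_tendsto_of_tsum (fun (rr : ℕ × ℕ) p => if rr.2 < 2 * rr.1 ∧ rr.1 < 2 * rr.2 then S.QB rr.1 rr.2 f p else 0) ?_ ?_
  · intro rr
    by_cases hc : rr.2 < 2 * rr.1 ∧ rr.1 < 2 * rr.2
    · simp only [hc]; exact QB_meas _ _ hf
    · simp only [hc, if_false]; exact measurable_const
  · have h1 : ∀ rr : ℕ × ℕ, ∫⁻ p, (if rr.2 < 2 * rr.1 ∧ rr.1 < 2 * rr.2 then S.QB rr.1 rr.2 f p else 0) ∂(ν.prod ν)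
        ≤ (if rr.2 < 2 * rr.1 then (1 + (lam rr.1 : ENNReal)) * ∫⁻ y, A rr.1 y ∂ν else 0)
          + (if rr.1 < 2 * rr.2 then (1 + (lam rr.2 : ENNReal)) * ∫⁻ y, B rr.2 y ∂ν else 0) := by
      intro rr
      by_cases hc : rr.2 < 2 * rr.1 ∧ rr.1 < 2 * rr.2
      · simp only [hc, if_true, and_self]
        exact QB_int hinc hf hA h _ _
      · simp [hc]
    refine ne_top_of_le_ne_top ?_ (ENNReal.tsum_le_tsum h1)
    rw [ENNReal.tsum_add]
    refine ENNReal.add_ne_top.mpr ⟨?_, ?_⟩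
    · rw [ENNReal.tsum_prod (f := fun a b => if b < 2 * a then (1 + (lam a : ENNReal)) * ∫⁻ y, A a y ∂ν else 0)]
      exact tsum_dir hA.sum
    · rw [ENNReal.tsum_prod (f := fun a b => if a < 2 * b then (1 + (lam b : ENNReal)) * ∫⁻ y, B b y ∂ν else 0),
        ENNReal.tsum_comm]
      exact tsum_dir h.sum

/-! ### The doubly oscillating part -/

noncomputable def hat (S : FS X ν) (r : ℕ) (a : X → ENNReal) (y : X) : ENNReal := a y + ∫⁻ s, S.Fe r y s * a s ∂ν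

theorem hat_meas (r : ℕ) {a : X → ENNReal} (ha : Measurable a) : Measurable (S.hat r a) := by
  unfold hat
  refine ha.add ?_
  exact Measurable.lintegral_prod_right' (f := fun z : X × X => S.Fe r z.1 z.2 * a z.2)
    ((S.Fe_meas r).mul (ha.comp measurable_snd))

theorem hat_int (r : ℕ) {a : X → ENNReal} (ha : Measurable a) : ∫⁻ y, S.hat r a y ∂ν ≤ 2 * ∫⁻ y, a y ∂ν := by
  unfold hat
  rw [lintegral_add_left ha, two_mul]
  refine add_le_add le_rfl ?_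
  rw [lintegral_lintegral_swap ((S.Fe_meas r).mul (ha.comp measurable_snd)).aemeasurable]
  refine lintegral_mono (fun s => ?_)
  simp only
  have m : Measurable (fun x => S.Fe r x s) := (S.Fe_meas r).comp (measurable_id.prodMk measurable_const)
  rw [lintegral_mul_const _ m]
  calc (∫⁻ x, S.Fe r x s ∂ν) * a s ≤ 1 * a s := by gcongr; exact S.Fe_int' r s
    _ = a s := one_mul _

theorem gr_le (r : ℕ) {g : X × X → ℝ} (hg : Good ν g) {a : X → ENNReal} (ha : Measurable a)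
    {e : X × X → ENNReal} (he : Measurable e) (h : ∀ p, ‖g p‖ₑ ≤ a p.1 + e p) (p : X × X) :
    ‖S.gr r g p‖ₑ ≤ S.hat r a p.1 + (e p + lop1 ν (S.Fe r) e p) := by
  unfold gr hat
  simp only [Pi.sub_apply]
  have h1 : ‖op1 ν (S.F r) g p‖ₑ ≤ (∫⁻ s, S.Fe r p.1 s * a s ∂ν) + lop1 ν (S.Fe r) e p := by
    refine le_trans (op1_enorm_le _ _ _) ?_
    unfold lop1
    have m1 : Measurable (fun s => S.Fe r p.1 s) := (S.Fe_meas r).comp (measurable_const.prodMk measurable_id)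
    have m2 : Measurable (fun s => S.Fe r p.1 s * a s) := m1.mul ha
    rw [← lintegral_add_left m2]
    refine lintegral_mono (fun t => ?_)
    simp only
    rw [S.F_enorm, ← mul_add]
    gcongr
    exact h (t, p.2)
  refine le_trans enorm_sub_le (le_trans (add_le_add (h p) h1) (le_of_eq ?_))
  ring

theorem hr_le (r : ℕ) {g : X × X → ℝ} (hg : Good ν g) {a : X → ENNReal} (ha : Measurable a)
    {e : X × X → ENNReal} (he : Measurable e) (h : ∀ p, ‖g p‖ₑ ≤ a p.2 + e p) (p : X × X) :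
    ‖S.hr r g p‖ₑ ≤ S.hat r a p.2 + (e p + lop2 ν (S.Fe r) e p) := by
  have := gr_le (S := S) r hg.sw ha (Measurable.sw he) (fun p => h (p.2, p.1)) (p.2, p.1)
  exact this

theorem gr_hr (r r' : ℕ) {f : X × X → ℝ} (hf : Good ν f) : S.gr r (S.hr r' f) = S.hr r' (S.gr r f) := by
  unfold gr hr
  rw [op1_sub (S.F_bk r) hf (good_op2 (S.F_bk r') hf), op2_sub (S.F_bk r') hf (good_op1 (S.F_bk r) hf),
    op_comm (S.F_bk r) (S.F_bk r') hf]
  abel

/-- exceptional part -/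
noncomputable def ex (S : FS X ν) (r : ℕ) (A : ℕ → X → ENNReal) (f : X × X → ℝ) (p : X × X) : ENNReal :=
  ‖S.gr r f p‖ₑ - A r p.2

theorem ex_meas (r : ℕ) {A : ℕ → X → ENNReal} (hA : Measurable (A r)) {f : X × X → ℝ} (hf : Good ν f) :
    Measurable (S.ex r A f) :=
  (S.good_gr r hf).meas.enorm.sub (hA.comp measurable_snd)

theorem ex_int {A : ℕ → X → ENNReal} {f : X × X → ℝ} (hf : Good ν f) (h : S.Dir f A) (r : ℕ) :
    ∫⁻ p, S.ex r A f p ∂(ν.prod ν) ≤ (1 / 16) ^ r * ∫⁻ y, A r y ∂ν := by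
  rw [lintegral_prod_symm _ (ex_meas r (h.meas r) hf).aemeasurable, ← lintegral_const_mul _ (h.meas r)]
  refine lintegral_mono_ae ?_
  filter_upwards [h.exc r] with y hy
  exact hy

noncomputable def tot (S : FS X ν) (r r' : ℕ) (A B : ℕ → X → ENNReal) (f : X × X → ℝ) (p : X × X) : ENNReal :=
  (S.ex r A f p + lop2 ν (S.Fe r') (S.ex r A f) p)
    + (sw (S.ex r' B (sw f)) p + lop1 ν (S.Fe r) (sw (S.ex r' B (sw f))) p)

theorem tot_meas (r r' : ℕ) {A B : ℕ → X → ENNReal} (hA : Measurable (A r)) (hB : Measurable (B r'))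
    {f : X × X → ℝ} (hf : Good ν f) : Measurable (S.tot r r' A B f) := by
  have h1 := ex_meas (S := S) r hA hf
  have h2 := Measurable.sw (ex_meas (S := S) r' hB hf.sw)
  exact (h1.add (lop2_meas (S.Fe_meas r') h1)).add (h2.add (lop1_meas (S.Fe_meas r) h2))

theorem tot_int (r r' : ℕ) {A B : ℕ → X → ENNReal} {f : X × X → ℝ} (hf : Good ν f) (hA : S.Dir f A)
    (hB : S.Dir (sw f) B) :
    ∫⁻ p, S.tot r r' A B f p ∂(ν.prod ν)
      ≤ 2 * ((1 / 16) ^ r * (∫⁻ y, A r y ∂ν) + (1 / 16) ^ r' * ∫⁻ y, B r' y ∂ν) := by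
  have h1 := ex_meas (S := S) r (hA.meas r) hf
  have h2 := Measurable.sw (ex_meas (S := S) r' (hB.meas r') hf.sw)
  unfold tot
  have m1 : Measurable (fun p => S.ex r A f p + lop2 ν (S.Fe r') (S.ex r A f) p) := h1.add (lop2_meas (S.Fe_meas r') h1)
  rw [lintegral_add_left m1, lintegral_add_left h1, lintegral_add_left h2, mul_add]
  refine add_le_add ?_ ?_
  · rw [two_mul]
    refine add_le_add (ex_int hf hA r) ?_
    refine le_trans (lop2_lint (S.Fe_meas r') h1 (S.Fe_int' r')) ?_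
    rw [one_mul]; exact ex_int hf hA r
  · have h3 : ∫⁻ p, sw (S.ex r' B (sw f)) p ∂(ν.prod ν) ≤ (1 / 16) ^ r' * ∫⁻ y, B r' y ∂ν := by
      rw [lintegral_sw (ex_meas (S := S) r' (hB.meas r') hf.sw)]
      exact ex_int hf.sw hB r'
    rw [two_mul]
    refine add_le_add h3 ?_
    refine le_trans (lop1_lint (S.Fe_meas r) h2 (S.Fe_int' r)) ?_
    rw [one_mul]; exact h3

noncomputable def cc (S : FS X ν) (r r' : ℕ) (A B : ℕ → X → ENNReal) (p : X × X) : ENNReal :=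
  min (S.hat r' (A r) p.2) (S.hat r (B r') p.1)

theorem u_le (r r' : ℕ) {A B : ℕ → X → ENNReal} (hA : Measurable (A r)) (hB : Measurable (B r'))
    {f : X × X → ℝ} (hf : Good ν f) (p : X × X) :
    ‖S.gr r (S.hr r' f) p‖ₑ ≤ S.cc r r' A B p + S.tot r r' A B f p := by
  have h1 : ‖S.gr r (S.hr r' f) p‖ₑ ≤ S.hat r' (A r) p.2 + (S.ex r A f p + lop2 ν (S.Fe r') (S.ex r A f) p) := by
    rw [gr_hr r r' hf]
    refine hr_le r' (S.good_gr r hf) hA (ex_meas r hA hf) (fun q => ?_) p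
    unfold ex
    exact le_add_tsub
  have h2 : ‖S.gr r (S.hr r' f) p‖ₑ ≤ S.hat r (B r') p.1
      + (sw (S.ex r' B (sw f)) p + lop1 ν (S.Fe r) (sw (S.ex r' B (sw f))) p) := by
    refine gr_le r (S.good_hr r' hf) hB (Measurable.sw (ex_meas r' hB hf.sw)) (fun q => ?_) p
    unfold ex sw
    exact le_add_tsub
  unfold cc tot
  rcases le_total (S.hat r' (A r) p.2) (S.hat r (B r') p.1) with h | h
  · rw [min_eq_left h]
    exact le_trans h1 (add_le_add le_rfl le_self_add)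
  · rw [min_eq_right h]
    exact le_trans h2 (add_le_add le_rfl le_add_self)

end FS

end Pool.Agent.Helper187.HBV
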