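import Mathlib
import Pool.Agent.Helper187.HBV.Asm2

open MeasureTheory Filter Topology

set_option linter.unusedSectionVars false
set_option linter.unusedVariables false

namespace Pool.Agent.Helper187.HBV

variable {X : Type*} [MeasurableSpace X] {ν : Measure X} [IsProbabilityMeasure ν]

namespace FS

variable {S : FS X ν} (hinc : ∀ r, S.m r < S.m (r + 1))

/-- two dimensional maximal function over a pair of blocks -/
noncomputable def UU (S : FS X ν) (r r' : ℕ) (w : X × X → ℝ) (p : X × X) : ENNReal :=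
  ⨆ MN ∈ S.blk r ×ˢ S.blk r', ‖S.SMN MN.1 MN.2 w p‖ₑ

theorem UU_meas (r r' : ℕ) {w : X × X → ℝ} (hw : Good ν w) : Measurable (S.UU r r' w) := by
  unfold UU
  refine Measurable.biSup _ (Set.to_countable _) (fun MN _ => ?_)
  exact (good_op1 (S.D_bk _) (good_op2 (S.D_bk _) hw)).meas.enorm

include hinc in
theorem UU_sq (r r' : ℕ) {w : X × X → ℝ} (hw : Good ν w) :
    ∫⁻ p, S.UU r r' w p ^ 2 ∂(ν.prod ν) ≤ 256 * (2 ^ r * 2 ^ r') * ∫⁻ p, ‖w p‖ₑ ^ 2 ∂(ν.prod ν) := by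
  obtain ⟨C, hC0, hC⟩ := (S.K_bk r).bdd
  obtain ⟨C', hC0', hC'⟩ := (S.K_bk r').bdd
  have hK0 : ∀ r x t, 0 ≤ S.K r x t := fun r => S.one_block r (hinc r)
  have h := ksp (ν := ν.prod ν) (S.blk r ×ˢ S.blk r') (fun (i : ℕ × ℕ) p q => S.D i.1 p.1 q.1 * S.D i.2 p.2 q.2)
    (fun i => ?_) (C * C') (fun i hi p q => ?_)
    (fun p q => S.K r p.1 q.1 * S.K r' p.2 q.2) ?_ (fun p q => by rw [S.K_symm r, S.K_symm r'])
    (C * C') (fun p q => ?_) (fun i hi j hj p q => ?_)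
    (256 * (2 ^ r * 2 ^ r')) (by positivity) (fun p => ?_) w hw.meas
  · have e : ENNReal.ofReal (256 * (2 ^ r * 2 ^ r')) = 256 * (2 ^ r * 2 ^ r') := by
      rw [ENNReal.ofReal_mul (by norm_num), ENNReal.ofReal_mul (by positivity), ENNReal.ofReal_pow (by norm_num),
        ENNReal.ofReal_pow (by norm_num)]
      norm_num
    rw [e] at h
    refine le_trans (le_of_eq ?_) h
    refine lintegral_congr (fun p => ?_)
    unfold UU SMN
    congr 1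
    refine iSup_congr (fun MN => iSup_congr (fun _ => ?_))
    rw [op12_eq (S.D_bk _) (S.D_bk _) hw]
  · exact ((S.D_bk i.1).meas.comp ((measurable_fst.comp measurable_fst).prodMk (measurable_fst.comp measurable_snd))).mul
      ((S.D_bk i.2).meas.comp ((measurable_snd.comp measurable_fst).prodMk (measurable_snd.comp measurable_snd)))
  · rw [Finset.mem_product] at hi
    rw [abs_mul]
    refine mul_le_mul ?_ ?_ (abs_nonneg _) hC0
    · exact le_trans (S.D_le r i.1 (S.mem_blk.mp hi.1).1 (S.mem_blk.mp hi.1).2 _ _) (le_trans (le_abs_self _) (hC _ _))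
    · exact le_trans (S.D_le r' i.2 (S.mem_blk.mp hi.2).1 (S.mem_blk.mp hi.2).2 _ _) (le_trans (le_abs_self _) (hC' _ _))
  · exact ((S.K_bk r).meas.comp ((measurable_fst.comp measurable_fst).prodMk (measurable_fst.comp measurable_snd))).mul
      ((S.K_bk r').meas.comp ((measurable_snd.comp measurable_fst).prodMk (measurable_snd.comp measurable_snd)))
  · rw [abs_mul]
    exact mul_le_mul (hC _ _) (hC' _ _) (abs_nonneg _) hC0
  · rw [Finset.mem_product] at hi hj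
    have e : ∫ t, S.D i.1 p.1 t.1 * S.D i.2 p.2 t.2 * (S.D j.1 q.1 t.1 * S.D j.2 q.2 t.2) ∂(ν.prod ν)
        = (∫ t, S.D i.1 p.1 t * S.D j.1 q.1 t ∂ν) * (∫ t, S.D i.2 p.2 t * S.D j.2 q.2 t ∂ν) := by
      rw [← integral_prod_mul]
      refine integral_congr_ae (Eventually.of_forall (fun t => ?_))
      simp only
      ring
    rw [e, abs_mul]
    refine mul_le_mul ?_ ?_ (abs_nonneg _) (hK0 _ _ _)
    · exact S.DD_le r i.1 j.1 (S.mem_blk.mp hi.1).1 (S.mem_blk.mp hi.1).2 (S.mem_blk.mp hj.1).1 (S.mem_blk.mp hj.1).2 _ _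
    · exact S.DD_le r' i.2 j.2 (S.mem_blk.mp hi.2).1 (S.mem_blk.mp hi.2).2 (S.mem_blk.mp hj.2).1 (S.mem_blk.mp hj.2).2 _ _
  · rw [integral_prod_mul (fun t => S.K r p.1 t) (fun t => S.K r' p.2 t)]
    calc (∫ t, S.K r p.1 t ∂ν) * (∫ t, S.K r' p.2 t ∂ν) ≤ (16 * 2 ^ r) * (16 * 2 ^ r') :=
          mul_le_mul (S.K_int r _) (S.K_int r' _) (integral_nonneg (fun _ => hK0 _ _ _)) (by positivity)
      _ = 256 * (2 ^ r * 2 ^ r') := by ring

theorem cc_meas (r r' : ℕ) {A B : ℕ → X → ENNReal} (hA : Measurable (A r)) (hB : Measurable (B r')) :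
    Measurable (S.cc r r' A B) :=
  ((hat_meas r' hA).comp measurable_snd).min ((hat_meas r hB).comp measurable_fst)

/-- the set where `u` is under control -/
def goodset (S : FS X ν) (r r' : ℕ) (A B : ℕ → X → ENNReal) (f : X × X → ℝ) : Set (X × X) :=
  {p | ‖S.gr r (S.hr r' f) p‖ₑ ≤ 2 * S.cc r r' A B p}

theorem goodset_meas (r r' : ℕ) {A B : ℕ → X → ENNReal} (hA : Measurable (A r)) (hB : Measurable (B r'))
    {f : X × X → ℝ} (hf : Good ν f) : MeasurableSet (S.goodset r r' A B f) :=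
  measurableSet_le (S.good_gr r (S.good_hr r' hf)).meas.enorm ((cc_meas r r' hA hB).const_mul 2)

noncomputable def u1 (S : FS X ν) (r r' : ℕ) (A B : ℕ → X → ENNReal) (f : X × X → ℝ) : X × X → ℝ :=
  (S.goodset r r' A B f).indicator (S.gr r (S.hr r' f))

noncomputable def u2 (S : FS X ν) (r r' : ℕ) (A B : ℕ → X → ENNReal) (f : X × X → ℝ) : X × X → ℝ :=
  (S.goodset r r' A B f)ᶜ.indicator (S.gr r (S.hr r' f))

theorem u1_add_u2 (r r' : ℕ) (A B : ℕ → X → ENNReal) (f : X × X → ℝ) :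
    S.gr r (S.hr r' f) = S.u1 r r' A B f + S.u2 r r' A B f := by
  unfold u1 u2
  exact (Set.indicator_self_add_compl _ _).symm

theorem good_u1 (r r' : ℕ) {A B : ℕ → X → ENNReal} (hA : Measurable (A r)) (hB : Measurable (B r'))
    {f : X × X → ℝ} (hf : Good ν f) : Good ν (S.u1 r r' A B f) :=
  (S.good_gr r (S.good_hr r' hf)).indicator (goodset_meas r r' hA hB hf)

theorem good_u2 (r r' : ℕ) {A B : ℕ → X → ENNReal} (hA : Measurable (A r)) (hB : Measurable (B r'))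
    {f : X × X → ℝ} (hf : Good ν f) : Good ν (S.u2 r r' A B f) :=
  (S.good_gr r (S.good_hr r' hf)).indicator (goodset_meas r r' hA hB hf).compl

theorem u1_sq (r r' : ℕ) {A B : ℕ → X → ENNReal} (hA : Measurable (A r)) (hB : Measurable (B r'))
    {f : X × X → ℝ} (hf : Good ν f) :
    ∫⁻ p, ‖S.u1 r r' A B f p‖ₑ ^ 2 ∂(ν.prod ν) ≤ 16 * ((∫⁻ y, A r y ∂ν) * ∫⁻ y, B r' y ∂ν) := by
  have h1 : ∀ p, ‖S.u1 r r' A B f p‖ₑ ^ 2 ≤ 4 * (S.hat r (B r') p.1 * S.hat r' (A r) p.2) := by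
    intro p
    have h2 : ‖S.u1 r r' A B f p‖ₑ ≤ 2 * S.cc r r' A B p := by
      unfold u1
      by_cases hp : p ∈ S.goodset r r' A B f
      · rw [Set.indicator_of_mem hp]; exact hp
      · rw [Set.indicator_of_notMem hp]; simp
    calc ‖S.u1 r r' A B f p‖ₑ ^ 2 ≤ (2 * S.cc r r' A B p) ^ 2 := by gcongr
      _ = 4 * (S.cc r r' A B p * S.cc r r' A B p) := by ring
      _ ≤ 4 * (S.hat r (B r') p.1 * S.hat r' (A r) p.2) := by
        gcongr
        · exact min_le_right _ _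
        · exact min_le_left _ _
  have m1 : Measurable (fun p : X × X => S.hat r (B r') p.1 * S.hat r' (A r) p.2) :=
    ((hat_meas r hB).comp measurable_fst).mul ((hat_meas r' hA).comp measurable_snd)
  refine le_trans (lintegral_mono h1) ?_
  rw [lintegral_const_mul _ m1, lintegral_prod_mul (hat_meas r hB).aemeasurable (hat_meas r' hA).aemeasurable]
  calc 4 * ((∫⁻ x, S.hat r (B r') x ∂ν) * ∫⁻ y, S.hat r' (A r) y ∂ν)
      ≤ 4 * ((2 * ∫⁻ x, B r' x ∂ν) * (2 * ∫⁻ y, A r y ∂ν)) := by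
        gcongr
        · exact hat_int r hB
        · exact hat_int r' hA
    _ = 16 * ((∫⁻ y, A r y ∂ν) * ∫⁻ y, B r' y ∂ν) := by ring

theorem u2_le (r r' : ℕ) {A B : ℕ → X → ENNReal} (hA : Measurable (A r)) (hB : Measurable (B r'))
    {f : X × X → ℝ} (hf : Good ν f) (p : X × X) : ‖S.u2 r r' A B f p‖ₑ ≤ 2 * S.tot r r' A B f p := by
  unfold u2
  by_cases hp : p ∈ S.goodset r r' A B f
  · rw [Set.indicator_of_notMem (by simpa using hp)]; simp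
  · rw [Set.indicator_of_mem (by simpa using hp)]
    have h1 := u_le (S := S) r r' hA hB hf p
    have h2 : 2 * S.cc r r' A B p ≤ ‖S.gr r (S.hr r' f) p‖ₑ := by
      unfold goodset at hp
      simp only [Set.mem_ofPred_eq, not_le] at hp
      exact hp.le
    have h3 : ‖S.gr r (S.hr r' f) p‖ₑ + ‖S.gr r (S.hr r' f) p‖ₑ
        ≤ ‖S.gr r (S.hr r' f) p‖ₑ + 2 * S.tot r r' A B f p := by
      calc ‖S.gr r (S.hr r' f) p‖ₑ + ‖S.gr r (S.hr r' f) p‖ₑ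
          ≤ (S.cc r r' A B p + S.tot r r' A B f p) + (S.cc r r' A B p + S.tot r r' A B f p) := add_le_add h1 h1
        _ = 2 * S.cc r r' A B p + 2 * S.tot r r' A B f p := by ring
        _ ≤ _ := add_le_add h2 le_rfl
    exact ENNReal.le_of_add_le_add_left enorm_ne_top h3

noncomputable def VV (S : FS X ν) (r r' : ℕ) (w : X × X → ℝ) : X × X → ENNReal :=
  lop1 ν (S.Ke r) (lop2 ν (S.Ke r') (fun q => ‖w q‖ₑ))

theorem VV_meas (r r' : ℕ) {w : X × X → ℝ} (hw : Good ν w) : Measurable (S.VV r r' w) :=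
  lop1_meas (S.Ke_meas r) (lop2_meas (S.Ke_meas r') hw.meas.enorm)

include hinc in
theorem VV_int (r r' : ℕ) {w : X × X → ℝ} (hw : Good ν w) :
    ∫⁻ p, S.VV r r' w p ∂(ν.prod ν) ≤ 256 * (2 ^ r * 2 ^ r') * ∫⁻ p, ‖w p‖ₑ ∂(ν.prod ν) := by
  unfold VV
  refine le_trans (lop1_lint (S.Ke_meas r) (lop2_meas (S.Ke_meas r') hw.meas.enorm) (S.Ke_int' hinc r)) ?_
  calc 16 * 2 ^ r * ∫⁻ p, lop2 ν (S.Ke r') (fun q => ‖w q‖ₑ) p ∂(ν.prod ν)
      ≤ 16 * 2 ^ r * (16 * 2 ^ r' * ∫⁻ p, ‖w p‖ₑ ∂(ν.prod ν)) := by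
        gcongr
        exact lop2_lint (S.Ke_meas r') hw.meas.enorm (S.Ke_int' hinc r')
    _ = _ := by ring

theorem SMN_le_VV {r r' M N : ℕ} (hM : M ∈ S.blk r) (hN : N ∈ S.blk r') (w : X × X → ℝ) (p : X × X) :
    ‖S.SMN M N w p‖ₑ ≤ S.VV r r' w p := by
  unfold SMN VV
  refine le_trans (op1_enorm_le _ _ _) ?_
  refine lop1_mono (S.D_enorm_le hM) (fun q => ?_) p
  refine le_trans (op2_enorm_le _ _ _) ?_
  exact lop2_mono (S.D_enorm_le hN) (fun q => le_rfl) q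

theorem SMN_u_le {r r' M N : ℕ} (hM : M ∈ S.blk r) (hN : N ∈ S.blk r') {A B : ℕ → X → ENNReal}
    (hA : Measurable (A r)) (hB : Measurable (B r')) {f : X × X → ℝ} (hf : Good ν f) (p : X × X) :
    ‖S.SMN M N (S.gr r (S.hr r' f)) p‖ₑ ≤ S.UU r r' (S.u1 r r' A B f) p + S.VV r r' (S.u2 r r' A B f) p := by
  have h1 : S.SMN M N (S.gr r (S.hr r' f)) = S.SMN M N (S.u1 r r' A B f) + S.SMN M N (S.u2 r r' A B f) := by
    unfold SMN
    rw [u1_add_u2 r r' A B f, op2_add (S.D_bk N) (good_u1 r r' hA hB hf) (good_u2 r r' hA hB hf),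
      op1_add (S.D_bk M) (good_op2 (S.D_bk N) (good_u1 r r' hA hB hf)) (good_op2 (S.D_bk N) (good_u2 r r' hA hB hf))]
  rw [h1]
  simp only [Pi.add_apply]
  refine le_trans (enorm_add_le _ _) (add_le_add ?_ (SMN_le_VV hM hN _ p))
  unfold UU
  exact le_iSup₂ (f := fun (MN : ℕ × ℕ) (_ : MN ∈ S.blk r ×ˢ S.blk r') => ‖S.SMN MN.1 MN.2 (S.u1 r r' A B f) p‖ₑ)
    (M, N) (Finset.mem_product.mpr ⟨hM, hN⟩)

include hinc in
theorem UU_tendsto {f : X × X → ℝ} {A B : ℕ → X → ENNReal} (hf : Good ν f) (hA : S.Dir f A) (hB : S.Dir (sw f) B) :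
    ∀ᵐ p ∂(ν.prod ν), Tendsto (fun rr : ℕ × ℕ => S.UU rr.1 rr.2 (S.u1 rr.1 rr.2 A B f) p ^ 2) cofinite (𝓝 0) := by
  refine ae_tendsto_of_tsum (fun (rr : ℕ × ℕ) p => S.UU rr.1 rr.2 (S.u1 rr.1 rr.2 A B f) p ^ 2) ?_ ?_
  · intro rr
    exact (UU_meas _ _ (good_u1 _ _ (hA.meas _) (hB.meas _) hf)).pow_const 2
  · have h1 : ∀ rr : ℕ × ℕ, ∫⁻ p, S.UU rr.1 rr.2 (S.u1 rr.1 rr.2 A B f) p ^ 2 ∂(ν.prod ν)
        ≤ 4096 * ((2 ^ rr.1 * ∫⁻ y, A rr.1 y ∂ν) * (2 ^ rr.2 * ∫⁻ y, B rr.2 y ∂ν)) := by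
      intro rr
      refine le_trans (UU_sq hinc _ _ (good_u1 _ _ (hA.meas _) (hB.meas _) hf)) ?_
      calc 256 * (2 ^ rr.1 * 2 ^ rr.2) * ∫⁻ p, ‖S.u1 rr.1 rr.2 A B f p‖ₑ ^ 2 ∂(ν.prod ν)
          ≤ 256 * (2 ^ rr.1 * 2 ^ rr.2) * (16 * ((∫⁻ y, A rr.1 y ∂ν) * ∫⁻ y, B rr.2 y ∂ν)) := by
            gcongr
            exact u1_sq _ _ (hA.meas _) (hB.meas _) hf
        _ = _ := by ring
    refine ne_top_of_le_ne_top ?_ (ENNReal.tsum_le_tsum h1)
    rw [ENNReal.tsum_prod (f := fun a b => 4096 * ((2 ^ a * ∫⁻ y, A a y ∂ν) * (2 ^ b * ∫⁻ y, B b y ∂ν)))]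
    simp only [ENNReal.tsum_mul_left, ENNReal.tsum_mul_right]
    exact ENNReal.mul_ne_top (by norm_num) (ENNReal.mul_ne_top hA.sum hB.sum)

theorem four_sixteen (r : ℕ) : (2 : ENNReal) ^ (2 * r) * (1 / 16) ^ r ≤ 1 := by
  rw [pow_mul, ← mul_pow]
  refine pow_le_one' ?_ r
  rw [mul_one_div]
  exact ENNReal.div_le_of_le_mul (by norm_num)

theorem tsum_dir2 {a : ℕ → ENNReal} (ha : ∑' r, 2 ^ r * a r ≠ ⊤) :
    ∑' r : ℕ, ∑' r' : ℕ, (if r' < 2 * r then (2 : ENNReal) ^ r' * (2 ^ r * ((1 / 16) ^ r * a r)) else 0) ≠ ⊤ := by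
  have h2 : ∀ r : ℕ, ∑' r' : ℕ, (if r' < 2 * r then (2 : ENNReal) ^ r' * (2 ^ r * ((1 / 16) ^ r * a r)) else 0)
      ≤ 2 ^ r * a r := by
    intro r
    rw [tsum_ite_lt, ← Finset.sum_mul]
    calc (∑ i ∈ Finset.range (2 * r), (2 : ENNReal) ^ i) * (2 ^ r * ((1 / 16) ^ r * a r))
        ≤ 2 ^ (2 * r) * (2 ^ r * ((1 / 16) ^ r * a r)) := by gcongr; exact sum_two_pow_le _
      _ = (2 ^ (2 * r) * (1 / 16) ^ r) * (2 ^ r * a r) := by ring
      _ ≤ 1 * (2 ^ r * a r) := by gcongr; exact four_sixteen r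
      _ = _ := one_mul _
  exact ne_top_of_le_ne_top ha (ENNReal.tsum_le_tsum h2)

include hinc in
theorem VV_tendsto {f : X × X → ℝ} {A B : ℕ → X → ENNReal} (hf : Good ν f) (hA : S.Dir f A) (hB : S.Dir (sw f) B) :
    ∀ᵐ p ∂(ν.prod ν), Tendsto (fun rr : ℕ × ℕ => if rr.2 < 2 * rr.1 ∧ rr.1 < 2 * rr.2 then
      S.VV rr.1 rr.2 (S.u2 rr.1 rr.2 A B f) p else 0) cofinite (𝓝 0) := by
  refine ae_tendsto_of_tsum (fun (rr : ℕ × ℕ) p => if rr.2 < 2 * rr.1 ∧ rr.1 < 2 * rr.2 then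
      S.VV rr.1 rr.2 (S.u2 rr.1 rr.2 A B f) p else 0) ?_ ?_
  · intro rr
    by_cases hc : rr.2 < 2 * rr.1 ∧ rr.1 < 2 * rr.2
    · simp only [hc]; exact VV_meas _ _ (good_u2 _ _ (hA.meas _) (hB.meas _) hf)
    · simp only [hc, if_false]; exact measurable_const
  · have h1 : ∀ rr : ℕ × ℕ, ∫⁻ p, (if rr.2 < 2 * rr.1 ∧ rr.1 < 2 * rr.2 then
          S.VV rr.1 rr.2 (S.u2 rr.1 rr.2 A B f) p else 0) ∂(ν.prod ν)
        ≤ 1024 * ((if rr.2 < 2 * rr.1 then (2 : ENNReal) ^ rr.2 * (2 ^ rr.1 * ((1 / 16) ^ rr.1 * ∫⁻ y, A rr.1 y ∂ν)) else 0)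
          + (if rr.1 < 2 * rr.2 then (2 : ENNReal) ^ rr.1 * (2 ^ rr.2 * ((1 / 16) ^ rr.2 * ∫⁻ y, B rr.2 y ∂ν)) else 0)) := by
      intro rr
      by_cases hc : rr.2 < 2 * rr.1 ∧ rr.1 < 2 * rr.2
      · simp only [hc, if_true, and_self]
        refine le_trans (VV_int hinc _ _ (good_u2 _ _ (hA.meas _) (hB.meas _) hf)) ?_
        have m1 : Measurable (S.tot rr.1 rr.2 A B f) := tot_meas _ _ (hA.meas _) (hB.meas _) hf
        calc 256 * (2 ^ rr.1 * 2 ^ rr.2) * ∫⁻ p, ‖S.u2 rr.1 rr.2 A B f p‖ₑ ∂(ν.prod ν)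
            ≤ 256 * (2 ^ rr.1 * 2 ^ rr.2) * ∫⁻ p, 2 * S.tot rr.1 rr.2 A B f p ∂(ν.prod ν) := by
              gcongr with p
              exact u2_le _ _ (hA.meas _) (hB.meas _) hf p
          _ = 256 * (2 ^ rr.1 * 2 ^ rr.2) * (2 * ∫⁻ p, S.tot rr.1 rr.2 A B f p ∂(ν.prod ν)) := by
              rw [lintegral_const_mul _ m1]
          _ ≤ 256 * (2 ^ rr.1 * 2 ^ rr.2) * (2 * (2 * ((1 / 16) ^ rr.1 * (∫⁻ y, A rr.1 y ∂ν) + (1 / 16) ^ rr.2 * ∫⁻ y, B rr.2 y ∂ν))) := by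
              gcongr
              exact tot_int _ _ hf hA hB
          _ = _ := by ring
      · simp [hc]
    refine ne_top_of_le_ne_top ?_ (ENNReal.tsum_le_tsum h1)
    rw [ENNReal.tsum_mul_left, ENNReal.tsum_add]
    refine ENNReal.mul_ne_top (by norm_num) (ENNReal.add_ne_top.mpr ⟨?_, ?_⟩)
    · rw [ENNReal.tsum_prod (f := fun a b => if b < 2 * a then (2 : ENNReal) ^ b * (2 ^ a * ((1 / 16) ^ a * ∫⁻ y, A a y ∂ν)) else 0)]
      exact tsum_dir2 hA.sum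
    · rw [ENNReal.tsum_prod (f := fun a b => if a < 2 * b then (2 : ENNReal) ^ a * (2 ^ b * ((1 / 16) ^ b * ∫⁻ y, B b y ∂ν)) else 0),
        ENNReal.tsum_comm]
      exact tsum_dir2 hB.sum

include hinc in
theorem Er_tendsto {f : X × X → ℝ} {A : ℕ → X → ENNReal} (hf : Good ν f) (hA : S.Dir f A) :
    ∀ᵐ p ∂(ν.prod ν), Tendsto (fun r : ℕ => S.Er r f p) cofinite (𝓝 0) := by
  refine ae_tendsto_of_tsum (fun r p => S.Er r f p) (fun r => Er_meas r hf) ?_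
  have h1 : ∀ r : ℕ, ∫⁻ p, S.Er r f p ∂(ν.prod ν) ≤ 5 * (2 ^ r * ∫⁻ y, A r y ∂ν) := by
    intro r
    refine le_trans (hA.Er_int hinc hf r) ?_
    rw [← mul_assoc]
    refine mul_le_mul' ?_ le_rfl
    have h2 : 1 + lam r ≤ 5 * 2 ^ r := by
      refine le_trans (one_add_lam r) ?_
      have : (r + 1) / 2 ≤ r := by omega
      have := Nat.pow_le_pow_right (n := 2) (by norm_num) this
      omega
    rw [add_comm]
    exact_mod_cast h2
  refine ne_top_of_le_ne_top ?_ (ENNReal.tsum_le_tsum h1)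
  rw [ENNReal.tsum_mul_left]
  exact ENNReal.mul_ne_top (by norm_num) hA.sum

theorem ae_swap {P : X × X → Prop} (h : ∀ᵐ p ∂(ν.prod ν), P p) : ∀ᵐ p ∂(ν.prod ν), P (p.2, p.1) := by
  have := (Measure.measurePreserving_swap (μ := ν) (ν := ν)).quasiMeasurePreserving.ae h
  exact this

theorem SMN_swap {M N : ℕ} {f : X × X → ℝ} (hf : Good ν f) (p : X × X) :
    (S.SMN M N f - f) p = (S.SMN N M (sw f) - sw f) (p.2, p.1) := by
  unfold SMN
  rw [op_comm (S.D_bk M) (S.D_bk N) hf]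
  rfl

include hinc in
/-- Abstract main theorem. -/
theorem main (hcov : ∀ R : ℕ, ∀ M, S.m R ≤ M → ∃ r, R ≤ r ∧ M ∈ S.blk r)
    {f : X × X → ℝ} {A B : ℕ → X → ENNReal} (hf : Good ν f) (hA : S.Dir f A) (hB : S.Dir (sw f) B) :
    ∀ᵐ p ∂(ν.prod ν), Tendsto (fun MN : ℕ × ℕ => S.SMN MN.1 MN.2 f p) atTop (𝓝 (f p)) := by
  have hco : (atTop : Filter (ℕ × ℕ)) ≤ cofinite := atTop_le_cofinite
  have hco' : (atTop : Filter ℕ) ≤ cofinite := Nat.cofinite_eq_atTop.ge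
  filter_upwards [Er_tendsto hinc hf hA, ae_swap (Er_tendsto hinc hf.sw hB), caseA_tendsto hinc hf hB,
    ae_swap (caseA_tendsto hinc hf.sw (f := sw f) (B := A) hA), caseB_tendsto hinc hf hA hB,
    UU_tendsto hinc hf hA hB, VV_tendsto hinc hf hA hB] with p h1 h2 h3 h4 h5 h6 h7
  rw [tendsto_iff_edist_tendsto_0, ENNReal.tendsto_nhds_zero]
  intro ε hε
  rcases eq_or_ne ε ⊤ with rfl | hε'
  · exact Eventually.of_forall (fun _ => le_top)
  have hε3 : 0 < ε / 3 := ENNReal.div_pos hε.ne' (by norm_num)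
  have hεsum : ε / 3 + ε / 3 + ε / 3 = ε := ENNReal.add_thirds ε
  have e1 : ∀ᶠ r : ℕ in atTop, S.Er r f p ≤ ε / 3 := (ENNReal.tendsto_nhds_zero.mp (h1.mono_left hco')) _ hε3
  have e2 : ∀ᶠ r : ℕ in atTop, S.Er r (sw f) (p.2, p.1) ≤ ε / 3 := (ENNReal.tendsto_nhds_zero.mp (h2.mono_left hco')) _ hε3
  have e3 := (ENNReal.tendsto_nhds_zero.mp (h3.mono_left hco)) _ hε3
  have e4 := (ENNReal.tendsto_nhds_zero.mp (h4.mono_left hco)) _ hε3
  have e5 := (ENNReal.tendsto_nhds_zero.mp (h5.mono_left hco)) _ hε3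
  have e6 := (ENNReal.tendsto_nhds_zero.mp (h6.mono_left hco)) ((ε / 3) ^ 2) (ENNReal.pow_pos hε3 2)
  have e7 := (ENNReal.tendsto_nhds_zero.mp (h7.mono_left hco)) _ hε3
  rw [eventually_atTop] at e1 e2
  obtain ⟨R1, e1⟩ := e1
  obtain ⟨R2, e2⟩ := e2
  rw [eventually_atTop] at e3 e4 e5 e6 e7
  obtain ⟨⟨a3, b3⟩, e3⟩ := e3
  obtain ⟨⟨a4, b4⟩, e4⟩ := e4
  obtain ⟨⟨a5, b5⟩, e5⟩ := e5
  obtain ⟨⟨a6, b6⟩, e6⟩ := e6
  obtain ⟨⟨a7, b7⟩, e7⟩ := e7
  set R := R1 + R2 + a3 + b3 + a4 + b4 + a5 + b5 + a6 + b6 + a7 + b7 with hR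
  rw [eventually_atTop]
  refine ⟨(S.m R, S.m R), ?_⟩
  rintro ⟨M, N⟩ ⟨hM, hN⟩
  simp only at hM hN ⊢
  obtain ⟨r, hr, hMr⟩ := hcov R M hM
  obtain ⟨r', hr', hNr⟩ := hcov R N hN
  have hed : edist (S.SMN M N f p) (f p) = ‖(S.SMN M N f - f) p‖ₑ := by
    rw [edist_eq_enorm_sub]; rfl
  rw [hed]
  have g1 := e1 r (by omega)
  have g2 := e2 r' (by omega)
  have g3 := e3 (r, r') (Prod.mk_le_mk.mpr ⟨by omega, by omega⟩)
  have g4 := e4 (r', r) (Prod.mk_le_mk.mpr ⟨by omega, by omega⟩)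
  have g5 := e5 (r, r') (Prod.mk_le_mk.mpr ⟨by omega, by omega⟩)
  have g6 := e6 (r, r') (Prod.mk_le_mk.mpr ⟨by omega, by omega⟩)
  have g7 := e7 (r, r') (Prod.mk_le_mk.mpr ⟨by omega, by omega⟩)
  have two : ε / 3 + ε / 3 ≤ ε := by
    calc ε / 3 + ε / 3 ≤ ε / 3 + ε / 3 + ε / 3 := le_self_add
      _ = ε := hεsum
  by_cases c1 : 2 * r ≤ r'
  · simp only [c1, if_true] at g3
    refine le_trans (caseA_bound hMr hNr hf p) (le_trans (add_le_add g1 g3) two)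
  · by_cases c2 : 2 * r' ≤ r
    · simp only [c2, if_true] at g4
      rw [SMN_swap hf p]
      refine le_trans (caseA_bound hNr hMr hf.sw (p.2, p.1)) (le_trans (add_le_add g2 g4) two)
    · have c3 : r' < 2 * r ∧ r < 2 * r' := ⟨by omega, by omega⟩
      simp only [c3, and_self, if_true] at g5 g7
      have g6' : S.UU r r' (S.u1 r r' A B f) p ≤ ε / 3 := by
        by_contra hcon
        push Not at hcon
        exact absurd g6 (not_le.mpr (ENNReal.pow_lt_pow_left (by norm_num) hcon))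
      refine le_trans (caseB_bound hMr hNr hf p) ?_
      rw [← hεsum, add_assoc]
      refine add_le_add g5 (le_trans (SMN_u_le hMr hNr (hA.meas r) (hB.meas r') hf p) (add_le_add g6' g7))

end FS

end Pool.Agent.Helper187.HBV
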