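import Mathlib

namespace Pool.Agent.Helper187.HBV

open Finset

/-- among subsets of given size there is one with small total weight. -/
theorem choose_small (l : ℕ → ℝ) : ∀ (c : ℕ) (S : Finset ℕ) (n : ℕ), S.card = c → n ≤ c →
    ∃ C ⊆ S, C.card = n ∧ (c : ℝ) * ∑ i ∈ C, l i ≤ n * ∑ i ∈ S, l i := by
  intro c
  induction c with
  | zero =>
    intro S n hS hn
    refine ⟨∅, Finset.empty_subset _, by simp; omega, by simp; rw [Nat.le_zero.mp hn]; simp⟩
  | succ c ih =>
    intro S n hS hn
    rcases Nat.lt_or_ge c n with h | h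
    · have : n = c + 1 := by omega
      subst this
      exact ⟨S, Finset.Subset.refl _, hS, le_refl _⟩
    · have hne : S.Nonempty := by
        rw [← Finset.card_pos]; omega
      obtain ⟨m, hm, hmax⟩ := Finset.exists_max_image S l hne
      have hcard : (S.erase m).card = c := by rw [Finset.card_erase_of_mem hm]; omega
      obtain ⟨C, hC, hCn, hle⟩ := ih (S.erase m) n hcard h
      refine ⟨C, hC.trans (Finset.erase_subset _ _), hCn, ?_⟩
      have hsum : ∑ i ∈ S.erase m, l i = ∑ i ∈ S, l i - l m := by
        rw [← Finset.add_sum_erase S l hm]; ring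
      have hmx : ∑ i ∈ S, l i ≤ (c + 1) * l m := by
        have := Finset.sum_le_card_nsmul S l (l m) hmax
        rw [hS, nsmul_eq_mul] at this
        push_cast at this
        exact this
      rw [hsum] at hle
      push_cast
      rcases Nat.eq_zero_or_pos c with h0 | h0
      · have hn0 : n = 0 := by omega
        subst hn0
        rw [Finset.card_eq_zero.mp hCn]; simp
      · have hc : (0 : ℝ) < c := by exact_mod_cast h0
        have hn0 : (0 : ℝ) ≤ n := Nat.cast_nonneg n
        -- c * ((c+1) ΣC) ≤ (c+1) n (ΣS - lm) ≤ n c ΣS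
        have h1 : (c : ℝ) * (((c : ℝ) + 1) * ∑ i ∈ C, l i) ≤ c * (n * ∑ i ∈ S, l i) := by
          calc (c : ℝ) * (((c : ℝ) + 1) * ∑ i ∈ C, l i) = ((c : ℝ) + 1) * (c * ∑ i ∈ C, l i) := by ring
            _ ≤ ((c : ℝ) + 1) * (n * (∑ i ∈ S, l i - l m)) := by gcongr
            _ = n * (((c : ℝ) + 1) * ∑ i ∈ S, l i - (c + 1) * l m) := by ring
            _ ≤ n * (((c : ℝ) + 1) * ∑ i ∈ S, l i - ∑ i ∈ S, l i) := by gcongr
            _ = _ := by ring
        exact le_of_mul_le_mul_left h1 hc

/-- top elements. -/
theorem exists_top (w : ℕ → ℝ) (S : Finset ℕ) : ∀ n : ℕ, n ≤ S.card →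
    ∃ I ⊆ S, I.card = n ∧ ∀ i ∈ I, ∀ j ∈ S, j ∉ I → w j ≤ w i := by
  intro n
  induction n with
  | zero => intro _; exact ⟨∅, Finset.empty_subset _, rfl, by simp⟩
  | succ n ih =>
    intro hn
    obtain ⟨I, hI, hc, ht⟩ := ih (by omega)
    have hne : (S \ I).Nonempty := by
      rw [← Finset.card_pos, Finset.card_sdiff_of_subset hI]; omega
    obtain ⟨m, hm, hmax⟩ := Finset.exists_max_image (S \ I) w hne
    rw [Finset.mem_sdiff] at hm
    refine ⟨insert m I, ?_, ?_, ?_⟩
    · intro x hx
      rw [Finset.mem_insert] at hx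
      rcases hx with rfl | hx
      · exact hm.1
      · exact hI hx
    · rw [Finset.card_insert_of_notMem hm.2, hc]
    · intro i hi j hj hj'
      rw [Finset.mem_insert, not_or] at hj'
      rw [Finset.mem_insert] at hi
      rcases hi with rfl | hi
      · exact hmax j (Finset.mem_sdiff.mpr ⟨hj, hj'.2⟩)
      · exact ht i hi j hj hj'.2

/-- the greedy selection. -/
theorem select (anc : ℕ → ℕ → ℕ → ℕ) (n κ : ℕ → ℕ) (w : ℕ → ℝ) (hw : ∀ r, 0 ≤ w r)
    (hn : ∀ q, n q * 2 ^ (q + 2) = κ q) (hn0 : ∀ q, 0 < n q) (R : ℕ) (W : ℝ) (hW : 0 ≤ W) :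
    ∀ (d q : ℕ), q + d = R → (∑ r ∈ Ico q R, w r ≤ W) → ∀ (I : ℕ → Finset ℕ), (∀ r, (I r).card ≤ κ r) →
      ∃ C : ℕ → Finset ℕ, (∀ r ∈ Ico q R, C r ⊆ I r) ∧ (∀ r ∈ Ico q R, C r = ∅ ∨ (C r).card = n r) ∧
        (∀ a b, q ≤ a → a < b → b < R → ∀ j ∈ C b, anc a b j ∉ C a) ∧
        ∑ r ∈ Ico q R, (if C r = ∅ then w r else 0)
          ≤ 2 * (∑ r ∈ Ico q R, w r * ((κ r - (I r).card) / κ r) + (∑ r ∈ Ico q R, (1 / 2 : ℝ) ^ (r + 1)) * W) := by
  classical
  have hκ0 : ∀ r, 0 < κ r := fun r => by rw [← hn]; have := hn0 r; positivity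
  intro d
  induction d with
  | zero =>
    intro q hq _ I _
    have : Ico q R = ∅ := by rw [Finset.Ico_eq_empty_iff]; omega
    refine ⟨fun _ => ∅, by simp, by simp, fun a b ha hab hb => by omega, ?_⟩
    rw [this]; simp
  | succ d ih =>
    intro q hq hWq I hI
    have hqR : q < R := by omega
    have hsplit : ∀ F : ℕ → ℝ, ∑ r ∈ Ico q R, F r = F q + ∑ r ∈ Ico (q + 1) R, F r := fun F =>
      Finset.sum_eq_sum_Ico_succ_bot hqR F
    have hW1 : ∑ r ∈ Ico (q + 1) R, w r ≤ W := by
      rw [hsplit] at hWq
      have := hw q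
      linarith
    have hκq : (0 : ℝ) < κ q := by exact_mod_cast hκ0 q
    by_cases hcase : κ q ≤ 2 * (I q).card
    · -- good level
      have hIq : (0 : ℝ) < (I q).card := by
        have : 0 < (I q).card := by have := hκ0 q; omega
        exact_mod_cast this
      set l : ℕ → ℝ := fun i => ∑ r ∈ Ico (q + 1) R, w r * (((I r).filter (fun j => anc q r j = i)).card / κ r) with hl
      have hl0 : ∀ i, 0 ≤ l i := fun i => Finset.sum_nonneg (fun r _ => mul_nonneg (hw r) (by positivity))
      have hnq : n q ≤ (I q).card := by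
        have h1 := hn q
        have h2 : n q * 4 ≤ n q * 2 ^ (q + 2) := by
          apply Nat.mul_le_mul_left
          calc 4 = 2 ^ 2 := by norm_num
            _ ≤ 2 ^ (q + 2) := Nat.pow_le_pow_right (by norm_num) (by omega)
        omega
      obtain ⟨Cq, hCq, hCn, hle⟩ := choose_small l (I q).card (I q) (n q) rfl hnq
      have hfib : ∀ (T : Finset ℕ) (r : ℕ), ∑ i ∈ T, (((I r).filter (fun j => anc q r j = i)).card : ℝ)
          = (((I r).filter (fun j => anc q r j ∈ T)).card : ℝ) := by
        intro T r
        rw [← Nat.cast_sum]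
        congr 1
        have := Finset.card_eq_sum_card_fiberwise (s := (I r).filter (fun j => anc q r j ∈ T)) (t := T) (f := fun j => anc q r j)
          (by intro j hj; simpa using (Finset.mem_filter.mp (Finset.mem_coe.mp hj)).2)
        rw [this]
        refine Finset.sum_congr rfl (fun i hi => ?_)
        congr 1
        ext j
        simp only [Finset.mem_filter]
        constructor
        · rintro ⟨h1, h2⟩; exact ⟨⟨h1, h2 ▸ hi⟩, h2⟩
        · rintro ⟨⟨h1, _⟩, h2⟩; exact ⟨h1, h2⟩
      have hlsum : ∀ T : Finset ℕ, ∑ i ∈ T, l i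
          = ∑ r ∈ Ico (q + 1) R, w r * ((((I r).filter (fun j => anc q r j ∈ T)).card : ℝ) / κ r) := by
        intro T
        rw [hl, Finset.sum_comm]
        refine Finset.sum_congr rfl (fun r _ => ?_)
        rw [← Finset.mul_sum, ← Finset.sum_div, hfib]
      have htot : ∑ i ∈ I q, l i ≤ W := by
        rw [hlsum]
        refine le_trans (Finset.sum_le_sum (fun r _ => ?_)) hW1
        have h1 : ((((I r).filter (fun j => anc q r j ∈ I q)).card : ℝ) / κ r) ≤ 1 := by
          rw [div_le_one (by exact_mod_cast hκ0 r)]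
          exact_mod_cast le_trans (Finset.card_filter_le _ _) (hI r)
        calc w r * _ ≤ w r * 1 := mul_le_mul_of_nonneg_left h1 (hw r)
          _ = w r := mul_one _
      have hlost : ∑ i ∈ Cq, l i ≤ (1 / 2 : ℝ) ^ (q + 1) * W := by
        have h1 : ((I q).card : ℝ) * ∑ i ∈ Cq, l i ≤ n q * W := le_trans hle (by gcongr)
        have h2 : (n q : ℝ) ≤ ((I q).card : ℝ) * (1 / 2 : ℝ) ^ (q + 1) := by
          have h3 : (n q : ℝ) * 2 ^ (q + 2) ≤ 2 * (I q).card := by
            have : n q * 2 ^ (q + 2) ≤ 2 * (I q).card := by rw [hn]; exact hcase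
            exact_mod_cast this
          have h4 : (0 : ℝ) < 2 ^ (q + 1) := by positivity
          have h5 : (n q : ℝ) * 2 ^ (q + 1) ≤ (I q).card := by
            have : (2 : ℝ) ^ (q + 2) = 2 * 2 ^ (q + 1) := by ring
            rw [this] at h3
            nlinarith
          rw [one_div, inv_pow, ← div_eq_mul_inv, le_div_iff₀ h4]
          exact h5
        have h6 : ((I q).card : ℝ) * ∑ i ∈ Cq, l i ≤ ((I q).card : ℝ) * ((1 / 2 : ℝ) ^ (q + 1) * W) := by
          refine le_trans h1 ?_
          rw [← mul_assoc]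
          exact mul_le_mul_of_nonneg_right h2 hW
        exact le_of_mul_le_mul_left h6 hIq
      set I' : ℕ → Finset ℕ := fun r => (I r).filter (fun j => anc q r j ∉ Cq) with hI'
      obtain ⟨C', c1, c2, c3, c4⟩ := ih (q + 1) (by omega) hW1 I' (fun r => le_trans (Finset.card_filter_le _ _) (hI r))
      have hCq0 : Cq ≠ ∅ := by
        intro h
        rw [h] at hCn
        have := hn0 q
        simp at hCn
        omega
      refine ⟨fun r => if r = q then Cq else C' r, ?_, ?_, ?_, ?_⟩
      · intro r hr
        rw [Finset.mem_Ico] at hr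
        by_cases h : r = q
        · subst h; simpa using hCq
        · simp only [h, if_false]
          exact (c1 r (Finset.mem_Ico.mpr ⟨by omega, hr.2⟩)).trans (Finset.filter_subset _ _)
      · intro r hr
        rw [Finset.mem_Ico] at hr
        by_cases h : r = q
        · subst h; simp [hCn]
        · simp only [h, if_false]
          exact c2 r (Finset.mem_Ico.mpr ⟨by omega, hr.2⟩)
      · intro a b ha hab hb j hj
        have hbq : b ≠ q := by omega
        simp only [hbq, if_false] at hj
        by_cases h : a = q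
        · subst h
          simp only [if_true]
          have := c1 b (Finset.mem_Ico.mpr ⟨by omega, hb⟩) hj
          exact (Finset.mem_filter.mp this).2
        · simp only [h, if_false]
          exact c3 a b (by omega) hab hb j hj
      · rw [hsplit, hsplit (fun r => w r * _), hsplit (fun r => (1 / 2 : ℝ) ^ (r + 1))]
        simp only [if_true, hCq0, if_false, zero_add]
        have e1 : ∑ r ∈ Ico (q + 1) R, (if (if r = q then Cq else C' r) = ∅ then w r else 0)
            = ∑ r ∈ Ico (q + 1) R, (if C' r = ∅ then w r else 0) := by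
          refine Finset.sum_congr rfl (fun r hr => ?_)
          rw [Finset.mem_Ico] at hr
          rw [if_neg (show r ≠ q by omega)]
        rw [e1]
        refine le_trans c4 ?_
        have e2 : ∑ r ∈ Ico (q + 1) R, w r * (((κ r : ℝ) - (I' r).card) / κ r)
            = ∑ r ∈ Ico (q + 1) R, w r * (((κ r : ℝ) - (I r).card) / κ r) + ∑ i ∈ Cq, l i := by
          rw [hlsum, ← Finset.sum_add_distrib]
          refine Finset.sum_congr rfl (fun r _ => ?_)
          rw [← mul_add, ← add_div]
          congr 2
          have := Finset.card_filter_add_card_filter_not (s := I r) (fun j => anc q r j ∈ Cq)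
          have h2 : (((I r).filter (fun j => anc q r j ∈ Cq)).card : ℝ) + ((I' r).card : ℝ) = (I r).card := by
            exact_mod_cast this
          linarith
        rw [e2]
        have e3 : 0 ≤ w q * (((κ q : ℝ) - (I q).card) / κ q) := by
          refine mul_nonneg (hw q) (div_nonneg ?_ hκq.le)
          have : ((I q).card : ℝ) ≤ κ q := by exact_mod_cast hI q
          linarith
        nlinarith [hlost, e3]
    · -- bad level
      obtain ⟨C', c1, c2, c3, c4⟩ := ih (q + 1) (by omega) hW1 I hI
      refine ⟨fun r => if r = q then ∅ else C' r, ?_, ?_, ?_, ?_⟩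
      · intro r hr
        rw [Finset.mem_Ico] at hr
        by_cases h : r = q
        · subst h; simp
        · simp only [h, if_false]
          exact c1 r (Finset.mem_Ico.mpr ⟨by omega, hr.2⟩)
      · intro r hr
        rw [Finset.mem_Ico] at hr
        by_cases h : r = q
        · subst h; simp
        · simp only [h, if_false]
          exact c2 r (Finset.mem_Ico.mpr ⟨by omega, hr.2⟩)
      · intro a b ha hab hb j hj
        have hbq : b ≠ q := by omega
        simp only [hbq, if_false] at hj
        by_cases h : a = q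
        · subst h; simp
        · simp only [h, if_false]
          exact c3 a b (by omega) hab hb j hj
      · rw [hsplit, hsplit (fun r => w r * _), hsplit (fun r => (1 / 2 : ℝ) ^ (r + 1))]
        simp only [if_true]
        have e1 : ∑ r ∈ Ico (q + 1) R, (if (if r = q then ∅ else C' r) = ∅ then w r else 0)
            = ∑ r ∈ Ico (q + 1) R, (if C' r = ∅ then w r else 0) := by
          refine Finset.sum_congr rfl (fun r hr => ?_)
          rw [Finset.mem_Ico] at hr
          rw [if_neg (show r ≠ q by omega)]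
        rw [e1]
        have e2 : w q ≤ 2 * (w q * (((κ q : ℝ) - (I q).card) / κ q)) := by
          have h1 : (2 : ℝ) * (I q).card ≤ κ q := by
            push Not at hcase
            exact_mod_cast hcase.le
          have h2 : (1 : ℝ) / 2 ≤ ((κ q : ℝ) - (I q).card) / κ q := by
            rw [le_div_iff₀ hκq]; linarith
          nlinarith [hw q]
        have e3 : 0 ≤ (1 / 2 : ℝ) ^ (q + 1) * W := by positivity
        nlinarith

end Pool.Agent.Helper187.HBV
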