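import Mathlib
import Pool.Agent.Helper187.HBV.Sel

namespace Pool.Agent.Helper187.HBV

open Finset Real

/-- harmonic variation on `[-π, π]` at most `V`. -/
def HV (g : ℝ → ℝ) (V : ℝ) : Prop :=
  ∀ a b : ℕ → ℝ, (∀ k, -π ≤ a k ∧ a k ≤ b k ∧ b k ≤ π) → (∀ i j, i ≠ j → b i ≤ a j ∨ b j ≤ a i) →
    ∑' k : ℕ, ENNReal.ofReal (|g (b k) - g (a k)| / (k + 1)) ≤ ENNReal.ofReal V

noncomputable def hs (g : ℝ → ℝ) : List (ℝ × ℝ) → ℕ → ℝ
  | [], _ => 0
  | I :: l, s => |g I.2 - g I.1| / (s + 1) + hs g l (s + 1)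

def Valid (l : List (ℝ × ℝ)) : Prop :=
  (∀ I ∈ l, -π ≤ I.1 ∧ I.1 ≤ I.2 ∧ I.2 ≤ π) ∧ l.Pairwise (fun I J => I.2 ≤ J.1 ∨ J.2 ≤ I.1)

theorem hs_eq (g : ℝ → ℝ) (d : ℝ × ℝ) : ∀ (l : List (ℝ × ℝ)) (s : ℕ),
    hs g l s = ∑ k ∈ range l.length, |g (l.getD k d).2 - g (l.getD k d).1| / (s + k + 1) := by
  intro l
  induction l with
  | nil => intro s; simp [hs]
  | cons I l ih =>
    intro s
    rw [hs, List.length_cons, Finset.sum_range_succ', ih]
    simp only [List.getD_cons_succ, List.getD_cons_zero]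
    push_cast
    rw [add_comm]
    congr 1
    · refine Finset.sum_congr rfl (fun k _ => ?_)
      congr 1
      ring
    · congr 1; ring

theorem hs_append (g : ℝ → ℝ) : ∀ (l l' : List (ℝ × ℝ)) (s : ℕ),
    hs g (l ++ l') s = hs g l s + hs g l' (s + l.length) := by
  intro l
  induction l with
  | nil => intro l' s; simp [hs]
  | cons I l ih =>
    intro l' s
    rw [List.cons_append, hs, hs, ih, List.length_cons]
    have : s + 1 + l.length = s + (l.length + 1) := by ring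
    rw [this]; ring

theorem hs_nonneg (g : ℝ → ℝ) : ∀ (l : List (ℝ × ℝ)) (s : ℕ), 0 ≤ hs g l s := by
  intro l
  induction l with
  | nil => intro s; simp [hs]
  | cons I l ih =>
    intro s
    rw [hs]
    have := ih (s + 1)
    positivity

theorem hs_le_of_HV {g : ℝ → ℝ} {V : ℝ} (hV : 0 ≤ V) (h : HV g V) {l : List (ℝ × ℝ)} (hl : Valid l) :
    hs g l 0 ≤ V := by
  have hπ := Real.pi_pos
  set d : ℝ × ℝ := (-π, -π) with hd
  have hin : ∀ k, -π ≤ (l.getD k d).1 ∧ (l.getD k d).1 ≤ (l.getD k d).2 ∧ (l.getD k d).2 ≤ π := by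
    intro k
    rcases Nat.lt_or_ge k l.length with hk | hk
    · rw [List.getD_eq_getElem _ _ hk]
      exact hl.1 _ (List.getElem_mem hk)
    · rw [List.getD_eq_default _ _ hk]
      simp only [hd]
      refine ⟨le_refl _, le_refl _, by linarith⟩
  have hno : ∀ i j, i ≠ j → (l.getD i d).2 ≤ (l.getD j d).1 ∨ (l.getD j d).2 ≤ (l.getD i d).1 := by
    have key : ∀ i j, i < j → (l.getD i d).2 ≤ (l.getD j d).1 ∨ (l.getD j d).2 ≤ (l.getD i d).1 := by
      intro i j hij
      rcases Nat.lt_or_ge j l.length with hj | hj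
      · have hi : i < l.length := by omega
        rw [List.getD_eq_getElem _ _ hi, List.getD_eq_getElem _ _ hj]
        exact List.pairwise_iff_getElem.mp hl.2 i j hi hj hij
      · right
        rw [List.getD_eq_default _ _ hj]
        exact (hin i).1
    intro i j hij
    rcases Nat.lt_or_gt_of_ne hij with h1 | h1
    · exact key i j h1
    · exact (key j i h1).symm
  have h1 := h (fun k => (l.getD k d).1) (fun k => (l.getD k d).2) hin hno
  rw [← ENNReal.ofReal_le_ofReal_iff hV]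
  refine le_trans ?_ h1
  rw [hs_eq g d l 0, ENNReal.ofReal_sum_of_nonneg (fun i _ => by positivity)]
  refine le_trans (Finset.sum_le_sum (fun k _ => ?_)) (ENNReal.sum_le_tsum (range l.length))
  refine le_of_eq ?_
  congr 2
  push_cast; ring

/-- one block of large increments. -/
theorem hs_block (g : ℝ → ℝ) {θ : ℝ} (hθ : 0 ≤ θ) : ∀ (l : List (ℝ × ℝ)) (s : ℕ),
    (∀ I ∈ l, θ ≤ |g I.2 - g I.1|) →
    θ * (Real.log (s + l.length + 1) - Real.log (s + 1)) ≤ hs g l s := by
  intro l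
  induction l with
  | nil => intro s _; simp [hs]
  | cons I l ih =>
    intro s hl
    have h1 := ih (s + 1) (fun J hJ => hl J (List.mem_cons_of_mem _ hJ))
    have h2 := hl I List.mem_cons_self
    rw [hs, List.length_cons]
    push_cast at h1 ⊢
    have hs1 : (0 : ℝ) < s + 1 := by positivity
    have h3 : Real.log (s + 1 + 1) - Real.log (s + 1) ≤ 1 / (s + 1) := by
      rw [← Real.log_div (by positivity) hs1.ne']
      have h4 : ((s : ℝ) + 1 + 1) / (s + 1) = 1 + 1 / (s + 1) := by field_simp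
      rw [h4]
      have := Real.log_le_sub_one_of_pos (show (0 : ℝ) < 1 + 1 / (s + 1) by positivity)
      linarith
    have h5 : θ * (Real.log (s + 1 + 1) - Real.log (s + 1)) ≤ |g I.2 - g I.1| / (s + 1) := by
      calc θ * (Real.log (s + 1 + 1) - Real.log (s + 1)) ≤ θ * (1 / (s + 1)) := by gcongr
        _ = θ / (s + 1) := by ring
        _ ≤ _ := by gcongr
    have e1 : (s : ℝ) + (l.length + 1) + 1 = s + 1 + l.length + 1 := by ring
    rw [e1]
    nlinarith

/-! ### grids -/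

def kk (q : ℕ) : ℕ := 2 ^ (2 ^ (q + 3))
def kap (q : ℕ) : ℕ := 2 ^ (2 ^ (q + 2))
def nn (q : ℕ) : ℕ := 2 ^ (2 ^ (q + 2) - (q + 2))

theorem kk_pos (q : ℕ) : 0 < kk q := by unfold kk; positivity
theorem kap_pos (q : ℕ) : 0 < kap q := by unfold kap; positivity
theorem nn_pos (q : ℕ) : 0 < nn q := by unfold nn; positivity

theorem kk_eq (q : ℕ) : kk q = kap q * kap q := by
  unfold kk kap
  rw [← pow_add]; congr 1; ring

theorem nn_mul (q : ℕ) : nn q * 2 ^ (q + 2) = kap q := by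
  unfold nn kap
  rw [← pow_add]
  congr 1
  have : q + 2 < 2 ^ (q + 2) := Nat.lt_two_pow_self
  omega

theorem nn_le (q : ℕ) : nn q ≤ kap q := by
  rw [← nn_mul]
  exact Nat.le_mul_of_pos_right _ (by positivity)

theorem kap_succ (q : ℕ) : kap (q + 1) = kap q * kap q := by
  unfold kap
  rw [← pow_add]; congr 1; ring

theorem two_le_kap (q : ℕ) : 2 ≤ kap q := by
  unfold kap
  calc 2 = 2 ^ 1 := by norm_num
    _ ≤ _ := Nat.pow_le_pow_right (by norm_num) (Nat.one_le_two_pow)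

theorem kk_dvd {a b : ℕ} (h : a ≤ b) : kk b = kk a * (kk b / kk a) := by
  have : kk a ∣ kk b := by
    unfold kk
    exact pow_dvd_pow _ (Nat.pow_le_pow_right (by norm_num) (by omega))
  rw [Nat.mul_div_cancel' this]

noncomputable def gp (k i : ℕ) : ℝ := -π + 2 * π * (i / k)

theorem gp_le {k i j : ℕ} (h : i ≤ j) : gp k i ≤ gp k j := by
  unfold gp
  have hπ := Real.pi_pos
  have : (i : ℝ) ≤ j := by exact_mod_cast h
  gcongr

theorem gp_ge (k i : ℕ) : -π ≤ gp k i := by
  unfold gp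
  have hπ := Real.pi_pos
  have : 0 ≤ 2 * π * ((i : ℝ) / k) := by positivity
  linarith

theorem gp_le_pi {k i : ℕ} (h : i ≤ k) : gp k i ≤ π := by
  unfold gp
  have hπ := Real.pi_pos
  rcases Nat.eq_zero_or_pos k with h0 | h0
  · subst h0; simp; linarith
  · have : (i : ℝ) / k ≤ 1 := by
      rw [div_le_one (by exact_mod_cast h0)]; exact_mod_cast h
    nlinarith

theorem gp_mul {k m i : ℕ} (hm : 0 < m) : gp (k * m) (i * m) = gp k i := by
  unfold gp
  congr 2
  push_cast
  rw [mul_div_mul_right _ _ (by positivity)]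

theorem no_overlap {a b i j : ℕ} (hab : a < b) (hne : j / (kk b / kk a) ≠ i) {s t s' t' : ℝ}
    (h1 : gp (kk a) i ≤ s) (h2 : t ≤ gp (kk a) (i + 1)) (h3 : gp (kk b) j ≤ s') (h4 : t' ≤ gp (kk b) (j + 1)) :
    t ≤ s' ∨ t' ≤ s := by
  set M := kk b / kk a with hM
  have hkb : kk b = kk a * M := kk_dvd hab.le
  have hM0 : 0 < M := by
    rcases Nat.eq_zero_or_pos M with h | h
    · rw [h] at hkb; have := kk_pos b; omega
    · exact h
  rcases Nat.lt_or_gt_of_ne hne with h | h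
  · right
    have h5 : j + 1 ≤ i * M := by
      have := (Nat.div_lt_iff_lt_mul hM0).mp h
      omega
    calc t' ≤ gp (kk b) (j + 1) := h4
      _ ≤ gp (kk b) (i * M) := gp_le h5
      _ = gp (kk a) i := by rw [hkb, gp_mul hM0]
      _ ≤ s := h1
  · left
    have h5 : (i + 1) * M ≤ j := by
      have : i + 1 ≤ j / M := h
      exact (Nat.le_div_iff_mul_le hM0).mp this
    calc t ≤ gp (kk a) (i + 1) := h2
      _ = gp (kk b) ((i + 1) * M) := by rw [hkb, gp_mul hM0]
      _ ≤ gp (kk b) j := gp_le h5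
      _ ≤ s' := h3

theorem no_overlap_same {a i j : ℕ} (hne : i ≠ j) {s t s' t' : ℝ}
    (h1 : gp (kk a) i ≤ s) (h2 : t ≤ gp (kk a) (i + 1)) (h3 : gp (kk a) j ≤ s') (h4 : t' ≤ gp (kk a) (j + 1)) :
    t ≤ s' ∨ t' ≤ s := by
  rcases Nat.lt_or_gt_of_ne hne with h | h
  · left
    exact le_trans h2 (le_trans (gp_le h) h3)
  · right
    exact le_trans h4 (le_trans (gp_le h) h1)

noncomputable def lev (C : ℕ → Finset ℕ) (s t : ℕ → ℕ → ℝ) (q : ℕ) : List (ℝ × ℝ) :=
  (C q).toList.map (fun i => (s q i, t q i))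

noncomputable def LL (C : ℕ → Finset ℕ) (s t : ℕ → ℕ → ℝ) : ℕ → List (ℝ × ℝ)
  | 0 => []
  | n + 1 => LL C s t n ++ lev C s t (3 + n)

theorem mem_lev {C : ℕ → Finset ℕ} {s t : ℕ → ℕ → ℝ} {q : ℕ} {J : ℝ × ℝ} :
    J ∈ lev C s t q ↔ ∃ i ∈ C q, J = (s q i, t q i) := by
  unfold lev
  simp only [List.mem_map, Finset.mem_toList]
  constructor
  · rintro ⟨i, hi, rfl⟩; exact ⟨i, hi, rfl⟩
  · rintro ⟨i, hi, rfl⟩; exact ⟨i, hi, rfl⟩

theorem mem_LL {C : ℕ → Finset ℕ} {s t : ℕ → ℕ → ℝ} {n : ℕ} {J : ℝ × ℝ} (h : J ∈ LL C s t n) :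
    ∃ q, 3 ≤ q ∧ q < 3 + n ∧ ∃ i ∈ C q, J = (s q i, t q i) := by
  induction n with
  | zero => simp [LL] at h
  | succ n ih =>
    rw [LL, List.mem_append] at h
    rcases h with h | h
    · obtain ⟨q, h1, h2, h3⟩ := ih h
      exact ⟨q, h1, by omega, h3⟩
    · exact ⟨3 + n, by omega, by omega, mem_lev.mp h⟩

theorem length_lev (C : ℕ → Finset ℕ) (s t : ℕ → ℕ → ℝ) (q : ℕ) : (lev C s t q).length = (C q).card := by
  unfold lev
  rw [List.length_map, Finset.length_toList]

theorem add_three_le (q : ℕ) (hq : 3 ≤ q) : q + 3 ≤ 2 ^ q := by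
  induction q, hq using Nat.le_induction with
  | base => norm_num
  | succ n hn ih => rw [pow_succ]; omega

theorem log_ratio {q : ℕ} (hq : 3 ≤ q) {s : ℕ} (hs : s + 1 ≤ 2 * kap (q - 1)) :
    (2 : ℝ) ^ q / 2 ≤ Real.log (s + nn q + 1) - Real.log (s + 1) := by
  obtain ⟨p, rfl⟩ : ∃ p, q = p + 1 := ⟨q - 1, by omega⟩
  simp only [Nat.add_sub_cancel] at hs
  have h1 : Real.log (nn (p + 1)) ≤ Real.log (s + nn (p + 1) + 1) := by
    have : (0 : ℝ) < nn (p + 1) := by exact_mod_cast nn_pos _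
    apply Real.log_le_log this
    have : (0 : ℝ) ≤ s := Nat.cast_nonneg s
    linarith
  have h2 : Real.log (s + 1) ≤ Real.log (2 * kap p) := by
    apply Real.log_le_log (by positivity)
    exact_mod_cast hs
  have h3 : Real.log (nn (p + 1)) = ((2 ^ (p + 1 + 2) - (p + 1 + 2) : ℕ) : ℝ) * Real.log 2 := by
    unfold nn
    push_cast
    rw [Real.log_pow]
  have h4 : Real.log (2 * kap p) = (1 + 2 ^ (p + 2)) * Real.log 2 := by
    unfold kap
    rw [Real.log_mul (by norm_num) (by positivity)]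
    push_cast
    rw [Real.log_pow]
    push_cast
    ring
  have h5 : ((2 ^ (p + 1 + 2) - (p + 1 + 2) : ℕ) : ℝ) = 2 ^ (p + 1 + 2) - (p + 1 + 2) := by
    have : p + 1 + 2 < 2 ^ (p + 1 + 2) := Nat.lt_two_pow_self
    rw [Nat.cast_sub this.le]
    push_cast; ring
  have h6 : ((p : ℝ) + 1) + 3 ≤ 2 ^ (p + 1) := by
    have := add_three_le (p + 1) hq
    exact_mod_cast this
  have hlog : (1 : ℝ) / 2 ≤ Real.log 2 := by
    have := Real.log_two_gt_d9
    linarith
  have e1 : (2 : ℝ) ^ (p + 1 + 2) = 4 * 2 ^ (p + 1) := by ring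
  have e2 : (2 : ℝ) ^ (p + 2) = 2 * 2 ^ (p + 1) := by ring
  have h7 : Real.log (s + nn (p + 1) + 1) - Real.log (s + 1)
      ≥ (4 * 2 ^ (p + 1) - (p + 1 + 2)) * Real.log 2 - (1 + 2 * 2 ^ (p + 1)) * Real.log 2 := by
    rw [h3, h5, e1] at h1
    rw [h4, e2] at h2
    linarith
  have h8 : (2 : ℝ) ^ (p + 1) * Real.log 2 ≤ (4 * 2 ^ (p + 1) - (p + 1 + 2)) * Real.log 2 - (1 + 2 * 2 ^ (p + 1)) * Real.log 2 := by
    rw [← sub_mul]
    apply mul_le_mul_of_nonneg_right _ (by linarith)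
    linarith
  have h9 : (2 : ℝ) ^ (p + 1) / 2 ≤ (2 : ℝ) ^ (p + 1) * Real.log 2 := by
    rw [div_eq_mul_one_div]
    gcongr
  linarith

theorem L_bound {g : ℝ → ℝ} {V : ℝ} (hV : 0 ≤ V) (h : HV g V) (θ : ℕ → ℝ) (hθ : ∀ q, 0 ≤ θ q)
    (I : ℕ → Finset ℕ) (hI : ∀ q, I q ⊆ range (kk q)) (hc : ∀ q, (I q).card = kap q)
    (hosc : ∀ q, ∀ i ∈ I q, ∃ s t, gp (kk q) i ≤ s ∧ s ≤ t ∧ t ≤ gp (kk q) (i + 1) ∧ θ q ≤ |g t - g s|)
    (R : ℕ) : ∑ q ∈ Ico 3 R, 2 ^ q * θ q ≤ 3 * V := by
  classical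
  rcases Nat.lt_or_ge R 3 with hR | hR
  · have : Ico 3 R = ∅ := by rw [Finset.Ico_eq_empty_iff]; omega
    rw [this]; simp; exact hV
  obtain ⟨N, rfl⟩ : ∃ N, R = 3 + N := ⟨R - 3, by omega⟩
  choose! s t hs1 hs2 hs3 hs4 using hosc
  set w : ℕ → ℝ := fun q => 2 ^ q * θ q with hw
  have hw0 : ∀ q, 0 ≤ w q := fun q => mul_nonneg (by positivity) (hθ q)
  set W := ∑ q ∈ Ico 3 (3 + N), w q with hW
  have hW0 : 0 ≤ W := Finset.sum_nonneg (fun q _ => hw0 q)
  obtain ⟨C, c1, c2, c3, c4⟩ := select (fun q r j => j / (kk r / kk q)) nn kap w hw0 nn_mul nn_pos (3 + N) W hW0 N 3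
    (by ring) (le_refl _) I (fun r => (hc r).le)
  have hCI : ∀ q, 3 ≤ q → q < 3 + N → C q ⊆ I q := fun q h1 h2 => c1 q (Finset.mem_Ico.mpr ⟨h1, h2⟩)
  -- validity
  have hin : ∀ q i, i ∈ I q → -π ≤ s q i ∧ s q i ≤ t q i ∧ t q i ≤ π := by
    intro q i hi
    refine ⟨le_trans (gp_ge _ _) (hs1 q i hi), hs2 q i hi, le_trans (hs3 q i hi) (gp_le_pi ?_)⟩
    have := Finset.mem_range.mp (hI q hi)
    omega
  have hlevpair : ∀ q, 3 ≤ q → q < 3 + N → (lev C s t q).Pairwise (fun I J => I.2 ≤ J.1 ∨ J.2 ≤ I.1) := by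
    intro q h1 h2
    unfold lev
    rw [List.pairwise_map]
    refine List.Nodup.pairwise_of_forall_ne (Finset.nodup_toList _) (fun i hi j hj hij => ?_)
    rw [Finset.mem_toList] at hi hj
    have hi' := hCI q h1 h2 hi
    have hj' := hCI q h1 h2 hj
    exact no_overlap_same hij (hs1 q i hi') (hs3 q i hi') (hs1 q j hj') (hs3 q j hj')
  have hvalid : ∀ n, n ≤ N → Valid (LL C s t n) := by
    intro n
    induction n with
    | zero => intro _; simp [LL, Valid]
    | succ n ih =>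
      intro hn
      have ihn := ih (by omega)
      refine ⟨?_, ?_⟩
      · intro J hJ
        obtain ⟨q, h1, h2, i, hi, rfl⟩ := mem_LL hJ
        exact hin q i (hCI q h1 (by omega) hi)
      · rw [LL, List.pairwise_append]
        refine ⟨ihn.2, hlevpair _ (by omega) (by omega), ?_⟩
        intro J hJ J' hJ'
        obtain ⟨q, h1, h2, i, hi, rfl⟩ := mem_LL hJ
        obtain ⟨j, hj, rfl⟩ := mem_lev.mp hJ'
        have hi' := hCI q h1 (by omega) hi
        have hj' := hCI (3 + n) (by omega) (by omega) hj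
        refine no_overlap (a := q) (b := 3 + n) (i := i) (j := j) h2 ?_ (hs1 q i hi') (hs3 q i hi')
          (hs1 _ j hj') (hs3 _ j hj')
        intro heq
        have := c3 q (3 + n) h1 h2 (by omega) j hj
        rw [heq] at this
        exact this hi
  have hlen : ∀ n, n ≤ N → (LL C s t n).length + 1 ≤ 2 * kap (2 + n) := by
    intro n
    induction n with
    | zero => intro _; simp [LL]; have := two_le_kap 2; omega
    | succ n ih =>
      intro hn
      have ihn := ih (by omega)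
      rw [LL, List.length_append, length_lev]
      have hcard : (C (3 + n)).card ≤ kap (3 + n) := by
        rcases c2 (3 + n) (Finset.mem_Ico.mpr ⟨by omega, by omega⟩) with h0 | h0
        · rw [h0]; simp
        · rw [h0]; exact nn_le _
      have h1 : 2 * kap (2 + n) ≤ kap (3 + n) := by
        have e : 3 + n = (2 + n) + 1 := by ring
        rw [e, kap_succ]
        exact Nat.mul_le_mul_right _ (two_le_kap _)
      have e : 2 + (n + 1) = 3 + n := by ring
      rw [e]
      omega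
  have hsum : ∀ n, n ≤ N → ∑ q ∈ Ico 3 (3 + n), (if C q = ∅ then 0 else w q / 2) ≤ hs g (LL C s t n) 0 := by
    intro n
    induction n with
    | zero => intro _; simp [LL, hs]
    | succ n ih =>
      intro hn
      have ihn := ih (by omega)
      have e : 3 + (n + 1) = 3 + n + 1 := by ring
      rw [e, Finset.sum_Ico_succ_top (by omega), LL, hs_append, zero_add]
      refine add_le_add ihn ?_
      by_cases h0 : C (3 + n) = ∅
      · simp only [h0, if_true]; exact hs_nonneg _ _ _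
      · simp only [h0, if_false]
        have hcard : (C (3 + n)).card = nn (3 + n) := by
          rcases c2 (3 + n) (Finset.mem_Ico.mpr ⟨by omega, by omega⟩) with h1 | h1
          · exact absurd h1 h0
          · exact h1
        have hb := hs_block g (hθ (3 + n)) (lev C s t (3 + n)) (LL C s t n).length (by
          intro J hJ
          obtain ⟨j, hj, rfl⟩ := mem_lev.mp hJ
          exact hs4 (3 + n) j (hCI _ (by omega) (by omega) hj))
        rw [length_lev, hcard] at hb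
        have hl := log_ratio (q := 3 + n) (by omega) (s := (LL C s t n).length) (by
          have := hlen n (by omega)
          have e : 3 + n - 1 = 2 + n := by omega
          rw [e]; exact this)
        refine le_trans ?_ hb
        calc w (3 + n) / 2 = θ (3 + n) * (2 ^ (3 + n) / 2) := by rw [hw]; ring
          _ ≤ _ := mul_le_mul_of_nonneg_left hl (hθ _)
  have hfin := le_trans (hsum N (le_refl _)) (hs_le_of_HV hV h (hvalid N (le_refl _)))
  -- bad levels
  have hbad : ∑ r ∈ Ico 3 (3 + N), (if C r = ∅ then w r else 0) ≤ W / 4 := by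
    refine le_trans c4 ?_
    have e1 : ∑ r ∈ Ico 3 (3 + N), w r * (((kap r : ℝ) - (I r).card) / kap r) = 0 := by
      refine Finset.sum_eq_zero (fun r _ => ?_)
      rw [hc]; simp
    have e2 : ∑ r ∈ Ico 3 (3 + N), (1 / 2 : ℝ) ^ (r + 1) ≤ 1 / 8 := by
      have : ∀ n, ∑ r ∈ Ico 3 (3 + n), (1 / 2 : ℝ) ^ (r + 1) = 1 / 8 - (1 / 2 : ℝ) ^ (n + 3) := by
        intro n
        induction n with
        | zero => norm_num
        | succ n ih =>
          have e : 3 + (n + 1) = 3 + n + 1 := by ring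
          rw [e, Finset.sum_Ico_succ_top (by omega), ih]
          rw [show 3 + n + 1 = (n + 3) + 1 by ring, pow_succ]
          rw [show n + 1 + 3 = (n + 3) + 1 by ring, pow_succ]
          ring
      rw [this N]
      have : (0 : ℝ) ≤ (1 / 2 : ℝ) ^ (N + 3) := by positivity
      linarith
    rw [e1, zero_add]
    nlinarith
  have hsplit : W = ∑ r ∈ Ico 3 (3 + N), (if C r = ∅ then w r else 0)
      + 2 * ∑ q ∈ Ico 3 (3 + N), (if C q = ∅ then 0 else w q / 2) := by
    rw [Finset.mul_sum, ← Finset.sum_add_distrib, hW]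
    refine Finset.sum_congr rfl (fun q _ => ?_)
    by_cases h0 : C q = ∅
    · simp [h0]
    · simp [h0]; ring
  linarith

end Pool.Agent.Helper187.HBV
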