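import Mathlib

open MeasureTheory Real

namespace Pool.Agent.Helper187.HBV

/-- normalised Lebesgue measure on `(-π, π]`. -/
noncomputable def nu : Measure ℝ := ENNReal.ofReal (1 / (2 * π)) • volume.restrict (Set.Ioc (-π) π)

instance : IsProbabilityMeasure nu := by
  constructor
  simp only [nu, Measure.smul_apply, Measure.restrict_apply MeasurableSet.univ, Set.univ_inter, Real.volume_Ioc,
    smul_eq_mul]
  rw [← ENNReal.ofReal_mul (by positivity)]
  have : 1 / (2 * π) * (π - -π) = 1 := by
    have := Real.pi_pos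
    field_simp
    ring
  rw [this]; simp

theorem integral_nu {E : Type*} [NormedAddCommGroup E] [NormedSpace ℝ E] (f : ℝ → E) :
    ∫ t, f t ∂nu = (1 / (2 * π)) • ∫ t in (-π)..π, f t := by
  rw [nu, integral_smul_measure, intervalIntegral.integral_of_le (by linarith [Real.pi_pos])]
  congr 1
  exact ENNReal.toReal_ofReal (by have := Real.pi_pos; positivity)

theorem integral_nu_shift {E : Type*} [NormedAddCommGroup E] [NormedSpace ℝ E] (f : ℝ → E)
    (hf : Function.Periodic f (2 * π)) (x : ℝ) :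
    ∫ t, f (t - x) ∂nu = ∫ t, f t ∂nu := by
  rw [integral_nu, integral_nu]
  congr 1
  rw [intervalIntegral.integral_comp_sub_right]
  have := hf.intervalIntegral_add_eq (-π - x) (-π)
  have e1 : -π - x + 2 * π = π - x := by ring
  have e2 : -π + 2 * π = π := by ring
  rw [e1, e2] at this
  exact this

theorem integral_nu_neg {E : Type*} [NormedAddCommGroup E] [NormedSpace ℝ E] (f : ℝ → E) :
    ∫ t, f (-t) ∂nu = ∫ t, f t ∂nu := by
  rw [integral_nu, integral_nu]
  congr 1
  have := intervalIntegral.integral_comp_neg (a := -π) (b := π) f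
  rw [this]; simp

theorem integral_nu_shift' {E : Type*} [NormedAddCommGroup E] [NormedSpace ℝ E] (f : ℝ → E)
    (hf : Function.Periodic f (2 * π)) (x : ℝ) :
    ∫ t, f (x - t) ∂nu = ∫ t, f t ∂nu := by
  have h1 := integral_nu_shift (fun t => f (-t)) (fun t => by
    have := hf (-t - 2 * π)
    simp only
    rw [show -(t + 2 * π) = -t - 2 * π by ring, ← this]
    congr 1; ring) x
  simp only [neg_sub] at h1
  rw [h1, integral_nu_neg]

/-! ### Dirichlet kernel -/

noncomputable def Dk (M : ℕ) (t : ℝ) : ℝ := 1 + ∑ j ∈ Finset.range M, 2 * cos ((j + 1) * t)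

theorem Dk_cont (M : ℕ) : Continuous (Dk M) := by
  unfold Dk; fun_prop

theorem Dk_abs (M : ℕ) (t : ℝ) : |Dk M t| ≤ 2 * M + 1 := by
  unfold Dk
  refine le_trans (abs_add_le _ _) ?_
  have : |∑ j ∈ Finset.range M, 2 * cos (((j : ℝ) + 1) * t)| ≤ ∑ j ∈ Finset.range M, 2 := by
    refine le_trans (Finset.abs_sum_le_sum_abs _ _) (Finset.sum_le_sum (fun j _ => ?_))
    rw [abs_mul, abs_two]
    have := Real.abs_cos_le_one (((j : ℝ) + 1) * t)
    linarith
  simp only [Finset.sum_const, Finset.card_range, nsmul_eq_mul] at this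
  rw [abs_one]; linarith

theorem Dk_even (M : ℕ) (t : ℝ) : Dk M (-t) = Dk M t := by
  unfold Dk
  congr 1
  refine Finset.sum_congr rfl (fun j _ => ?_)
  rw [mul_neg, Real.cos_neg]

theorem Dk_sin (M : ℕ) (t : ℝ) : sin (t / 2) * Dk M t = sin ((M + 1 / 2) * t) := by
  unfold Dk
  induction M with
  | zero => simp; congr 1; ring
  | succ n ih =>
    rw [Finset.sum_range_succ, ← add_assoc, mul_add, ih]
    push_cast
    have e1 : ((n : ℝ) + 1 / 2) * t = (n + 1) * t - t / 2 := by ring
    have e2 : ((n : ℝ) + 1 + 1 / 2) * t = (n + 1) * t + t / 2 := by ring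
    rw [e1, e2, Real.sin_sub, Real.sin_add]
    ring

theorem Dk_periodic (M : ℕ) : Function.Periodic (Dk M) (2 * π) := by
  intro t
  unfold Dk
  congr 1
  refine Finset.sum_congr rfl (fun j _ => ?_)
  congr 1
  have : ((j : ℝ) + 1) * (t + 2 * π) = (j + 1) * t + ((j + 1 : ℕ) : ℝ) * (2 * π) := by push_cast; ring
  rw [this, Real.cos_add_nat_mul_two_pi]

theorem exp_sum_eq (M : ℕ) (t : ℝ) :
    ∑ j ∈ Finset.Icc (-(M : ℤ)) M, Complex.exp (Complex.I * (j * t)) = (Dk M t : ℂ) := by
  induction M with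
  | zero => simp [Dk]
  | succ n ih =>
    have hset : Finset.Icc (-((n + 1 : ℕ) : ℤ)) ((n + 1 : ℕ) : ℤ)
        = insert ((n : ℤ) + 1) (insert (-((n : ℤ) + 1)) (Finset.Icc (-(n : ℤ)) n)) := by
      ext j
      simp only [Finset.mem_Icc, Finset.mem_insert]
      push_cast
      omega
    rw [hset, Finset.sum_insert, Finset.sum_insert, ih]
    · unfold Dk
      rw [Finset.sum_range_succ]
      push_cast
      have : (2 : ℂ) * Complex.cos (((n : ℂ) + 1) * t) = Complex.exp (Complex.I * (((n : ℂ) + 1) * t)) + Complex.exp (Complex.I * ((-1 + -(n : ℂ)) * t)) := by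
        rw [Complex.cos]
        have e1 : (((n : ℂ) + 1) * t) * Complex.I = Complex.I * (((n : ℂ) + 1) * t) := by ring
        have e2 : (-(((n : ℂ) + 1) * t)) * Complex.I = Complex.I * ((-1 + -(n : ℂ)) * t) := by ring
        rw [e1, e2]; ring
      rw [this]
      have e3 : (-((n : ℂ) + 1)) = -1 + -(n : ℂ) := by ring
      rw [e3]
      ring
    · simp only [Finset.mem_Icc]; omega
    · simp only [Finset.mem_insert, Finset.mem_Icc]; omega

theorem integral_exp_nu (n : ℤ) : ∫ t, Complex.exp (Complex.I * (n * t)) ∂nu = if n = 0 then 1 else 0 := by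
  rw [integral_nu]
  by_cases h : n = 0
  · subst h
    simp only [Int.cast_zero, zero_mul, mul_zero, Complex.exp_zero, intervalIntegral.integral_const, if_true]
    rw [sub_neg_eq_add, smul_smul]
    have := Real.pi_pos
    have : 1 / (2 * π) * (π + π) = 1 := by field_simp; ring
    rw [this, one_smul]
  · simp only [h, if_false]
    have hn : (Complex.I * (n : ℂ)) ≠ 0 := mul_ne_zero Complex.I_ne_zero (by exact_mod_cast h)
    have h1 := integral_exp_mul_complex (a := -π) (b := π) hn
    have h2 : ∫ t in (-π)..π, Complex.exp (Complex.I * ((n : ℂ) * t)) = ∫ t in (-π)..π, Complex.exp (Complex.I * (n : ℂ) * t) := by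
      congr 1; ext t; ring_nf
    rw [h2, h1]
    have h3 : Complex.exp (Complex.I * n * (π : ℝ)) = Complex.exp (Complex.I * n * ((-π : ℝ) : ℂ)) := by
      have : Complex.I * n * (π : ℝ) = Complex.I * n * ((-π : ℝ) : ℂ) + n * (2 * π * Complex.I) := by
        push_cast; ring
      rw [this, Complex.exp_add, Complex.exp_int_mul_two_pi_mul_I, mul_one]
    rw [h3]; simp

theorem exp_continuous (n : ℤ) : Continuous (fun t : ℝ => Complex.exp (Complex.I * (n * t))) := by
  fun_prop

theorem integrable_nu_of_continuous {E : Type*} [NormedAddCommGroup E] {f : ℝ → E} (hf : Continuous f) :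
    Integrable f nu := by
  unfold nu
  refine Integrable.smul_measure ?_ ENNReal.ofReal_ne_top
  exact (hf.integrableOn_Icc (a := -π) (b := π)).mono_set Set.Ioc_subset_Icc_self

theorem Dk_conv (M N : ℕ) (x y : ℝ) :
    ∫ t, Dk M (x - t) * Dk N (t - y) ∂nu = Dk (min M N) (x - y) := by
  have h : ((∫ t, Dk M (x - t) * Dk N (t - y) ∂nu : ℝ) : ℂ) = (Dk (min M N) (x - y) : ℂ) := by
    rw [← integral_complex_ofReal]
    have h1 : ∀ t : ℝ, ((Dk M (x - t) * Dk N (t - y) : ℝ) : ℂ)
        = ∑ j ∈ Finset.Icc (-(M : ℤ)) M, ∑ k ∈ Finset.Icc (-(N : ℤ)) N,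
          (Complex.exp (Complex.I * (j * x)) * Complex.exp (-(Complex.I * (k * y))))
            * Complex.exp (Complex.I * ((k - j : ℤ) * t)) := by
      intro t
      push_cast
      rw [← exp_sum_eq, ← exp_sum_eq, Finset.sum_mul_sum]
      refine Finset.sum_congr rfl (fun j _ => Finset.sum_congr rfl (fun k _ => ?_))
      rw [← Complex.exp_add, ← Complex.exp_add, ← Complex.exp_add]
      congr 1
      push_cast
      ring
    have h2 : ∫ t, ((Dk M (x - t) * Dk N (t - y) : ℝ) : ℂ) ∂nu
        = ∑ j ∈ Finset.Icc (-(M : ℤ)) M, ∑ k ∈ Finset.Icc (-(N : ℤ)) N,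
          (Complex.exp (Complex.I * (j * x)) * Complex.exp (-(Complex.I * (k * y))))
            * (if (k - j : ℤ) = 0 then 1 else 0) := by
      rw [integral_congr_ae (Filter.Eventually.of_forall h1)]
      rw [integral_finsetSum]
      · refine Finset.sum_congr rfl (fun j _ => ?_)
        rw [integral_finsetSum]
        · refine Finset.sum_congr rfl (fun k _ => ?_)
          rw [integral_const_mul, integral_exp_nu]
        · intro k _
          exact (integrable_nu_of_continuous (exp_continuous _)).const_mul _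
      · intro j _
        refine integrable_finsetSum _ (fun k _ => ?_)
        exact (integrable_nu_of_continuous (exp_continuous _)).const_mul _
    refine h2.trans ?_
    rw [← exp_sum_eq]
    have h3 : ∀ j ∈ Finset.Icc (-(M : ℤ)) M, ∑ k ∈ Finset.Icc (-(N : ℤ)) N,
          (Complex.exp (Complex.I * (j * x)) * Complex.exp (-(Complex.I * (k * y))))
            * (if (k - j : ℤ) = 0 then 1 else 0)
          = if j ∈ Finset.Icc (-(N : ℤ)) N then Complex.exp (Complex.I * (j * (x - y : ℝ))) else 0 := by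
      intro j _
      by_cases hj : j ∈ Finset.Icc (-(N : ℤ)) N
      · rw [if_pos hj, Finset.sum_eq_single j]
        · simp only [sub_self, if_true, mul_one]
          rw [← Complex.exp_add]
          congr 1
          push_cast
          ring
        · intro k _ hk
          rw [if_neg (by omega), mul_zero]
        · intro hj'; exact absurd hj hj'
      · rw [if_neg hj]
        refine Finset.sum_eq_zero (fun k hk => ?_)
        rw [if_neg, mul_zero]
        intro h
        have : k = j := by omega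
        exact hj (this ▸ hk)
    rw [Finset.sum_congr rfl h3, ← Finset.sum_filter]
    refine Finset.sum_congr ?_ (fun j _ => ?_)
    · ext j
      simp only [Finset.mem_filter, Finset.mem_Icc]
      push_cast
      omega
    · push_cast
      rfl
  exact_mod_cast h

/-! ### Majorant -/

noncomputable def Kk (R : ℕ) (t : ℝ) : ℝ := (2 * R + 1) / max 1 ((2 * R + 1) * |sin (t / 2)|)

theorem max_pos' (R : ℕ) (t : ℝ) : 0 < max 1 ((2 * (R : ℝ) + 1) * |sin (t / 2)|) :=
  lt_of_lt_of_le one_pos (le_max_left _ _)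

theorem Kk_cont (R : ℕ) : Continuous (Kk R) := by
  unfold Kk
  refine Continuous.div continuous_const ?_ (fun t => (max_pos' R t).ne')
  fun_prop

theorem Kk_nonneg (R : ℕ) (t : ℝ) : 0 ≤ Kk R t := by
  unfold Kk
  have := max_pos' R t
  positivity

theorem Kk_le (R : ℕ) (t : ℝ) : Kk R t ≤ 2 * R + 1 := by
  unfold Kk
  rw [div_le_iff₀ (max_pos' R t)]
  have h1 : (1 : ℝ) ≤ max 1 ((2 * (R : ℝ) + 1) * |sin (t / 2)|) := le_max_left _ _
  nlinarith [(by positivity : (0 : ℝ) ≤ 2 * (R : ℝ) + 1)]

theorem Kk_abs (R : ℕ) (t : ℝ) : |Kk R t| ≤ 2 * R + 1 := by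
  rw [abs_of_nonneg (Kk_nonneg R t)]; exact Kk_le R t

theorem Kk_even (R : ℕ) (t : ℝ) : Kk R (-t) = Kk R t := by
  unfold Kk
  rw [neg_div, Real.sin_neg, abs_neg]

theorem Kk_periodic (R : ℕ) : Function.Periodic (Kk R) (2 * π) := by
  intro t
  unfold Kk
  have : (t + 2 * π) / 2 = t / 2 + π := by ring
  rw [this, Real.sin_add_pi, abs_neg]

theorem Dk_le_Kk {M R : ℕ} (h : M ≤ R) (t : ℝ) : |Dk M t| ≤ Kk R t := by
  unfold Kk
  rw [le_div_iff₀ (max_pos' R t)]
  have hMR : (M : ℝ) ≤ R := by exact_mod_cast h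
  have h1 := Dk_abs M t
  have h2 : |Dk M t| * |sin (t / 2)| ≤ 1 := by
    rw [← abs_mul, mul_comm, Dk_sin]
    exact Real.abs_sin_le_one _
  rcases le_total 1 ((2 * (R : ℝ) + 1) * |sin (t / 2)|) with h3 | h3
  · rw [max_eq_right h3]
    calc |Dk M t| * ((2 * (R : ℝ) + 1) * |sin (t / 2)|) = (2 * (R : ℝ) + 1) * (|Dk M t| * |sin (t / 2)|) := by ring
      _ ≤ (2 * (R : ℝ) + 1) * 1 := by gcongr
      _ = _ := by ring
  · rw [max_eq_left h3, mul_one]
    linarith

theorem Kk_le_inv {R : ℕ} {t : ℝ} (h0 : 0 < t) (hπ : t ≤ π) : Kk R t ≤ π / t := by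
  unfold Kk
  rw [div_le_div_iff₀ (max_pos' R t) h0]
  have h1 : 2 / π * (t / 2) ≤ sin (t / 2) := Real.mul_le_sin (by positivity) (by linarith)
  have hs : 0 ≤ sin (t / 2) := le_trans (by have := Real.pi_pos; positivity) h1
  have h2 : t ≤ π * sin (t / 2) := by
    have h3 : 2 / π * (t / 2) * π = t := by have := Real.pi_pos; field_simp
    nlinarith [Real.pi_pos]
  calc (2 * (R : ℝ) + 1) * t ≤ (2 * (R : ℝ) + 1) * (π * sin (t / 2)) := by gcongr
    _ = π * ((2 * (R : ℝ) + 1) * |sin (t / 2)|) := by rw [abs_of_nonneg hs]; ring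
    _ ≤ π * max 1 ((2 * (R : ℝ) + 1) * |sin (t / 2)|) := by
      have := Real.pi_pos
      gcongr
      exact le_max_right _ _

theorem Kk_int (R : ℕ) : ∫ t, Kk R t ∂nu ≤ 4 + log (2 * R + 1) := by
  rw [integral_nu]
  have hπ := Real.pi_pos
  have hπ3 := Real.pi_gt_three
  have hL : (1 : ℝ) ≤ 2 * R + 1 := by have : (0 : ℝ) ≤ R := Nat.cast_nonneg R; linarith
  set L : ℝ := 2 * R + 1 with hLdef
  have hL0 : 0 < L := by linarith
  have hLi : 0 < 1 / L := by positivity
  have hLi1 : 1 / L ≤ 1 := by rw [div_le_one hL0]; exact hL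
  have hint : ∀ a b, IntervalIntegrable (Kk R) volume a b := fun a b => (Kk_cont R).intervalIntegrable a b
  have h1 : ∫ t in (-π)..π, Kk R t = 2 * ∫ t in (0 : ℝ)..π, Kk R t := by
    rw [← intervalIntegral.integral_add_adjacent_intervals (hint (-π) 0) (hint 0 π)]
    have : ∫ t in (-π)..0, Kk R t = ∫ t in (0 : ℝ)..π, Kk R t := by
      have h := intervalIntegral.integral_comp_neg (a := 0) (b := π) (Kk R)
      simp only [Kk_even, neg_zero] at h
      rw [← h]
    rw [this]; ring
  have h2 : ∫ t in (0 : ℝ)..π, Kk R t ≤ 1 + π * log (π * L) := by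
    rw [← intervalIntegral.integral_add_adjacent_intervals (hint 0 (1 / L)) (hint (1 / L) π)]
    have a1 : ∫ t in (0 : ℝ)..(1 / L), Kk R t ≤ ∫ t in (0 : ℝ)..(1 / L), L := by
      refine intervalIntegral.integral_mono_on hLi.le (hint _ _) (by simp) (fun t _ => ?_)
      exact Kk_le R t
    have a2 : ∫ t in (0 : ℝ)..(1 / L), L = 1 := by
      rw [intervalIntegral.integral_const, smul_eq_mul]; field_simp; ring
    have b1 : ∫ t in (1 / L)..π, Kk R t ≤ ∫ t in (1 / L)..π, π * (1 / t) := by
      have hle : 1 / L ≤ π := by linarith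
      refine intervalIntegral.integral_mono_on hle (hint _ _) ?_ (fun t ht => ?_)
      · refine ContinuousOn.intervalIntegrable ?_
        refine continuousOn_const.mul ?_
        refine continuousOn_const.div continuousOn_id (fun t ht => ?_)
        rw [Set.uIcc_of_le hle] at ht
        exact (lt_of_lt_of_le hLi ht.1).ne'
      · have := Kk_le_inv (R := R) (lt_of_lt_of_le hLi ht.1) ht.2
        rw [mul_one_div]; exact this
    have b2 : ∫ t in (1 / L)..π, π * (1 / t) = π * log (π * L) := by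
      rw [intervalIntegral.integral_const_mul, integral_one_div_of_pos hLi hπ]
      congr 2
      field_simp
    linarith
  rw [h1, smul_eq_mul]
  have h3 : log (π * L) = log π + log L := Real.log_mul hπ.ne' hL0.ne'
  have h4 : log π ≤ π - 1 := Real.log_le_sub_one_of_pos hπ
  have hπ4 := Real.pi_lt_d2
  have hlogL : 0 ≤ log L := Real.log_nonneg hL
  calc 1 / (2 * π) * (2 * ∫ t in (0 : ℝ)..π, Kk R t) = (1 / π) * ∫ t in (0 : ℝ)..π, Kk R t := by
        field_simp
    _ ≤ (1 / π) * (1 + π * log (π * L)) := by gcongr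
    _ = 1 / π + log π + log L := by rw [h3]; field_simp; ring
    _ ≤ 4 + log L := by
      have : 1 / π ≤ 1 / 3 := by
        apply one_div_le_one_div_of_le (by norm_num) hπ3.le
      linarith

/-! ### Fejer kernel -/

noncomputable def Fk (n : ℕ) (t : ℝ) : ℝ := (∑ M ∈ Finset.range n, Dk M t) / n

theorem Fk_cont (n : ℕ) : Continuous (Fk n) := by
  unfold Fk
  exact (continuous_finsetSum _ (fun M _ => Dk_cont M)).div_const _

theorem Fk_even (n : ℕ) (t : ℝ) : Fk n (-t) = Fk n t := by
  unfold Fk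
  simp only [Dk_even]

theorem Fk_periodic (n : ℕ) : Function.Periodic (Fk n) (2 * π) := by
  intro t
  unfold Fk
  congr 1
  exact Finset.sum_congr rfl (fun M _ => Dk_periodic M t)

theorem Dk_sum_sin (n : ℕ) (t : ℝ) :
    sin (t / 2) ^ 2 * ∑ M ∈ Finset.range n, Dk M t = sin (n * t / 2) ^ 2 := by
  have h : sin (t / 2) ^ 2 * ∑ M ∈ Finset.range n, Dk M t = (1 - cos (n * t)) / 2 := by
    induction n with
    | zero => simp
    | succ n ih =>
      rw [Finset.sum_range_succ, mul_add, ih, sq, mul_assoc, Dk_sin]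
      push_cast
      have e1 : cos ((n : ℝ) * t) = cos ((n + 1 / 2) * t - t / 2) := by congr 1; ring
      have e2 : cos (((n : ℝ) + 1) * t) = cos ((n + 1 / 2) * t + t / 2) := by congr 1; ring
      rw [e1, e2, Real.cos_sub, Real.cos_add]
      ring
  rw [h]
  have : (n : ℝ) * t = 2 * (n * t / 2) := by ring
  rw [this, Real.cos_two_mul]
  have := Real.sin_sq_add_cos_sq (n * t / 2)
  have e : 2 * ((n : ℝ) * t / 2) / 2 = n * t / 2 := by ring
  rw [e]
  linarith

theorem Fk_nonneg (n : ℕ) (t : ℝ) : 0 ≤ Fk n t := by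
  unfold Fk
  refine div_nonneg ?_ (Nat.cast_nonneg n)
  by_cases h : sin (t / 2) = 0
  · refine Finset.sum_nonneg (fun M _ => ?_)
    unfold Dk
    obtain ⟨k, hk⟩ := Real.sin_eq_zero_iff.mp h
    have ht : t = k * (2 * π) := by linarith
    have : ∀ j ∈ Finset.range M, (0 : ℝ) ≤ 2 * cos (((j : ℝ) + 1) * t) := by
      intro j _
      have : ((j : ℝ) + 1) * t = (((j + 1 : ℕ) * k : ℤ) : ℝ) * (2 * π) := by
        rw [ht]; push_cast; ring
      rw [this, Real.cos_int_mul_two_pi]; norm_num
    have := Finset.sum_nonneg this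
    linarith
  · have h1 := Dk_sum_sin n t
    have h2 : 0 < sin (t / 2) ^ 2 := by positivity
    by_contra hneg
    push Not at hneg
    have : sin (t / 2) ^ 2 * ∑ M ∈ Finset.range n, Dk M t < 0 := mul_neg_of_pos_of_neg h2 hneg
    rw [h1] at this
    exact absurd this (not_lt.mpr (sq_nonneg _))

theorem Fk_le (n : ℕ) (t : ℝ) : sin (t / 2) ^ 2 * (n * Fk n t) ≤ 1 := by
  unfold Fk
  rcases Nat.eq_zero_or_pos n with rfl | hn
  · simp
  · have : (n : ℝ) ≠ 0 := by positivity
    rw [mul_div_cancel₀ _ this, Dk_sum_sin]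
    exact Real.sin_sq_le_one _

theorem Fk_abs (n : ℕ) (t : ℝ) : |Fk n t| ≤ 2 * n + 1 := by
  unfold Fk
  rcases Nat.eq_zero_or_pos n with rfl | hn
  · simp
  · have hn0 : (0 : ℝ) < n := by positivity
    rw [abs_div, abs_of_pos hn0, div_le_iff₀ hn0]
    refine le_trans (Finset.abs_sum_le_sum_abs _ _) ?_
    have : ∑ M ∈ Finset.range n, |Dk M t| ≤ ∑ M ∈ Finset.range n, (2 * (n : ℝ) + 1) := by
      refine Finset.sum_le_sum (fun M hM => le_trans (Dk_abs M t) ?_)
      have : (M : ℝ) ≤ n := by exact_mod_cast (Finset.mem_range.mp hM).le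
      linarith
    simp only [Finset.sum_const, Finset.card_range, nsmul_eq_mul] at this
    linarith

theorem Dk_zero (t : ℝ) : Dk 0 t = 1 := by simp [Dk]

theorem Dk_int (M : ℕ) (x : ℝ) : ∫ t, Dk M (x - t) ∂nu = 1 := by
  have := Dk_conv M 0 x 0
  simp only [Dk_zero, mul_one, Nat.min_zero] at this
  exact this

theorem Fk_int {n : ℕ} (hn : 0 < n) (x : ℝ) : ∫ t, Fk n (x - t) ∂nu = 1 := by
  unfold Fk
  rw [integral_div, integral_finsetSum]
  · simp only [Dk_int, Finset.sum_const, Finset.card_range, nsmul_eq_mul, mul_one]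
    have : (n : ℝ) ≠ 0 := by positivity
    field_simp
  · intro M _
    exact integrable_nu_of_continuous ((Dk_cont M).comp (continuous_const.sub continuous_id))

theorem Dk_Fk {M n : ℕ} (h : n ≤ M) (x y : ℝ) :
    ∫ t, Dk M (x - t) * Fk n (t - y) ∂nu = Fk n (x - y) := by
  unfold Fk
  have h1 : ∀ t, Dk M (x - t) * ((∑ N ∈ Finset.range n, Dk N (t - y)) / n)
      = (∑ N ∈ Finset.range n, Dk M (x - t) * Dk N (t - y)) / n := by
    intro t
    rw [← Finset.mul_sum, mul_div_assoc]
  rw [integral_congr_ae (Filter.Eventually.of_forall h1), integral_div, integral_finsetSum]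
  · congr 1
    refine Finset.sum_congr rfl (fun N hN => ?_)
    rw [Dk_conv, min_eq_right]
    exact le_trans (Finset.mem_range.mp hN).le h
  · intro N _
    exact integrable_nu_of_continuous (((Dk_cont M).comp (continuous_const.sub continuous_id)).mul
      ((Dk_cont N).comp (continuous_id.sub continuous_const)))

end Pool.Agent.Helper187.HBV
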