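import Mathlib
import Pool.Agent.Helper187.HBV.Kern
import Pool.Agent.Helper187.HBV.HVar

namespace Pool.Agent.Helper187.HBV

open Finset Real MeasureTheory

/-- Fejer mean. -/
noncomputable def sg (m : ℕ) (g : ℝ → ℝ) (x : ℝ) : ℝ := ∫ t, Fk m (x - t) * g t ∂nu

theorem HV.sub_le {g : ℝ → ℝ} {V : ℝ} (hV : 0 ≤ V) (h : HV g V) {s t : ℝ} (hs0 : -π ≤ s) (hst : s ≤ t) (ht : t ≤ π) :
    |g t - g s| ≤ V := by
  have h1 := hs_le_of_HV hV h (l := [(s, t)]) (by
    refine ⟨?_, by simp⟩
    intro I hI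
    rw [List.mem_singleton] at hI
    subst hI
    exact ⟨hs0, hst, ht⟩)
  simpa [hs] using h1

theorem HV.sub_le' {g : ℝ → ℝ} {V : ℝ} (hV : 0 ≤ V) (h : HV g V) {s t : ℝ} (hs : -π ≤ s) (hs' : s ≤ π)
    (ht : -π ≤ t) (ht' : t ≤ π) : |g s - g t| ≤ V := by
  rcases le_total s t with hst | hst
  · rw [abs_sub_comm]; exact h.sub_le hV hs hst ht'
  · exact h.sub_le hV ht hst hs'

theorem ae_nu_mem : ∀ᵐ t ∂nu, t ∈ Set.Ioc (-π) π := by
  unfold nu
  exact Measure.ae_smul_measure (ae_restrict_mem measurableSet_Ioc) _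

theorem HV.integrable {g : ℝ → ℝ} {V : ℝ} (hV : 0 ≤ V) (h : HV g V) (hg : AEStronglyMeasurable g nu) :
    Integrable g nu := by
  have hπ := Real.pi_pos
  refine Integrable.of_bound hg (|g 0| + V) ?_
  filter_upwards [ae_nu_mem] with t ht
  rw [Real.norm_eq_abs]
  have h1 : |g t - g 0| ≤ V := h.sub_le' hV ht.1.le ht.2 (by linarith) hπ.le
  calc |g t| = |g 0 + (g t - g 0)| := by ring_nf
    _ ≤ |g 0| + |g t - g 0| := abs_add_le _ _
    _ ≤ _ := by linarith

theorem Fk_mul_int {g : ℝ → ℝ} (hg : Integrable g nu) (m : ℕ) (x : ℝ) :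
    Integrable (fun t => Fk m (x - t) * g t) nu := by
  refine hg.bdd_mul (c := 2 * m + 1) ((Fk_cont m).comp (continuous_const.sub continuous_id)).aestronglyMeasurable
    (Filter.Eventually.of_forall (fun t => ?_))
  rw [Real.norm_eq_abs]; exact Fk_abs m _

theorem Fk_integrable (m : ℕ) (x : ℝ) : Integrable (fun t => Fk m (x - t)) nu :=
  integrable_nu_of_continuous ((Fk_cont m).comp (continuous_const.sub continuous_id))

theorem sub_sg {g : ℝ → ℝ} (hg : Integrable g nu) {m : ℕ} (hm : 0 < m) (x : ℝ) :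
    g x - sg m g x = ∫ t, Fk m (x - t) * (g x - g t) ∂nu := by
  unfold sg
  have h1 : ∀ t, Fk m (x - t) * (g x - g t) = Fk m (x - t) * g x - Fk m (x - t) * g t := fun t => by ring
  rw [integral_congr_ae (Filter.Eventually.of_forall h1), integral_sub ((Fk_integrable m x).mul_const _) (Fk_mul_int hg m x),
    integral_mul_const, Fk_int hm]
  ring

/-- general estimate: if the kernel weighted increments are bounded by `a F + b` then so is the difference. -/
theorem sub_sg_le {g : ℝ → ℝ} (hg : Integrable g nu) {m : ℕ} (hm : 0 < m) {x a b : ℝ}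
    (h : ∀ t, -π < t → t ≤ π → Fk m (x - t) * |g x - g t| ≤ a * Fk m (x - t) + b) :
    |g x - sg m g x| ≤ a + b := by
  rw [sub_sg hg hm]
  refine le_trans (abs_integral_le_integral_abs) ?_
  have h1 : ∫ t, |Fk m (x - t) * (g x - g t)| ∂nu ≤ ∫ t, (a * Fk m (x - t) + b) ∂nu := by
    refine integral_mono_of_nonneg (Filter.Eventually.of_forall (fun _ => abs_nonneg _))
      (((Fk_integrable m x).const_mul a).add (integrable_const b)) ?_
    filter_upwards [ae_nu_mem] with t ht
    rw [abs_mul, abs_of_nonneg (Fk_nonneg m _)]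
    exact h t ht.1 ht.2
  rw [integral_add ((Fk_integrable m x).const_mul a) (integrable_const b), integral_const_mul, Fk_int hm] at h1
  simpa using h1

theorem sub_sg_le_V {g : ℝ → ℝ} {V : ℝ} (hV : 0 ≤ V) (h : HV g V) (hg : AEStronglyMeasurable g nu)
    {m : ℕ} (hm : 0 < m) {x : ℝ} (hx : -π ≤ x) (hx' : x ≤ π) : |g x - sg m g x| ≤ V := by
  have h1 := sub_sg_le (h.integrable hV hg) hm (x := x) (a := V) (b := 0) (fun t ht ht' => by
    rw [add_zero, mul_comm V]
    exact mul_le_mul_of_nonneg_left (h.sub_le' hV hx hx' ht.le ht') (Fk_nonneg m _))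
  simpa using h1

/-! ### oscillations on grid intervals -/

noncomputable def osc (g : ℝ → ℝ) (k i : ℕ) : ℝ :=
  sSup {x | ∃ s t, gp k i ≤ s ∧ s ≤ t ∧ t ≤ gp k (i + 1) ∧ x = |g t - g s|}

theorem osc_bdd {g : ℝ → ℝ} {V : ℝ} (hV : 0 ≤ V) (h : HV g V) {k i : ℕ} (hi : i < k) :
    BddAbove {x | ∃ s t, gp k i ≤ s ∧ s ≤ t ∧ t ≤ gp k (i + 1) ∧ x = |g t - g s|} := by
  refine ⟨V, ?_⟩
  rintro x ⟨s, t, h1, h2, h3, rfl⟩
  exact h.sub_le hV (le_trans (gp_ge _ _) h1) h2 (le_trans h3 (gp_le_pi hi))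

theorem le_osc {g : ℝ → ℝ} {V : ℝ} (hV : 0 ≤ V) (h : HV g V) {k i : ℕ} (hi : i < k) {s t : ℝ}
    (hs : gp k i ≤ s) (hs' : s ≤ gp k (i + 1)) (ht : gp k i ≤ t) (ht' : t ≤ gp k (i + 1)) :
    |g s - g t| ≤ osc g k i := by
  rcases le_total s t with hst | hst
  · rw [abs_sub_comm]
    exact le_csSup (osc_bdd hV h hi) ⟨s, t, hs, hst, ht', rfl⟩
  · exact le_csSup (osc_bdd hV h hi) ⟨t, s, ht, hst, hs', rfl⟩

theorem osc_nonneg {g : ℝ → ℝ} {V : ℝ} (hV : 0 ≤ V) (h : HV g V) {k i : ℕ} (hi : i < k) : 0 ≤ osc g k i :=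
  le_trans (abs_nonneg _) (le_osc hV h hi (le_refl (gp k i)) (gp_le (by omega)) (le_refl (gp k i)) (gp_le (by omega)))

theorem exists_of_osc {g : ℝ → ℝ} {k i : ℕ} {a : ℝ} (ha0 : 0 ≤ a) (ha : a ≤ osc g k i) :
    ∃ s t, gp k i ≤ s ∧ s ≤ t ∧ t ≤ gp k (i + 1) ∧ a / 2 ≤ |g t - g s| := by
  have hk : gp k i ≤ gp k (i + 1) := gp_le (by omega)
  rcases ha0.eq_or_lt with h0 | h0
  · exact ⟨gp k i, gp k i, le_refl _, le_refl _, hk, by rw [← h0]; simp⟩
  · have h1 : a / 2 < osc g k i := by linarith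
    have hne : {x | ∃ s t, gp k i ≤ s ∧ s ≤ t ∧ t ≤ gp k (i + 1) ∧ x = |g t - g s|}.Nonempty :=
      ⟨_, gp k i, gp k i, le_refl _, le_refl _, hk, rfl⟩
    obtain ⟨x, ⟨s, t, h2, h3, h4, rfl⟩, h5⟩ := exists_lt_of_lt_csSup hne h1
    exact ⟨s, t, h2, h3, h4, h5.le⟩

/-- Fejer kernel away from zero. -/
theorem Fk_far {m k : ℕ} (hm : 0 < m) (hk : 0 < k) {u : ℝ} (h1 : 2 * π / k ≤ |u|) (h2 : |u| ≤ 2 * π - 2 * π / k) :
    Fk m u ≤ k ^ 2 / (4 * m) := by
  have hπ := Real.pi_pos
  have hk0 : (0 : ℝ) < k := by exact_mod_cast hk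
  have hm0 : (0 : ℝ) < m := by exact_mod_cast hm
  set δ := |u| / 2 with hδ
  have hsin : sin (u / 2) ^ 2 = sin δ ^ 2 := by
    rw [hδ]
    rcases abs_cases u with ⟨h, _⟩ | ⟨h, _⟩
    · rw [h]
    · rw [h, neg_div, Real.sin_neg]; ring
  have hd1 : π / k ≤ δ := by
    rw [hδ, le_div_iff₀ (by norm_num)]
    calc π / k * 2 = 2 * π / k := by ring
      _ ≤ _ := h1
  have hd2 : δ ≤ π - π / k := by
    rw [hδ, div_le_iff₀ (by norm_num)]
    calc |u| ≤ 2 * π - 2 * π / k := h2
      _ = _ := by ring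
  have hlow : 2 / k ≤ sin δ := by
    rcases le_total δ (π / 2) with h | h
    · have h3 : 2 / π * δ ≤ sin δ := Real.mul_le_sin (by have : 0 < π / k := by positivity
                                                         linarith) h
      refine le_trans ?_ h3
      calc 2 / k = 2 / π * (π / k) := by field_simp
        _ ≤ 2 / π * δ := by gcongr
    · have h3 : 2 / π * (π - δ) ≤ sin (π - δ) := Real.mul_le_sin (by have : 0 < π / k := by positivity
                                                                     linarith) (by linarith)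
      rw [Real.sin_pi_sub] at h3
      refine le_trans ?_ h3
      calc 2 / k = 2 / π * (π / k) := by field_simp
        _ ≤ 2 / π * (π - δ) := by
          gcongr
          linarith
  have h4 := Fk_le m u
  rw [hsin] at h4
  have h5 : (2 / k) ^ 2 ≤ sin δ ^ 2 := pow_le_pow_left₀ (by positivity) hlow 2
  have h6 : (2 / k : ℝ) ^ 2 * (m * Fk m u) ≤ 1 := by
    refine le_trans (mul_le_mul_of_nonneg_right h5 (mul_nonneg hm0.le (Fk_nonneg m u))) h4
  rw [le_div_iff₀ (by positivity)]
  have h7 : (2 / k : ℝ) ^ 2 * (m * Fk m u) = 4 * m * Fk m u / k ^ 2 := by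
    field_simp; ring
  rw [h7, div_le_one (by positivity)] at h6
  linarith

/-- estimate at a good point. -/
theorem good_point {g : ℝ → ℝ} {V : ℝ} (hV : 0 ≤ V) (h : HV g V) (hg : AEStronglyMeasurable g nu)
    {m k i : ℕ} (hm : 0 < m) (hi1 : 1 ≤ i) (hi2 : i + 2 ≤ k) {α : ℝ} (hα : 0 ≤ α)
    (ha : osc g k (i - 1) ≤ α) (hb : osc g k i ≤ α) (hc : osc g k (i + 1) ≤ α)
    {x : ℝ} (hx : gp k i ≤ x) (hx' : x ≤ gp k (i + 1)) :
    |g x - sg m g x| ≤ 2 * α + V * (k ^ 2 / (4 * m)) := by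
  have hπ := Real.pi_pos
  have hk : 0 < k := by omega
  have hk0 : (0 : ℝ) < k := by exact_mod_cast hk
  have hxl : -π ≤ x := le_trans (gp_ge _ _) hx
  have hxr : x ≤ π := le_trans hx' (gp_le_pi (by omega))
  refine sub_sg_le (h.integrable hV hg) hm (fun t ht ht' => ?_)
  have hF := Fk_nonneg m (x - t)
  have hVt : |g x - g t| ≤ V := h.sub_le' hV hxl hxr ht.le ht'
  have hi' : i - 1 + 1 = i := by omega
  by_cases hnear : gp k (i - 1) ≤ t ∧ t ≤ gp k (i + 2)
  · have hle : |g x - g t| ≤ 2 * α := by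
      rcases le_total t (gp k i) with h1 | h1
      · have e1 := le_osc hV h (k := k) (i := i) (by omega) hx hx' (le_refl (gp k i)) (gp_le (by omega))
        have e2 := le_osc hV h (k := k) (i := i - 1) (s := gp k i) (t := t) (by omega) (gp_le (by omega)) (by rw [hi'])
          hnear.1 (by rw [hi']; exact h1)
        calc |g x - g t| = |(g x - g (gp k i)) + (g (gp k i) - g t)| := by ring_nf
          _ ≤ |g x - g (gp k i)| + |g (gp k i) - g t| := abs_add_le _ _
          _ ≤ 2 * α := by linarith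
      · rcases le_total t (gp k (i + 1)) with h2 | h2
        · have e1 := le_osc hV h (k := k) (i := i) (by omega) hx hx' h1 h2
          linarith
        · have e1 := le_osc hV h (k := k) (i := i) (t := gp k (i + 1)) (by omega) hx hx' (gp_le (by omega)) (le_refl _)
          have e2 := le_osc hV h (k := k) (i := i + 1) (s := gp k (i + 1)) (t := t) (by omega) (le_refl _) (gp_le (by omega))
            h2 hnear.2
          calc |g x - g t| = |(g x - g (gp k (i + 1))) + (g (gp k (i + 1)) - g t)| := by ring_nf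
            _ ≤ |g x - g (gp k (i + 1))| + |g (gp k (i + 1)) - g t| := abs_add_le _ _
            _ ≤ 2 * α := by linarith
    have h3 : 0 ≤ V * ((k : ℝ) ^ 2 / (4 * m)) := by positivity
    calc Fk m (x - t) * |g x - g t| ≤ Fk m (x - t) * (2 * α) := mul_le_mul_of_nonneg_left hle hF
      _ ≤ _ := by linarith
  · have hgi : ∀ j : ℕ, gp k j = -π + 2 * π / k * j := fun j => by unfold gp; ring
    have hstep : 0 < 2 * π / k := by positivity
    have hi1' : (1 : ℝ) ≤ i := by exact_mod_cast hi1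
    have hi2' : (i : ℝ) + 2 ≤ k := by exact_mod_cast hi2
    have hkk : 2 * π / k * k = 2 * π := by field_simp
    have hfar : Fk m (x - t) ≤ k ^ 2 / (4 * m) := by
      refine Fk_far hm hk ?_ ?_
      · rw [not_and_or, not_le, not_le] at hnear
        rw [le_abs]
        rcases hnear with h1 | h1
        · left
          rw [hgi] at h1 hx
          rw [Nat.cast_sub hi1] at h1
          push_cast at h1
          linarith
        · right
          rw [hgi] at h1 hx'
          push_cast at h1 hx'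
          linarith
      · rw [abs_le]
        constructor
        · rw [hgi] at hx
          have : 2 * π / k * 1 ≤ 2 * π / k * i := by gcongr
          linarith
        · rw [hgi] at hx'
          push_cast at hx'
          have : 2 * π / k * ((i : ℝ) + 1) ≤ 2 * π / k * (k - 1) := by
            gcongr; linarith
          have e : 2 * π / k * ((k : ℝ) - 1) = 2 * π - 2 * π / k := by rw [mul_sub, hkk, mul_one]
          linarith
    calc Fk m (x - t) * |g x - g t| ≤ (k ^ 2 / (4 * m)) * V := mul_le_mul hfar hVt (abs_nonneg _) (by positivity)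
      _ = V * (k ^ 2 / (4 * m)) := mul_comm _ _
      _ ≤ _ := by
        have := mul_nonneg (mul_nonneg (by norm_num : (0 : ℝ) ≤ 2) hα) hF
        linarith

end Pool.Agent.Helper187.HBV
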