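import Mathlib
import Pool.Agent.Helper187.HBV.OneD

namespace Pool.Agent.Helper187.HBV

open Finset Real MeasureTheory

theorem exists_level {g : ℝ → ℝ} {V : ℝ} (hV : 0 ≤ V) (h : HV g V) (q : ℕ) :
    ∃ (I : Finset ℕ) (α : ℝ), 0 ≤ α ∧ I ⊆ range (kk q) ∧ I.card = kap q ∧ (∀ i ∈ I, α ≤ osc g (kk q) i) ∧
      (∀ i < kk q, i ∉ I → osc g (kk q) i ≤ α) := by
  have hle : kap q ≤ (range (kk q)).card := by
    rw [Finset.card_range, kk_eq]
    exact Nat.le_mul_of_pos_right _ (kap_pos q)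
  obtain ⟨I, hI, hc, ht⟩ := exists_top (osc g (kk q)) (range (kk q)) (kap q) hle
  have hne : I.Nonempty := by rw [← Finset.card_pos, hc]; exact kap_pos q
  obtain ⟨i0, hi0, hmin⟩ := Finset.exists_min_image I (osc g (kk q)) hne
  refine ⟨I, osc g (kk q) i0, osc_nonneg hV h (Finset.mem_range.mp (hI hi0)), hI, hc, hmin, ?_⟩
  intro i hi hi'
  exact ht i0 hi0 i (Finset.mem_range.mpr hi) hi'

theorem nu_Icc_le {a b : ℝ} : nu (Set.Icc a b) ≤ ENNReal.ofReal ((b - a) / (2 * π)) := by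
  have hπ := Real.pi_pos
  unfold nu
  rw [Measure.smul_apply, smul_eq_mul]
  calc ENNReal.ofReal (1 / (2 * π)) * (volume.restrict (Set.Ioc (-π) π)) (Set.Icc a b)
      ≤ ENNReal.ofReal (1 / (2 * π)) * volume (Set.Icc a b) := by
        gcongr
        exact Measure.restrict_le_self
    _ = ENNReal.ofReal ((b - a) / (2 * π)) := by
      rw [Real.volume_Icc, ← ENNReal.ofReal_mul (by positivity)]
      congr 1; ring

theorem nu_grid {k i : ℕ} (hk : 0 < k) : nu (Set.Icc (gp k i) (gp k (i + 1))) ≤ ENNReal.ofReal (1 / k) := by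
  refine le_trans nu_Icc_le (le_of_eq ?_)
  congr 1
  unfold gp
  have hπ := Real.pi_pos
  have : (k : ℝ) ≠ 0 := by positivity
  push_cast
  field_simp
  ring

theorem exists_cell {k : ℕ} (hk : 0 < k) {x : ℝ} (hx : -π < x) (hx' : x ≤ π) :
    ∃ i < k, gp k i ≤ x ∧ x ≤ gp k (i + 1) := by
  have hπ := Real.pi_pos
  have hk0 : (0 : ℝ) < k := by exact_mod_cast hk
  set u := (x + π) / (2 * π) * k with hu
  have hu0 : 0 < u := by
    have : 0 < x + π := by linarith
    positivity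
  have huk : u ≤ k := by
    have : (x + π) / (2 * π) ≤ 1 := by rw [div_le_one (by positivity)]; linarith
    nlinarith
  have hc1 : 0 < ⌈u⌉₊ := Nat.ceil_pos.mpr hu0
  have hc2 : ⌈u⌉₊ ≤ k := Nat.ceil_le.mpr huk
  have hxu : x = -π + 2 * π * (u / k) := by rw [hu]; field_simp; ring
  refine ⟨⌈u⌉₊ - 1, by omega, ?_, ?_⟩
  · rw [hxu]
    unfold gp
    have : ((⌈u⌉₊ - 1 : ℕ) : ℝ) ≤ u := by
      rw [Nat.cast_sub hc1]
      have := Nat.ceil_lt_add_one hu0.le
      push_cast; linarith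
    gcongr
  · rw [hxu]
    unfold gp
    have : u ≤ ((⌈u⌉₊ - 1 + 1 : ℕ) : ℝ) := by
      rw [Nat.sub_add_cancel hc1]; exact Nat.le_ceil u
    gcongr

/-- indices of bad cells. -/
def badI (I : Finset ℕ) (k : ℕ) : Finset ℕ :=
  (range k).filter (fun i => i = 0 ∨ i + 1 = k ∨ i - 1 ∈ I ∨ i ∈ I ∨ i + 1 ∈ I)

theorem badI_card (I : Finset ℕ) (k : ℕ) : (badI I k).card ≤ 2 + 3 * I.card := by
  have h1 : badI I k ⊆ ({0} ∪ {k - 1}) ∪ (I.image (· + 1) ∪ I ∪ I.image (· - 1)) := by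
    intro i hi
    unfold badI at hi
    rw [Finset.mem_filter] at hi
    simp only [Finset.mem_union, Finset.mem_singleton, Finset.mem_image]
    rcases hi.2 with h | h | h | h | h
    · left; left; exact h
    · left; right; omega
    · rcases Nat.eq_zero_or_pos i with h0 | h0
      · left; left; exact h0
      · right; left; left; exact ⟨i - 1, h, by omega⟩
    · right; left; right; exact h
    · right; right; exact ⟨i + 1, h, by omega⟩
  refine le_trans (Finset.card_le_card h1) ?_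
  refine le_trans (Finset.card_union_le _ _) ?_
  have a1 : (({0} : Finset ℕ) ∪ {k - 1}).card ≤ 2 := le_trans (Finset.card_union_le _ _) (by simp)
  have a2 : (I.image (· + 1) ∪ I ∪ I.image (· - 1)).card ≤ 3 * I.card := by
    refine le_trans (Finset.card_union_le _ _) ?_
    have b1 := Finset.card_union_le (I.image (· + 1)) I
    have b2 := Finset.card_image_le (s := I) (f := (· + 1))
    have b3 := Finset.card_image_le (s := I) (f := (· - 1))
    omega
  omega

def badS (I : Finset ℕ) (k : ℕ) : Set ℝ := ⋃ i ∈ badI I k, Set.Icc (gp k i) (gp k (i + 1))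

theorem badS_meas (I : Finset ℕ) (k : ℕ) : MeasurableSet (badS I k) :=
  Finset.measurableSet_biUnion _ (fun _ _ => measurableSet_Icc)

theorem badS_nu (I : Finset ℕ) (k : ℕ) (hk : 0 < k) :
    nu (badS I k) ≤ ENNReal.ofReal ((2 + 3 * I.card) / k) := by
  unfold badS
  refine le_trans (measure_biUnion_finset_le _ _) ?_
  refine le_trans (Finset.sum_le_sum (fun i _ => nu_grid hk)) ?_
  rw [Finset.sum_const, nsmul_eq_mul, ← ENNReal.ofReal_natCast, ← ENNReal.ofReal_mul (Nat.cast_nonneg _)]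
  apply ENNReal.ofReal_le_ofReal
  rw [mul_one_div]
  have : ((badI I k).card : ℝ) ≤ 2 + 3 * I.card := by exact_mod_cast badI_card I k
  gcongr

theorem good_of_not_bad {g : ℝ → ℝ} {V : ℝ} (hV : 0 ≤ V) (h : HV g V) (hg : AEStronglyMeasurable g nu)
    {m k : ℕ} (hm : 0 < m) (hk : 0 < k) {I : Finset ℕ} {α : ℝ} (hα : 0 ≤ α)
    (ht : ∀ i < k, i ∉ I → osc g k i ≤ α) {x : ℝ} (hx : -π < x) (hx' : x ≤ π) (hb : x ∉ badS I k) :
    |g x - sg m g x| ≤ 2 * α + V * (k ^ 2 / (4 * m)) := by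
  obtain ⟨i, hi, h1, h2⟩ := exists_cell hk hx hx'
  have hni : i ∉ badI I k := by
    intro hin
    exact hb (Set.mem_biUnion hin ⟨h1, h2⟩)
  unfold badI at hni
  rw [Finset.mem_filter, not_and] at hni
  have := hni (Finset.mem_range.mpr hi)
  push Not at this
  obtain ⟨c1, c2, c3, c4, c5⟩ := this
  exact good_point hV h hg hm (by omega) (by omega) hα (ht _ (by omega) c3) (ht _ hi c4) (ht _ (by omega) c5) h1 h2

/-- `L^P` estimate. -/
theorem eLp_est {g : ℝ → ℝ} {V : ℝ} (hV : 0 ≤ V) (h : HV g V) (hg : AEStronglyMeasurable g nu)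
    {m k : ℕ} (hm : 0 < m) (hk : 0 < k) {I : Finset ℕ} {α : ℝ} (hα : 0 ≤ α)
    (ht : ∀ i < k, i ∉ I → osc g k i ≤ α) (P : ℕ) (hP : 1 ≤ P) :
    eLpNorm (fun x => g x - sg m g x) P nu ≤ ENNReal.ofReal (2 * α + V * (k ^ 2 / (4 * m)))
      + ENNReal.ofReal V * ENNReal.ofReal ((2 + 3 * I.card) / k) ^ (1 / (P : ℝ)) := by
  set a := 2 * α + V * ((k : ℝ) ^ 2 / (4 * m)) with ha
  have ha0 : 0 ≤ a := by positivity
  have h1 : eLpNorm (fun x => g x - sg m g x) P nu
      ≤ eLpNorm ((fun _ => a) + (badS I k).indicator (fun _ => V)) P nu := by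
    refine eLpNorm_mono_ae ?_
    filter_upwards [ae_nu_mem] with x hx
    rw [Real.norm_eq_abs, Real.norm_eq_abs]
    simp only [Pi.add_apply]
    by_cases hb : x ∈ badS I k
    · rw [Set.indicator_of_mem hb]
      have := sub_sg_le_V hV h hg hm hx.1.le hx.2
      rw [abs_of_nonneg (by linarith : 0 ≤ a + V)]
      linarith
    · rw [Set.indicator_of_notMem hb, add_zero, abs_of_nonneg ha0]
      exact good_of_not_bad hV h hg hm hk hα ht hx.1 hx.2 hb
  refine le_trans h1 ?_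
  have hP' : (1 : ENNReal) ≤ (P : ENNReal) := by exact_mod_cast hP
  have hP0 : (P : ENNReal) ≠ 0 := by
    intro h0; rw [h0] at hP'; simp at hP'
  refine le_trans (eLpNorm_add_le aestronglyMeasurable_const
    ((aestronglyMeasurable_const).indicator (badS_meas I k)) hP') ?_
  refine add_le_add ?_ ?_
  · rw [eLpNorm_const _ hP0 (IsProbabilityMeasure.ne_zero nu)]
    rw [measure_univ, ENNReal.one_rpow, mul_one, Real.enorm_eq_ofReal_abs, abs_of_nonneg ha0]
  · refine le_trans (eLpNorm_indicator_const_le _ _) ?_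
    rw [ENNReal.toReal_natCast, Real.enorm_eq_ofReal_abs, abs_of_nonneg hV]
    gcongr
    exact badS_nu I k hk

/-- threshold indices `m_r = 2^(2^r)`. -/
def mm (r : ℕ) : ℕ := 2 ^ (2 ^ r)

theorem mm_pos (r : ℕ) : 0 < mm r := by unfold mm; positivity

theorem mm_eq (q : ℕ) : mm (q + 5) = kk q ^ 4 := by
  unfold mm kk
  rw [← pow_mul]; congr 1; ring

noncomputable def eta (q : ℕ) : ℝ := 2 ^ 11 / 2 ^ (2 * q)

theorem eta_pos (q : ℕ) : 0 < eta q := by unfold eta; positivity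

theorem expo (q : ℕ) : 8 * q ^ 2 + 4 * q ≤ 2 ^ (q + 2) + 261 := by
  rcases Nat.lt_or_ge q 9 with h | h
  · interval_cases q <;> norm_num
  · have : 8 * q ^ 2 + 4 * q ≤ 2 ^ (q + 2) := by
      induction q, h using Nat.le_induction with
      | base => norm_num
      | succ n hn ih =>
        have e : 2 ^ (n + 1 + 2) = 2 * 2 ^ (n + 2) := by ring
        rw [e]
        nlinarith
    omega

theorem one_div_kk_le (q : ℕ) : (1 : ℝ) / kk q ≤ eta q := by
  unfold eta
  have h1 : (2 : ℝ) ^ (2 * q) ≤ kk q := by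
    unfold kk
    push_cast
    apply pow_le_pow_right₀ (by norm_num)
    have : q + 3 < 2 ^ (q + 3) := Nat.lt_two_pow_self
    have h2 : 2 ^ (q + 3) = 8 * 2 ^ q := by ring
    have h3 : q < 2 ^ q := Nat.lt_two_pow_self
    omega
  have h0 : (0 : ℝ) < 2 ^ (2 * q) := by positivity
  calc (1 : ℝ) / kk q ≤ 1 / 2 ^ (2 * q) := by gcongr
    _ ≤ 2 ^ 11 / 2 ^ (2 * q) := by gcongr; norm_num

theorem root_le (q : ℕ) :
    ENNReal.ofReal ((2 + 3 * kap q) / kk q) ^ (1 / ((4 * (q + 5) + 4 : ℕ) : ℝ)) ≤ ENNReal.ofReal (eta q) := by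
  set P := 4 * (q + 5) + 4 with hP
  have hP0 : (0 : ℝ) < (P : ℝ) := by rw [hP]; positivity
  have h1 : ENNReal.ofReal ((2 + 3 * kap q) / kk q) ≤ ENNReal.ofReal (eta q) ^ P := by
    rw [← ENNReal.ofReal_pow (eta_pos q).le]
    apply ENNReal.ofReal_le_ofReal
    have hk1 : (1 : ℝ) ≤ kap q := by exact_mod_cast kap_pos q
    have hkk : (kk q : ℝ) = kap q * kap q := by exact_mod_cast kk_eq q
    have h2 : (2 + 3 * (kap q : ℝ)) / kk q ≤ 8 / kap q := by
      rw [hkk, div_le_div_iff₀ (by positivity) (by positivity)]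
      nlinarith
    refine le_trans h2 ?_
    unfold eta
    rw [div_pow, div_le_div_iff₀ (by positivity) (by positivity)]
    have h3 : 8 * (2 ^ (2 * q)) ^ P ≤ (2 ^ 11) ^ P * kap q := by
      unfold kap
      rw [← pow_mul, ← pow_mul, ← pow_add]
      have : 8 * 2 ^ (2 * q * P) = 2 ^ (3 + 2 * q * P) := by rw [pow_add]; norm_num
      rw [this]
      apply Nat.pow_le_pow_right (by norm_num)
      rw [hP]
      have := expo q
      nlinarith
    exact_mod_cast h3
  calc ENNReal.ofReal ((2 + 3 * kap q) / kk q) ^ (1 / (P : ℝ))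
      ≤ (ENNReal.ofReal (eta q) ^ P) ^ (1 / (P : ℝ)) := by gcongr
    _ = ENNReal.ofReal (eta q) := by
      rw [← ENNReal.rpow_natCast, ← ENNReal.rpow_mul, mul_one_div_cancel hP0.ne', ENNReal.rpow_one]

theorem eLp_level {g : ℝ → ℝ} {V : ℝ} (hV : 0 ≤ V) (h : HV g V) (hg : AEStronglyMeasurable g nu)
    (q : ℕ) {I : Finset ℕ} {α : ℝ} (hα : 0 ≤ α) (hc : I.card = kap q)
    (ht : ∀ i < kk q, i ∉ I → osc g (kk q) i ≤ α) :
    eLpNorm (fun x => g x - sg (mm (q + 5)) g x) ((4 * (q + 5) + 4 : ℕ) : ENNReal) nu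
      ≤ ENNReal.ofReal (2 * α + 2 * V * eta q) := by
  have h1 := eLp_est hV h hg (m := mm (q + 5)) (k := kk q) (mm_pos _) (kk_pos _) hα ht (4 * (q + 5) + 4) (by omega)
  refine le_trans h1 ?_
  have h2 : ENNReal.ofReal (2 * α + V * ((kk q : ℝ) ^ 2 / (4 * mm (q + 5)))) ≤ ENNReal.ofReal (2 * α + V * eta q) := by
    apply ENNReal.ofReal_le_ofReal
    have hk1 : (1 : ℝ) ≤ kk q := by exact_mod_cast kk_pos q
    have : (kk q : ℝ) ^ 2 / (4 * mm (q + 5)) ≤ eta q := by
      refine le_trans ?_ (one_div_kk_le q)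
      have e : (mm (q + 5) : ℝ) = (kk q : ℝ) ^ 4 := by exact_mod_cast mm_eq q
      rw [e, div_le_div_iff₀ (by positivity) (by positivity)]
      have : (kk q : ℝ) ^ 2 * kk q ≤ (kk q : ℝ) ^ 4 := by
        have : (kk q : ℝ) ^ 4 = (kk q : ℝ) ^ 2 * kk q * kk q := by ring
        rw [this]
        exact le_mul_of_one_le_right (by positivity) hk1
      nlinarith [pow_pos (by linarith : (0 : ℝ) < kk q) 4]
    gcongr
  have h3 : ENNReal.ofReal V * ENNReal.ofReal ((2 + 3 * I.card) / kk q) ^ (1 / ((4 * (q + 5) + 4 : ℕ) : ℝ))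
      ≤ ENNReal.ofReal (V * eta q) := by
    rw [ENNReal.ofReal_mul hV, hc]
    gcongr
    exact root_le q
  refine le_trans (add_le_add h2 h3) ?_
  rw [← ENNReal.ofReal_add (by have := eta_pos q; positivity) (by have := eta_pos q; positivity)]
  apply ENNReal.ofReal_le_ofReal
  linarith

theorem eLp_V {g : ℝ → ℝ} {V : ℝ} (hV : 0 ≤ V) (h : HV g V) (hg : AEStronglyMeasurable g nu)
    {m : ℕ} (hm : 0 < m) (P : ENNReal) :
    eLpNorm (fun x => g x - sg m g x) P nu ≤ ENNReal.ofReal V := by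
  have h1 : ∀ᵐ x ∂nu, ‖g x - sg m g x‖ ≤ V := by
    filter_upwards [ae_nu_mem] with x hx
    rw [Real.norm_eq_abs]
    exact sub_sg_le_V hV h hg hm hx.1.le hx.2
  refine le_trans (eLpNorm_le_of_ae_bound h1) ?_
  rw [measure_univ, ENNReal.one_rpow, one_mul]

/-- one dimensional theorem. -/
theorem oneD {g : ℝ → ℝ} {V : ℝ} (hV : 0 ≤ V) (h : HV g V) (hg : AEStronglyMeasurable g nu) :
    ∑' r : ℕ, 2 ^ r * (2 * eLpNorm (fun x => g x - sg (mm r) g x) ((4 * r + 4 : ℕ) : ENNReal) nu)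
      ≤ ENNReal.ofReal (600000 * V) := by
  choose I α hα hI hc hge hle using fun q => exists_level hV h q
  have hL := L_bound hV h (fun q => α q / 2) (fun q => by have := hα q; positivity) I hI hc
    (fun q i hi => exists_of_osc (hα q) (hge q i hi))
  set b : ℕ → ℝ := fun r => if r < 8 then V else 2 * α (r - 5) + 2 * V * eta (r - 5) with hb
  have hb0 : ∀ r, 0 ≤ b r := by
    intro r
    rw [hb]
    by_cases hr : r < 8
    · simp only [hr, if_true]; exact hV
    · simp only [hr, if_false]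
      have := hα (r - 5)
      have := eta_pos (r - 5)
      positivity
  have hbound : ∀ r, eLpNorm (fun x => g x - sg (mm r) g x) ((4 * r + 4 : ℕ) : ENNReal) nu ≤ ENNReal.ofReal (b r) := by
    intro r
    by_cases hr : r < 8
    · simp only [hb, hr, if_true]
      exact eLp_V hV h hg (mm_pos r) _
    · simp only [hb, hr, if_false]
      obtain ⟨q, rfl⟩ : ∃ q, r = q + 5 := ⟨r - 5, by omega⟩
      rw [Nat.add_sub_cancel]
      exact eLp_level hV h hg q (hα q) (hc q) (hle q)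
  have hsum : ∀ n, ∑ r ∈ range n, 2 ^ r * (2 * b r) ≤ 600000 * V := by
    intro n
    have s1 : ∑ r ∈ range n, 2 ^ r * (2 * b r) ≤ ∑ r ∈ range (8 + n), 2 ^ r * (2 * b r) := by
      refine Finset.sum_le_sum_of_subset_of_nonneg ?_ (fun r _ _ => by have := hb0 r; positivity)
      intro r hr; rw [Finset.mem_range] at hr ⊢; omega
    have s2 : ∑ r ∈ range (8 + n), 2 ^ r * (2 * b r)
        = ∑ r ∈ range 8, 2 ^ r * (2 * b r) + ∑ r ∈ Ico 8 (8 + n), 2 ^ r * (2 * b r) := by
      rw [Finset.range_eq_Ico, Finset.range_eq_Ico, Finset.sum_Ico_consecutive _ (by omega) (by omega)]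
    have s3 : ∑ r ∈ range 8, 2 ^ r * (2 * b r) = 510 * V := by
      have : ∀ r ∈ range 8, 2 ^ r * (2 * b r) = 2 ^ r * (2 * V) := by
        intro r hr
        rw [Finset.mem_range] at hr
        simp only [hb, hr, if_true]
      rw [Finset.sum_congr rfl this, ← Finset.sum_mul]
      norm_num [Finset.sum_range_succ]
      ring
    have s4 : ∑ r ∈ Ico 8 (8 + n), 2 ^ r * (2 * b r)
        = ∑ q ∈ Ico 3 (3 + n), (2 ^ (q + 5) * (2 * (2 * α q + 2 * V * eta q))) := by
      have e := Finset.sum_Ico_add' (fun r => (2 : ℝ) ^ r * (2 * b r)) 3 (3 + n) 5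
      have e3 : 3 + n + 5 = 8 + n := by ring
      rw [e3] at e
      norm_num at e
      rw [← e]
      refine Finset.sum_congr rfl (fun q hq => ?_)
      rw [Finset.mem_Ico] at hq
      simp only [hb]
      rw [if_neg (by omega), Nat.add_sub_cancel]
    have s5 : ∑ q ∈ Ico 3 (3 + n), (2 ^ (q + 5) * (2 * (2 * α q + 2 * V * eta q)))
        = 256 * ∑ q ∈ Ico 3 (3 + n), (2 ^ q * (α q / 2)) + 128 * V * ∑ q ∈ Ico 3 (3 + n), (2 ^ q * eta q) := by
      rw [Finset.mul_sum, Finset.mul_sum, ← Finset.sum_add_distrib]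
      refine Finset.sum_congr rfl (fun q _ => ?_)
      rw [pow_add]; ring
    have s6 : ∑ q ∈ Ico 3 (3 + n), (2 : ℝ) ^ q * eta q ≤ 2 ^ 12 := by
      have e1 : ∀ q, (2 : ℝ) ^ q * eta q = 2 ^ 11 * (1 / 2) ^ q := by
        intro q
        unfold eta
        rw [mul_comm 2 q, pow_mul, one_div, inv_pow]
        have : (2 : ℝ) ^ q ≠ 0 := by positivity
        field_simp
      rw [Finset.sum_congr rfl (fun q _ => e1 q), ← Finset.mul_sum]
      have e2 : ∑ q ∈ Ico 3 (3 + n), (1 / 2 : ℝ) ^ q ≤ 2 := by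
        have e3 : ∑ q ∈ Ico 3 (3 + n), (1 / 2 : ℝ) ^ q ≤ ∑ q ∈ range (3 + n), (1 / 2 : ℝ) ^ q := by
          refine Finset.sum_le_sum_of_subset_of_nonneg ?_ (fun r _ _ => by positivity)
          intro r hr; rw [Finset.mem_Ico] at hr; rw [Finset.mem_range]; omega
        have e4 : ∀ n, ∑ q ∈ range n, (1 / 2 : ℝ) ^ q = 2 - 2 * (1 / 2 : ℝ) ^ n := by
          intro n
          induction n with
          | zero => norm_num
          | succ n ih => rw [Finset.sum_range_succ, ih, pow_succ]; ring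
        rw [e4] at e3
        have : (0 : ℝ) ≤ (1 / 2 : ℝ) ^ (3 + n) := by positivity
        linarith
      linarith
    have s7 := hL (3 + n)
    rw [s2, s3, s4, s5] at s1
    have s8 : V * ∑ q ∈ Ico 3 (3 + n), (2 : ℝ) ^ q * eta q ≤ V * 2 ^ 12 := mul_le_mul_of_nonneg_left s6 hV
    linarith
  refine ENNReal.tsum_le_of_sum_range_le (fun n => ?_)
  calc ∑ r ∈ range n, 2 ^ r * (2 * eLpNorm (fun x => g x - sg (mm r) g x) ((4 * r + 4 : ℕ) : ENNReal) nu)
      ≤ ∑ r ∈ range n, ENNReal.ofReal (2 ^ r * (2 * b r)) := by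
        refine Finset.sum_le_sum (fun r _ => ?_)
        rw [ENNReal.ofReal_mul (by positivity), ENNReal.ofReal_mul (by positivity), ENNReal.ofReal_pow (by positivity)]
        simp only [ENNReal.ofReal_ofNat]
        gcongr
        exact hbound r
    _ = ENNReal.ofReal (∑ r ∈ range n, 2 ^ r * (2 * b r)) := by
        rw [ENNReal.ofReal_sum_of_nonneg (fun r _ => by have := hb0 r; positivity)]
    _ ≤ _ := ENNReal.ofReal_le_ofReal (hsum n)

end Pool.Agent.Helper187.HBV
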