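import Mathlib
import Pool.Agent.Helper187.HBV.OneD2
import Pool.Agent.Helper187.HBV.Asm3

namespace Pool.Agent.Helper187.HBV

open Real MeasureTheory Filter Topology

theorem Kk_int_mm (r : ℕ) (x : ℝ) : ∫ t, Kk (mm (r + 1)) (x - t) ∂nu ≤ 16 * 2 ^ r := by
  rw [integral_nu_shift' _ (Kk_periodic _)]
  refine le_trans (Kk_int _) ?_
  have h1 : (1 : ℝ) ≤ mm (r + 1) := by exact_mod_cast mm_pos _
  have h2 : Real.log (2 * (mm (r + 1) : ℝ) + 1) ≤ Real.log (4 * mm (r + 1)) :=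
    Real.log_le_log (by positivity) (by linarith)
  have h3 : Real.log (4 * mm (r + 1)) = (2 + 2 ^ (r + 1)) * Real.log 2 := by
    rw [Real.log_mul (by norm_num) (by positivity)]
    unfold mm
    push_cast
    rw [Real.log_pow, show (4 : ℝ) = 2 ^ 2 by norm_num, Real.log_pow]
    push_cast
    ring
  have h4 : Real.log 2 ≤ 1 := by
    have := Real.log_two_lt_d9
    linarith
  have h5 : (1 : ℝ) ≤ 2 ^ r := one_le_pow₀ (by norm_num)
  have h6 : (2 + 2 ^ (r + 1)) * Real.log 2 ≤ (2 + 2 ^ (r + 1)) * 1 := by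
    apply mul_le_mul_of_nonneg_left h4; positivity
  rw [h3] at h2
  have h7 : (2 : ℝ) ^ (r + 1) = 2 * 2 ^ r := by ring
  rw [h7] at h6
  rw [h7] at h2
  linarith

/-- concrete Fourier structure on `(-π, π]`. -/
noncomputable def S0 : FS ℝ nu where
  m := mm
  D := fun M x t => Dk M (x - t)
  F := fun r x t => Fk (mm r) (x - t)
  K := fun r x t => Kk (mm (r + 1)) (x - t)
  D_bk := fun M => ⟨((Dk_cont M).comp (continuous_fst.sub continuous_snd)).measurable,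
    2 * M + 1, by positivity, fun x t => Dk_abs M _⟩
  F_bk := fun r => ⟨((Fk_cont _).comp (continuous_fst.sub continuous_snd)).measurable,
    2 * (mm r : ℝ) + 1, by positivity, fun x t => Fk_abs _ _⟩
  K_bk := fun r => ⟨((Kk_cont _).comp (continuous_fst.sub continuous_snd)).measurable,
    2 * (mm (r + 1) : ℝ) + 1, by positivity, fun x t => Kk_abs _ _⟩
  D_bdd := fun M x t => Dk_abs M _
  D_symm := fun M x t => by rw [← Dk_even, neg_sub]
  F_symm := fun r x t => by rw [← Fk_even, neg_sub]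
  K_symm := fun r x t => by rw [← Kk_even, neg_sub]
  F_nonneg := fun r x t => Fk_nonneg _ _
  F_int := fun r x => Fk_int (mm_pos r) x
  DF := fun r M h x y => Dk_Fk h x y
  D_le := fun r M _ h x t => Dk_le_Kk h.le _
  DD_le := fun r M N _ hM _ hN x y => by
    have h1 : ∀ t, Dk N (y - t) = Dk N (t - y) := fun t => by rw [← Dk_even, neg_sub]
    simp only [h1]
    rw [Dk_conv]
    exact Dk_le_Kk (le_trans (min_le_left _ _) hM.le) _
  K_int := fun r x => Kk_int_mm r x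

theorem S0_inc (r : ℕ) : S0.m r < S0.m (r + 1) := by
  show mm r < mm (r + 1)
  unfold mm
  exact Nat.pow_lt_pow_right (by norm_num) (Nat.pow_lt_pow_right (by norm_num) (by omega))

theorem S0_cov (R M : ℕ) (h : S0.m R ≤ M) : ∃ r, R ≤ r ∧ M ∈ S0.blk r := by
  have hex : ∃ r, M < mm (r + 1) := by
    refine ⟨M, ?_⟩
    unfold mm
    calc M < 2 ^ M := Nat.lt_two_pow_self
      _ ≤ 2 ^ 2 ^ (M + 1) := Nat.pow_le_pow_right (by norm_num) (by
        have : M + 1 < 2 ^ (M + 1) := Nat.lt_two_pow_self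
        omega)
  classical
  have hmono : ∀ a b, a ≤ b → mm a ≤ mm b := by
    intro a b hab
    unfold mm
    exact Nat.pow_le_pow_right (by norm_num) (Nat.pow_le_pow_right (by norm_num) hab)
  have h' : mm R ≤ M := h
  set r := Nat.find hex with hr
  have h1 : M < mm (r + 1) := Nat.find_spec hex
  have hRr : R ≤ r := by
    by_contra hlt
    push Not at hlt
    have := hmono (r + 1) R (by omega)
    omega
  refine ⟨r, hRr, ?_⟩
  rw [S0.mem_blk]
  refine ⟨?_, h1⟩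
  show mm r ≤ M
  rcases Nat.eq_or_lt_of_le hRr with heq | hlt
  · rw [← heq]; exact h'
  · have h2 : ¬ M < mm (r - 1 + 1) := Nat.find_min hex (by omega)
    rw [Nat.sub_add_cancel (by omega)] at h2
    omega

/-! ### the direction hypothesis -/

noncomputable def AA (f : ℝ × ℝ → ℝ) (r : ℕ) (y : ℝ) : ENNReal :=
  2 * eLpNorm (fun x => S0.gr r f (x, y)) ((4 * r + 4 : ℕ) : ENNReal) nu

theorem eLp_formula (G : ℝ → ℝ) (P : ℕ) (hP : 0 < P) :
    eLpNorm G (P : ENNReal) nu = (∫⁻ x, ‖G x‖ₑ ^ P ∂nu) ^ (1 / (P : ℝ)) := by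
  rw [eLpNorm_eq_lintegral_rpow_enorm_toReal (by exact_mod_cast hP.ne') (ENNReal.natCast_ne_top P)]
  simp only [ENNReal.toReal_natCast, ENNReal.rpow_natCast]

theorem AA_meas (f : ℝ × ℝ → ℝ) (hf : Good nu f) (r : ℕ) : Measurable (AA f r) := by
  unfold AA
  have h1 : (fun y => 2 * eLpNorm (fun x => S0.gr r f (x, y)) ((4 * r + 4 : ℕ) : ENNReal) nu)
      = fun y => 2 * (∫⁻ x, ‖S0.gr r f (x, y)‖ₑ ^ (4 * r + 4) ∂nu) ^ (1 / ((4 * r + 4 : ℕ) : ℝ)) := by
    ext y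
    rw [eLp_formula _ _ (by omega)]
  rw [h1]
  refine Measurable.const_mul ?_ 2
  refine Measurable.pow_const ?_ _
  exact Measurable.lintegral_prod_left' (f := fun p : ℝ × ℝ => ‖S0.gr r f p‖ₑ ^ (4 * r + 4))
    ((S0.good_gr r hf).meas.enorm.pow_const _)

theorem AA_l2 (f : ℝ × ℝ → ℝ) (hf : Good nu f) (r : ℕ) (y : ℝ) :
    ∫⁻ x, ‖S0.gr r f (x, y)‖ₑ ^ 2 ∂nu ≤ (AA f r y) ^ 2 := by
  have hm : AEStronglyMeasurable (fun x => S0.gr r f (x, y)) nu :=
    ((S0.good_gr r hf).meas.comp (measurable_id.prodMk measurable_const)).aestronglyMeasurable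
  have h1 : eLpNorm (fun x => S0.gr r f (x, y)) ((2 : ℕ) : ENNReal) nu
      ≤ eLpNorm (fun x => S0.gr r f (x, y)) ((4 * r + 4 : ℕ) : ENNReal) nu :=
    eLpNorm_le_eLpNorm_of_exponent_le (by exact_mod_cast (by omega : 2 ≤ 4 * r + 4)) hm
  have h2 : eLpNorm (fun x => S0.gr r f (x, y)) ((2 : ℕ) : ENNReal) nu ≤ AA f r y := by
    refine le_trans h1 ?_
    unfold AA
    rw [two_mul]
    exact le_self_add
  rw [eLp_formula _ 2 (by norm_num)] at h2
  calc ∫⁻ x, ‖S0.gr r f (x, y)‖ₑ ^ 2 ∂nu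
      = ((∫⁻ x, ‖S0.gr r f (x, y)‖ₑ ^ 2 ∂nu) ^ (1 / ((2 : ℕ) : ℝ))) ^ 2 := by
        rw [← ENNReal.rpow_natCast, ← ENNReal.rpow_mul]
        norm_num
    _ ≤ _ := by gcongr

theorem exc_general {G : ℝ → ℝ} (hG : Measurable G) (P : ℕ) :
    ∫⁻ x, (‖G x‖ₑ - 2 * eLpNorm G ((P + 1 : ℕ) : ENNReal) nu) ∂nu
      ≤ (1 / 2) ^ P * (2 * eLpNorm G ((P + 1 : ℕ) : ENNReal) nu) := by
  set A := 2 * eLpNorm G ((P + 1 : ℕ) : ENNReal) nu with hA
  have hE : (∫⁻ x, ‖G x‖ₑ ^ (P + 1) ∂nu) = (A / 2) ^ (P + 1) := by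
    have h1 : A / 2 = eLpNorm G ((P + 1 : ℕ) : ENNReal) nu := by
      rw [hA, mul_comm, mul_div_assoc, ENNReal.div_self (by norm_num) (by norm_num), mul_one]
    rw [h1, eLp_formula _ _ (by omega), ← ENNReal.rpow_natCast, ← ENNReal.rpow_mul,
      one_div_mul_cancel (by positivity), ENNReal.rpow_one]
  rcases eq_or_ne A ⊤ with h0 | h0
  · rw [h0]; simp
  rcases eq_or_ne A 0 with h1 | h1
  · rw [h1] at hE ⊢
    simp only [ENNReal.zero_div, ne_eq, Nat.add_eq_zero_iff, one_ne_zero, and_false, not_false_eq_true, zero_pow] at hE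
    rw [lintegral_eq_zero_iff (hG.enorm.pow_const _)] at hE
    have : ∫⁻ x, (‖G x‖ₑ - 0) ∂nu = ∫⁻ x, 0 ∂nu := by
      refine lintegral_congr_ae ?_
      filter_upwards [hE] with x hx
      simp only [Pi.zero_apply] at hx
      have := pow_eq_zero_iff (n := P + 1) (by omega) |>.mp hx
      rw [this]; simp
    rw [this]; simp
  · -- pointwise bound
    have hpt : ∀ x, ‖G x‖ₑ - A ≤ (A ^ P)⁻¹ * ‖G x‖ₑ ^ (P + 1) := by
      intro x
      rcases le_total ‖G x‖ₑ A with h | h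
      · rw [tsub_eq_zero_of_le h]; exact zero_le
      · refine le_trans tsub_le_self ?_
        have hAP : A ^ P ≠ 0 := pow_ne_zero _ h1
        have hAP' : A ^ P ≠ ⊤ := ENNReal.pow_ne_top h0
        calc ‖G x‖ₑ = (A ^ P)⁻¹ * A ^ P * ‖G x‖ₑ := by rw [ENNReal.inv_mul_cancel hAP hAP', one_mul]
          _ ≤ (A ^ P)⁻¹ * ‖G x‖ₑ ^ P * ‖G x‖ₑ := by gcongr
          _ = _ := by rw [pow_succ]; ring
    refine le_trans (lintegral_mono hpt) ?_
    rw [lintegral_const_mul _ (hG.enorm.pow_const _), hE]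
    have hAP : A ^ P ≠ 0 := pow_ne_zero _ h1
    have hAP' : A ^ P ≠ ⊤ := ENNReal.pow_ne_top h0
    calc (A ^ P)⁻¹ * (A / 2) ^ (P + 1) = ((A ^ P)⁻¹ * A ^ P) * ((1 / 2) ^ P * (A / 2)) := by
          rw [pow_succ, ENNReal.div_eq_inv_mul, mul_pow, one_div]; ring
      _ = (1 / 2) ^ P * (A / 2) := by rw [ENNReal.inv_mul_cancel hAP hAP', one_mul]
      _ ≤ (1 / 2) ^ P * A := by
        gcongr
        exact ENNReal.half_le_self

theorem AA_exc (f : ℝ × ℝ → ℝ) (hf : Good nu f) (r : ℕ) (y : ℝ) :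
    ∫⁻ x, (‖S0.gr r f (x, y)‖ₑ - AA f r y) ∂nu ≤ (1 / 16) ^ r * AA f r y := by
  have h1 := exc_general (G := fun x => S0.gr r f (x, y))
    ((S0.good_gr r hf).meas.comp (measurable_id.prodMk measurable_const)) (4 * r + 3)
  refine le_trans h1 ?_
  unfold AA
  refine mul_le_mul' ?_ le_rfl
  have e : ((1 : ENNReal) / 2) ^ (4 * r) = (1 / 16) ^ r := by
    rw [pow_mul]
    congr 1
    rw [one_div, one_div, ← ENNReal.inv_pow]
    norm_num
  calc ((1 : ENNReal) / 2) ^ (4 * r + 3) ≤ (1 / 2) ^ (4 * r) :=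
        pow_le_pow_right_of_le_one' (by rw [one_div]; exact ENNReal.inv_le_one.mpr (by norm_num)) (by omega)
    _ = (1 / 16) ^ r := e

/-- direction hypothesis from integrable harmonic variation. -/
theorem dir_of {f : ℝ × ℝ → ℝ} (hf : Good nu f) {f₁ : ℝ × ℝ → ℝ} (hf₁ : f₁ =ᵐ[nu.prod nu] f)
    {V : ℝ → ENNReal} (hVm : AEMeasurable V nu) (hV : ∫⁻ y, V y ∂nu ≠ ⊤)
    (h : ∀ y, ∀ a b : ℕ → ℝ, (∀ k, -π ≤ a k ∧ a k ≤ b k ∧ b k ≤ π) →
      (∀ i j, i ≠ j → b i ≤ a j ∨ b j ≤ a i) →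
      ∑' k : ℕ, ENNReal.ofReal (|f₁ (b k, y) - f₁ (a k, y)| / (k + 1)) ≤ V y) :
    S0.Dir f (AA f) := by
  refine ⟨AA_meas f hf, fun r => Eventually.of_forall (AA_l2 f hf r), fun r => Eventually.of_forall (AA_exc f hf r), ?_⟩
  have hfin : ∀ᵐ y ∂nu, V y < ⊤ := ae_lt_top' hVm hV
  have hsw : ∀ᵐ p ∂(nu.prod nu), (fun p : ℝ × ℝ => f₁ (p.2, p.1) = f (p.2, p.1)) p := FS.ae_swap (P := fun p => f₁ p = f p) hf₁
  have hlines : ∀ᵐ y ∂nu, ∀ᵐ x ∂nu, f₁ (x, y) = f (x, y) := Measure.ae_ae_of_ae_prod hsw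
  have hbound : ∀ᵐ y ∂nu, ∑' r : ℕ, 2 ^ r * AA f r y ≤ ENNReal.ofReal 600000 * V y := by
    filter_upwards [hfin, hlines] with y hy hl
    have hHV : HV (fun x => f₁ (x, y)) (V y).toReal := by
      intro a b h1 h2
      rw [ENNReal.ofReal_toReal hy.ne]
      exact h y a b h1 h2
    have hrow : (fun x => f₁ (x, y)) =ᵐ[nu] (fun x => f (x, y)) := hl
    have hmeas : AEStronglyMeasurable (fun x => f₁ (x, y)) nu :=
      ((hf.meas.comp (measurable_id.prodMk measurable_const)).aestronglyMeasurable).congr hrow.symm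
    have key := oneD ENNReal.toReal_nonneg hHV hmeas
    rw [ENNReal.ofReal_mul (by norm_num), ENNReal.ofReal_toReal hy.ne] at key
    refine le_trans (le_of_eq ?_) key
    refine tsum_congr (fun r => ?_)
    unfold AA
    congr 2
    refine eLpNorm_congr_ae ?_
    filter_upwards [hrow] with x hx
    show f (x, y) - ∫ t, Fk (mm r) (x - t) * f (t, y) ∂nu = f₁ (x, y) - sg (mm r) (fun x => f₁ (x, y)) x
    rw [hx]
    unfold sg
    congr 1
    refine integral_congr_ae ?_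
    filter_upwards [hrow] with t ht
    rw [ht]
  have h1 : ∑' r : ℕ, 2 ^ r * ∫⁻ y, AA f r y ∂nu = ∫⁻ y, ∑' r : ℕ, 2 ^ r * AA f r y ∂nu := by
    rw [lintegral_tsum (fun r => ((AA_meas f hf r).const_mul _).aemeasurable)]
    refine tsum_congr (fun r => ?_)
    rw [lintegral_const_mul _ (AA_meas f hf r)]
  rw [h1]
  refine ne_top_of_le_ne_top ?_ (lintegral_mono_ae hbound)
  rw [lintegral_const_mul'' _ hVm]
  exact ENNReal.mul_ne_top (by norm_num) hV

end Pool.Agent.Helper187.HBV
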