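import Mathlib
import Pool.Agent.Helper187.HBV.Final

namespace Pool.Agent.Helper187.HBV

open Real MeasureTheory Filter Topology

theorem nu_eq : nu = ENNReal.ofReal (1 / (2 * π)) • volume.restrict (Set.Icc (-π) π) := by
  unfold nu
  rw [Measure.restrict_congr_set Ioc_ae_eq_Icc]

/-- the square -/
def QQ : Set (ℝ × ℝ) := Set.Icc (-π) π ×ˢ Set.Icc (-π) π

theorem nu2_eq : nu.prod nu
    = (ENNReal.ofReal (1 / (2 * π)) * ENNReal.ofReal (1 / (2 * π))) • volume.restrict QQ := by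
  rw [nu_eq, Measure.prod_smul_left, Measure.prod_smul_right, Measure.prod_restrict, smul_smul]
  rfl

theorem c_ne_zero : ENNReal.ofReal (1 / (2 * π)) ≠ 0 := by
  have := Real.pi_pos
  simp only [ne_eq, ENNReal.ofReal_eq_zero, not_le]
  positivity

theorem c2_ne_zero : ENNReal.ofReal (1 / (2 * π)) * ENNReal.ofReal (1 / (2 * π)) ≠ 0 :=
  mul_ne_zero c_ne_zero c_ne_zero

theorem c2_ne_top : ENNReal.ofReal (1 / (2 * π)) * ENNReal.ofReal (1 / (2 * π)) ≠ ⊤ :=
  ENNReal.mul_ne_top ENNReal.ofReal_ne_top ENNReal.ofReal_ne_top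

theorem ae_nu2 {P : ℝ × ℝ → Prop} : (∀ᵐ p ∂(nu.prod nu), P p) ↔ ∀ᵐ p ∂(volume.restrict QQ), P p := by
  rw [nu2_eq]
  exact Measure.ae_ennreal_smul_measure_iff c2_ne_zero

theorem int_nu2 {f : ℝ × ℝ → ℝ} : Integrable f (nu.prod nu) ↔ IntegrableOn f QQ := by
  rw [nu2_eq]
  exact integrable_smul_measure c2_ne_zero c2_ne_top

theorem exists_good {f : ℝ × ℝ → ℝ} (hf : Integrable f (nu.prod nu)) :
    ∃ f' : ℝ × ℝ → ℝ, Good nu f' ∧ f' =ᵐ[nu.prod nu] f := by
  set g := hf.1.mk f with hg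
  have hgm : StronglyMeasurable g := hf.1.stronglyMeasurable_mk
  have hgf : f =ᵐ[nu.prod nu] g := hf.1.ae_eq_mk
  have hgi : Integrable g (nu.prod nu) := hf.congr hgf
  set X0 : Set ℝ := {x | Integrable (fun y => g (x, y)) nu} with hX0
  set Y0 : Set ℝ := {y | Integrable (fun x => g (x, y)) nu} with hY0
  have hX0m : MeasurableSet X0 := measurableSet_integrable (f := fun x y => g (x, y)) hgm
  have hY0m : MeasurableSet Y0 :=
    measurableSet_integrable (f := fun y x => g (x, y)) (hgm.comp_measurable measurable_swap)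
  have hX0a : ∀ᵐ x ∂nu, x ∈ X0 := hgi.prod_right_ae
  have hY0a : ∀ᵐ y ∂nu, y ∈ Y0 := hgi.prod_left_ae
  refine ⟨(X0 ×ˢ Y0).indicator g, ⟨?_, ?_, ?_, ?_⟩, ?_⟩
  · exact hgm.measurable.indicator (hX0m.prod hY0m)
  · exact hgi.indicator (hX0m.prod hY0m)
  · intro y
    by_cases hy : y ∈ Y0
    · have : (fun x => (X0 ×ˢ Y0).indicator g (x, y)) = X0.indicator (fun x => g (x, y)) := by
        ext x
        by_cases hx : x ∈ X0
        · simp [hx, hy]
        · simp [hx]
      rw [this]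
      exact Integrable.indicator hy hX0m
    · have : (fun x => (X0 ×ˢ Y0).indicator g (x, y)) = fun _ => 0 := by
        ext x
        simp [hy]
      rw [this]
      exact integrable_zero _ _ _
  · intro x
    by_cases hx : x ∈ X0
    · have : (fun y => (X0 ×ˢ Y0).indicator g (x, y)) = Y0.indicator (fun y => g (x, y)) := by
        ext y
        by_cases hy : y ∈ Y0
        · simp [hx, hy]
        · simp [hy]
      rw [this]
      exact Integrable.indicator hx hY0m
    · have : (fun y => (X0 ×ˢ Y0).indicator g (x, y)) = fun _ => 0 := by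
        ext y
        simp [hx]
      rw [this]
      exact integrable_zero _ _ _
  · have h1 : ∀ᵐ p ∂(nu.prod nu), p.1 ∈ X0 := Measure.quasiMeasurePreserving_fst.ae hX0a
    have h2 : ∀ᵐ p ∂(nu.prod nu), p.2 ∈ Y0 := Measure.quasiMeasurePreserving_snd.ae hY0a
    filter_upwards [h1, h2, hgf] with p h1 h2 h3
    rw [Set.indicator_of_mem (Set.mem_prod.mpr ⟨h1, h2⟩), h3]

theorem SMN_eq {f : ℝ × ℝ → ℝ} (hf : Good nu f) (M N : ℕ) (p : ℝ × ℝ) :
    S0.SMN M N f p = ∫ z, (Dk M (p.1 - z.1) * Dk N (p.2 - z.2)) * f z ∂(nu.prod nu) := by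
  unfold FS.SMN
  rw [op12_eq (S0.D_bk M) (S0.D_bk N) hf]
  rfl

theorem rect_eq {f : ℝ × ℝ → ℝ} (hf : Integrable f (nu.prod nu)) (M N : ℕ) (p : ℝ × ℝ) :
    ∑ j ∈ Finset.Icc (-(M : ℤ)) M, ∑ k ∈ Finset.Icc (-(N : ℤ)) N,
      (∫ z, (f z : ℂ) * Complex.exp (-(Complex.I * (j * z.1 + k * z.2))) ∂(nu.prod nu))
        * Complex.exp (Complex.I * (j * p.1 + k * p.2))
      = ((∫ z, (Dk M (p.1 - z.1) * Dk N (p.2 - z.2)) * f z ∂(nu.prod nu) : ℝ) : ℂ) := by
  have hint : ∀ j k : ℤ, Integrable (fun z : ℝ × ℝ => (f z : ℂ) * Complex.exp (-(Complex.I * (j * z.1 + k * z.2)))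
      * Complex.exp (Complex.I * (j * p.1 + k * p.2))) (nu.prod nu) := by
    intro j k
    have h1 : Integrable (fun z : ℝ × ℝ => (f z : ℂ)) (nu.prod nu) := hf.ofReal
    refine Integrable.mul_const ?_ _
    refine h1.mul_bdd (c := 1) ?_ ?_
    · exact (by fun_prop : Continuous (fun z : ℝ × ℝ => Complex.exp (-(Complex.I * (j * z.1 + k * z.2))))).aestronglyMeasurable
    · refine Eventually.of_forall (fun z => ?_)
      rw [Complex.norm_exp]
      simp
  have h1 : ∀ j k : ℤ, (∫ z, (f z : ℂ) * Complex.exp (-(Complex.I * (j * z.1 + k * z.2))) ∂(nu.prod nu))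
        * Complex.exp (Complex.I * (j * p.1 + k * p.2))
      = ∫ z, (f z : ℂ) * Complex.exp (-(Complex.I * (j * z.1 + k * z.2)))
        * Complex.exp (Complex.I * (j * p.1 + k * p.2)) ∂(nu.prod nu) := by
    intro j k
    rw [← integral_mul_const]
  simp_rw [h1]
  have h2 : ∀ j ∈ Finset.Icc (-(M : ℤ)) M, ∑ k ∈ Finset.Icc (-(N : ℤ)) N,
      ∫ z, (f z : ℂ) * Complex.exp (-(Complex.I * (j * z.1 + k * z.2)))
        * Complex.exp (Complex.I * (j * p.1 + k * p.2)) ∂(nu.prod nu)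
      = ∫ z, ∑ k ∈ Finset.Icc (-(N : ℤ)) N, (f z : ℂ) * Complex.exp (-(Complex.I * (j * z.1 + k * z.2)))
        * Complex.exp (Complex.I * (j * p.1 + k * p.2)) ∂(nu.prod nu) := by
    intro j _
    rw [integral_finsetSum _ (fun k _ => hint j k)]
  rw [Finset.sum_congr rfl h2, ← integral_finsetSum _ (fun j _ => integrable_finsetSum _ (fun k _ => hint j k)),
    ← integral_complex_ofReal]
  refine integral_congr_ae (Eventually.of_forall (fun z => ?_))
  simp only
  push_cast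
  rw [← exp_sum_eq, ← exp_sum_eq, Finset.sum_mul_sum, Finset.sum_mul]
  refine Finset.sum_congr rfl (fun j _ => ?_)
  rw [Finset.sum_mul]
  refine Finset.sum_congr rfl (fun k _ => ?_)
  rw [mul_assoc, ← Complex.exp_add, ← Complex.exp_add, mul_comm]
  congr 2
  push_cast
  ring

end Pool.Agent.Helper187.HBV
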